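import Mathlib

/-!
# LV31/Alg : the Bochner formula of Calabi in algebraic form

`R` is a commutative ring with commuting derivations `d_p`, `p ∈ ι`, and a conjugation `c`; put
`e_q = c d_q c`. For a hermitian matrix `h` over `R` which satisfies the Kähler condition and is
Ricci flat, `Γ_p = h⁻¹ d_p h` satisfies `Δ |Γ|² = |D Γ|² + |dbar Γ|²`.
-/

set_option autoImplicit false
set_option linter.unusedSectionVars false

open Matrix Finset

namespace Pool.Agent.LV31

/-- A commutative ring with commuting derivations `d_p` and a conjugation `c`. -/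
structure DR (ι R : Type) [CommRing R] where
  d : ι → R → R
  c : R →+* R
  d_add : ∀ p x y, d p (x + y) = d p x + d p y
  d_mul : ∀ p x y, d p (x * y) = d p x * y + x * d p y
  c_c : ∀ x, c (c x) = x
  d_comm : ∀ p q x, d p (d q x) = d q (d p x)
  de_comm : ∀ p q x, d p (c (d q (c x))) = c (d q (c (d p x)))
  two : ∀ x : R, x + x = 0 → x = 0

/-- `D` is a derivation. -/
structure IsDer {R : Type} [CommRing R] (D : R → R) : Prop where
  add : ∀ x y, D (x + y) = D x + D y
  mul : ∀ x y, D (x * y) = D x * y + x * D y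

namespace IsDer

variable {R : Type} [CommRing R] {D : R → R} (hD : IsDer D)

include hD

theorem zero : D 0 = 0 := by
  have := hD.add 0 0
  simpa using this

theorem one : D 1 = 0 := by
  have := hD.mul 1 1
  simpa using this

theorem neg (x : R) : D (-x) = -D x := by
  have := hD.add x (-x)
  rw [add_neg_cancel, hD.zero] at this
  exact (neg_eq_of_add_eq_zero_right this.symm).symm

theorem sub (x y : R) : D (x - y) = D x - D y := by
  rw [sub_eq_add_neg, hD.add, hD.neg, ← sub_eq_add_neg]

theorem sum {α : Type} (s : Finset α) (f : α → R) : D (∑ i ∈ s, f i) = ∑ i ∈ s, D (f i) := by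
  classical
  induction s using Finset.induction_on with
  | empty => simp [hD.zero]
  | insert a s ha ih => rw [Finset.sum_insert ha, Finset.sum_insert ha, hD.add, ih]

variable {ι : Type} [Fintype ι] [DecidableEq ι]

theorem mat_add (X Y : Matrix ι ι R) : (X + Y).map D = X.map D + Y.map D := by
  ext i j; simp [hD.add]

theorem mat_sub (X Y : Matrix ι ι R) : (X - Y).map D = X.map D - Y.map D := by
  ext i j; simp [hD.sub]

theorem mat_neg (X : Matrix ι ι R) : (-X).map D = -X.map D := by
  ext i j; simp [hD.neg]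

theorem mat_mul (X Y : Matrix ι ι R) : (X * Y).map D = X.map D * Y + X * Y.map D := by
  ext i j
  simp only [Matrix.map_apply, Matrix.mul_apply, Matrix.add_apply, hD.sum, hD.mul,
    Finset.sum_add_distrib]

theorem mat_smul (x : R) (X : Matrix ι ι R) : (x • X).map D = D x • X + x • X.map D := by
  ext i j
  simp [hD.mul]

theorem mat_sum {α : Type} (s : Finset α) (f : α → Matrix ι ι R) :
    (∑ i ∈ s, f i).map D = ∑ i ∈ s, (f i).map D := by
  ext i j
  simp only [Matrix.map_apply, Matrix.sum_apply, hD.sum]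

theorem mat_one : (1 : Matrix ι ι R).map D = 0 := by
  ext i j
  by_cases h : i = j
  · subst h; simp [hD.one]
  · simp [Matrix.one_apply_ne h, hD.zero]

theorem mat_zero : (0 : Matrix ι ι R).map D = 0 := by
  ext i j; simp [hD.zero]

theorem trace (X : Matrix ι ι R) : D (Matrix.trace X) = Matrix.trace (X.map D) := by
  simp [Matrix.trace, hD.sum]

end IsDer

namespace DR

variable {ι R : Type} [CommRing R] (A : DR ι R)

/-- The conjugate derivation. -/
def e (q : ι) (x : R) : R := A.c (A.d q (A.c x))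

theorem d_der (p : ι) : IsDer (A.d p) := ⟨A.d_add p, A.d_mul p⟩

theorem e_der (q : ι) : IsDer (A.e q) :=
  ⟨fun x y => by simp [e, A.d_add], fun x y => by
    simp only [e, map_mul, A.d_mul, map_add, A.c_c]⟩

theorem de (p q : ι) (x : R) : A.d p (A.e q x) = A.e q (A.d p x) := A.de_comm p q x

theorem c_d (p : ι) (x : R) : A.c (A.d p x) = A.e p (A.c x) := by
  simp only [e, A.c_c]

theorem c_e (p : ι) (x : R) : A.c (A.e p x) = A.d p (A.c x) := by
  simp only [e, A.c_c]

/-- The conjugate transpose. -/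
def ct (X : Matrix ι ι R) : Matrix ι ι R := (X.map A.c)ᵀ

theorem ct_apply (X : Matrix ι ι R) (i j : ι) : A.ct X i j = A.c (X j i) := rfl

theorem ct_ct (X : Matrix ι ι R) : A.ct (A.ct X) = X := by
  ext i j; simp [ct_apply, A.c_c]

theorem ct_add (X Y : Matrix ι ι R) : A.ct (X + Y) = A.ct X + A.ct Y := by
  ext i j; simp [ct_apply]

theorem ct_sub (X Y : Matrix ι ι R) : A.ct (X - Y) = A.ct X - A.ct Y := by
  ext i j; simp [ct_apply]

theorem ct_neg (X : Matrix ι ι R) : A.ct (-X) = -A.ct X := by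
  ext i j; simp [ct_apply]

theorem ct_smul (x : R) (X : Matrix ι ι R) : A.ct (x • X) = A.c x • A.ct X := by
  ext i j; simp [ct_apply]

theorem ct_map_d (p : ι) (X : Matrix ι ι R) : A.ct (X.map (A.d p)) = (A.ct X).map (A.e p) := by
  ext i j; simp [ct_apply, A.c_d]

theorem ct_map_e (p : ι) (X : Matrix ι ι R) : A.ct (X.map (A.e p)) = (A.ct X).map (A.d p) := by
  ext i j; simp [ct_apply, A.c_e]

variable [Fintype ι]

theorem ct_mul (X Y : Matrix ι ι R) : A.ct (X * Y) = A.ct Y * A.ct X := by
  ext i j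
  simp only [ct_apply, Matrix.mul_apply, map_sum, map_mul]
  exact Finset.sum_congr rfl fun k _ => mul_comm _ _

theorem ct_sum {α : Type} (s : Finset α) (f : α → Matrix ι ι R) :
    A.ct (∑ i ∈ s, f i) = ∑ i ∈ s, A.ct (f i) := by
  ext i j
  simp only [ct_apply, Matrix.sum_apply, map_sum]

theorem c_trace (X : Matrix ι ι R) : A.c (Matrix.trace X) = Matrix.trace (A.ct X) := by
  simp [Matrix.trace, ct_apply]

/-- `h` is hermitian with inverse `H`, Kähler and Ricci flat. -/
structure Met (A : DR ι R) [DecidableEq ι] (h H : Matrix ι ι R) : Prop where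
  herm : A.ct h = h
  mul_inv : h * H = 1
  inv_mul : H * h = 1
  kahler : ∀ p j l, A.d p (h j l) = A.d l (h j p)
  ric : ∀ p q, Matrix.trace ((H * h.map (A.d p)).map (A.e q)) = 0

/-- The Christoffel symbols. -/
def Gam (A : DR ι R) (h H : Matrix ι ι R) (p : ι) : Matrix ι ι R := H * h.map (A.d p)

/-- The covariant derivative in a `(1,0)`-direction. -/
def D (A : DR ι R) (h H : Matrix ι ι R) (r : ι) (X : ι → Matrix ι ι R) (p : ι) :
    Matrix ι ι R :=
  (X p).map (A.d r) + A.Gam h H r * X p - X p * A.Gam h H r - ∑ b, A.Gam h H r b p • X b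

/-- The covariant derivative in a `(0,1)`-direction. -/
def E (A : DR ι R) (s : ι) (X : ι → Matrix ι ι R) (p : ι) : Matrix ι ι R := (X p).map (A.e s)

/-- The hermitian product of two families. -/
def B (A : DR ι R) (h H : Matrix ι ι R) (X Y : ι → Matrix ι ι R) : R :=
  ∑ p, ∑ q, H p q * Matrix.trace (X p * H * A.ct (Y q) * h)

/-- The Laplace operator. -/
def lap (A : DR ι R) (H : Matrix ι ι R) (x : R) : R := ∑ r, ∑ s, H r s * A.e s (A.d r x)

section

variable [DecidableEq ι] {h H : Matrix ι ι R}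

namespace Met

variable {A}
variable (hm : A.Met h H)

include hm

theorem herm_inv : A.ct H = H := by
  have h1 : A.ct H * h = 1 := by
    have := congrArg A.ct hm.mul_inv
    rw [A.ct_mul, hm.herm] at this
    rw [this]
    ext i j
    by_cases hij : i = j
    · subst hij; simp [ct_apply]
    · simp [ct_apply, Matrix.one_apply_ne hij, Matrix.one_apply_ne (Ne.symm hij)]
  calc A.ct H = A.ct H * (h * H) := by rw [hm.mul_inv, mul_one]
    _ = H := by rw [← mul_assoc, h1, one_mul]

theorem h_apply (i j : ι) : A.c (h i j) = h j i := by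
  have := congrFun (congrFun hm.herm j) i
  rwa [ct_apply] at this

theorem H_apply (i j : ι) : A.c (H i j) = H j i := by
  have := congrFun (congrFun hm.herm_inv j) i
  rwa [ct_apply] at this

theorem d_h (r : ι) : h.map (A.d r) = h * A.Gam h H r := by
  rw [Gam, ← mul_assoc, hm.mul_inv, one_mul]

theorem d_H (r : ι) : H.map (A.d r) = -(A.Gam h H r * H) := by
  have h1 : (H * h).map (A.d r) = 0 := by rw [hm.inv_mul, (A.d_der r).mat_one]
  rw [(A.d_der r).mat_mul] at h1
  have h2 : H.map (A.d r) * h = -(H * h.map (A.d r)) := eq_neg_of_add_eq_zero_left h1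
  calc H.map (A.d r) = H.map (A.d r) * h * H := by rw [mul_assoc, hm.mul_inv, mul_one]
    _ = -(A.Gam h H r * H) := by rw [h2, Gam, neg_mul]

theorem gam_symm (p l a : ι) : A.Gam h H p a l = A.Gam h H l a p := by
  simp only [Gam, Matrix.mul_apply, Matrix.map_apply]
  exact Finset.sum_congr rfl fun j _ => by rw [hm.kahler]

theorem e_h (q j l : ι) : A.e q (h j l) = A.e j (h q l) := by
  rw [e, e, hm.h_apply, hm.h_apply, hm.kahler]

/-- The curvature with lowered index. -/
theorem curv_apply (p s j l : ι) :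
    (h * (A.Gam h H p).map (A.e s)) j l =
      A.e s (A.d p (h j l)) - ∑ a, A.e s (h j a) * A.Gam h H p a l := by
  have h1 : (h * A.Gam h H p).map (A.e s) = (h.map (A.d p)).map (A.e s) := by rw [hm.d_h]
  rw [(A.e_der s).mat_mul] at h1
  have h2 : h * (A.Gam h H p).map (A.e s) =
      (h.map (A.d p)).map (A.e s) - h.map (A.e s) * A.Gam h H p := by
    rw [← h1]; abel
  rw [h2]
  simp [Matrix.sub_apply, Matrix.mul_apply]

theorem curv_symm (p s j l : ι) :
    (h * (A.Gam h H p).map (A.e s)) j l = (h * (A.Gam h H l).map (A.e j)) s p := by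
  rw [hm.curv_apply, hm.curv_apply]
  congr 1
  · rw [← A.de, hm.e_h, A.de, hm.kahler]
  · exact Finset.sum_congr rfl fun a _ => by rw [hm.e_h s j a, hm.gam_symm]

/-- The contracted curvature vanishes. -/
theorem sum_W : ∑ p, ∑ s, H p s • (A.Gam h H p).map (A.e s) = 0 := by
  have h1 : h * (∑ p, ∑ s, H p s • (A.Gam h H p).map (A.e s)) = 0 := by
    ext j l
    have h2 : (h * (∑ p, ∑ s, H p s • (A.Gam h H p).map (A.e s))) j l =
        ∑ p, ∑ s, H p s * (h * (A.Gam h H p).map (A.e s)) j l := by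
      rw [Finset.mul_sum, Matrix.sum_apply]
      refine Finset.sum_congr rfl fun p _ => ?_
      rw [Finset.mul_sum, Matrix.sum_apply]
      refine Finset.sum_congr rfl fun s _ => ?_
      rw [Matrix.mul_smul, Matrix.smul_apply, smul_eq_mul]
    rw [h2]
    have h3 : ∑ p, ∑ s, H p s * (h * (A.Gam h H p).map (A.e s)) j l =
        Matrix.trace (H * (h * (A.Gam h H l).map (A.e j))) := by
      simp only [Matrix.trace, Matrix.diag_apply]
      refine Finset.sum_congr rfl fun p _ => ?_
      rw [Matrix.mul_apply]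
      refine Finset.sum_congr rfl fun s _ => ?_
      rw [hm.curv_symm]
    rw [h3, ← mul_assoc, hm.inv_mul, one_mul, Gam, hm.ric]
    rfl
  calc ∑ p, ∑ s, H p s • (A.Gam h H p).map (A.e s)
      = H * h * (∑ p, ∑ s, H p s • (A.Gam h H p).map (A.e s)) := by
        rw [hm.inv_mul, one_mul]
    _ = 0 := by rw [mul_assoc, h1, mul_zero]

theorem d_gam (r p : ι) : (A.Gam h H p).map (A.d r) =
    H * (h.map (A.d p)).map (A.d r) - A.Gam h H r * A.Gam h H p := by
  rw [Gam, (A.d_der r).mat_mul, hm.d_H]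
  rw [neg_mul, mul_assoc]
  simp only [Gam]
  abel

theorem d_gam_comm (r p : ι) : (A.Gam h H p).map (A.d r) + A.Gam h H r * A.Gam h H p =
    (A.Gam h H r).map (A.d p) + A.Gam h H p * A.Gam h H r := by
  rw [hm.d_gam, hm.d_gam, sub_add_cancel, sub_add_cancel]
  congr 1
  ext i j
  simp [A.d_comm]

theorem e_d_mat (s r : ι) (X : Matrix ι ι R) :
    (X.map (A.d r)).map (A.e s) = (X.map (A.e s)).map (A.d r) := by
  ext i j
  simp [A.de]

/-- The second Bianchi identity. -/
theorem bianchi (r p s : ι) :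
    A.D h H r (fun p => (A.Gam h H p).map (A.e s)) p =
      A.D h H p (fun p => (A.Gam h H p).map (A.e s)) r := by
  have h1 := congrArg (fun X : Matrix ι ι R => X.map (A.e s)) (hm.d_gam_comm r p)
  simp only [(A.e_der s).mat_add, (A.e_der s).mat_mul, hm.e_d_mat] at h1
  have h2 : ∑ b, A.Gam h H r b p • (A.Gam h H b).map (A.e s) =
      ∑ b, A.Gam h H p b r • (A.Gam h H b).map (A.e s) :=
    Finset.sum_congr rfl fun b _ => by rw [hm.gam_symm]
  simp only [D]
  rw [h2]
  have h3 : ((A.Gam h H p).map (A.e s)).map (A.d r) +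
      A.Gam h H r * (A.Gam h H p).map (A.e s) - (A.Gam h H p).map (A.e s) * A.Gam h H r =
      ((A.Gam h H r).map (A.e s)).map (A.d p) +
      A.Gam h H p * (A.Gam h H r).map (A.e s) - (A.Gam h H r).map (A.e s) * A.Gam h H p := by
    have h4 := h1
    rw [← sub_eq_zero] at h4 ⊢
    rw [← h4]
    abel
  rw [h3]

/-- The divergence of the curvature vanishes. -/
theorem sum_D_W (p : ι) :
    ∑ r, ∑ s, H r s • A.D h H r (fun p => (A.Gam h H p).map (A.e s)) p = 0 := by
  have h1 := congrArg (fun X : Matrix ι ι R => X.map (A.d p)) hm.sum_W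
  simp only [(A.d_der p).mat_sum, (A.d_der p).mat_zero, (A.d_der p).mat_smul] at h1
  have h2 : ∑ r, ∑ s, A.d p (H r s) • (A.Gam h H r).map (A.e s) =
      -∑ r, ∑ s, H r s • ∑ b, A.Gam h H p b r • (A.Gam h H b).map (A.e s) := by
    have h3 : ∀ r s, A.d p (H r s) = -∑ b, A.Gam h H p r b * H b s := by
      intro r s
      have := congrFun (congrFun (hm.d_H p) r) s
      rw [Matrix.map_apply, Matrix.neg_apply, Matrix.mul_apply] at this
      exact this
    have h4 : ∀ r s, A.d p (H r s) • (A.Gam h H r).map (A.e s) =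
        -∑ b, (A.Gam h H p r b * H b s) • (A.Gam h H r).map (A.e s) := by
      intro r s
      rw [h3, neg_smul, Finset.sum_smul]
    simp only [h4, Finset.sum_neg_distrib]
    congr 1
    have h5 : ∑ r, ∑ s, ∑ b, (A.Gam h H p r b * H b s) • (A.Gam h H r).map (A.e s) =
        ∑ b, ∑ s, ∑ r, (A.Gam h H p r b * H b s) • (A.Gam h H r).map (A.e s) := by
      rw [Finset.sum_comm]
      rw [Finset.sum_comm (s := Finset.univ) (t := Finset.univ)
        (f := fun b s => ∑ r, (A.Gam h H p r b * H b s) • (A.Gam h H r).map (A.e s))]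
      exact Finset.sum_congr rfl fun s _ => Finset.sum_comm
    rw [h5]
    refine Finset.sum_congr rfl fun b _ => Finset.sum_congr rfl fun s _ => ?_
    rw [Finset.smul_sum]
    refine Finset.sum_congr rfl fun r _ => ?_
    rw [smul_smul, mul_comm]
  have h6 : ∀ r s, H r s • A.D h H r (fun p => (A.Gam h H p).map (A.e s)) p =
      H r s • ((A.Gam h H r).map (A.e s)).map (A.d p) +
        (A.Gam h H p * (H r s • (A.Gam h H r).map (A.e s)) -
          (H r s • (A.Gam h H r).map (A.e s)) * A.Gam h H p) -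
        H r s • ∑ b, A.Gam h H p b r • (A.Gam h H b).map (A.e s) := by
    intro r s
    rw [hm.bianchi]
    simp only [D, smul_sub, smul_add, Matrix.mul_smul, Matrix.smul_mul]
    abel
  simp only [h6, Finset.sum_sub_distrib, Finset.sum_add_distrib]
  have h7 : ∑ r, ∑ s, A.Gam h H p * (H r s • (A.Gam h H r).map (A.e s)) = 0 := by
    simp only [← Finset.mul_sum, hm.sum_W, mul_zero]
  have h8 : ∑ r, ∑ s, (H r s • (A.Gam h H r).map (A.e s)) * A.Gam h H p = 0 := by
    simp only [← Finset.sum_mul, hm.sum_W, zero_mul]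
  rw [h7, h8]
  simp only [Finset.sum_add_distrib] at h1
  rw [h2] at h1
  rw [sub_zero, add_zero, ← h1]
  abel

/-- The contracted second derivative of `Γ` vanishes. -/
theorem sum_E_D (p : ι) :
    ∑ r, ∑ s, H r s • A.E s (A.D h H r (A.Gam h H)) p = 0 := by
  have h1 : ∀ r s, H r s • A.E s (A.D h H r (A.Gam h H)) p =
      H r s • A.D h H r (fun p => (A.Gam h H p).map (A.e s)) p +
      ((H r s • (A.Gam h H r).map (A.e s)) * A.Gam h H p -
        A.Gam h H p * (H r s • (A.Gam h H r).map (A.e s))) -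
      ∑ b, (H r s • (A.Gam h H r).map (A.e s)) b p • A.Gam h H b := by
    intro r s
    simp only [E, D, (A.e_der s).mat_sub, (A.e_der s).mat_add, (A.e_der s).mat_mul,
      (A.e_der s).mat_sum, (A.e_der s).mat_smul, hm.e_d_mat, Finset.sum_add_distrib,
      smul_sub, smul_add, Matrix.mul_smul, Matrix.smul_mul, Matrix.smul_apply,
      Matrix.map_apply, smul_eq_mul, Finset.smul_sum, smul_smul]
    abel
  simp only [h1, Finset.sum_sub_distrib, Finset.sum_add_distrib, hm.sum_D_W]
  have h7 : ∑ r, ∑ s, A.Gam h H p * (H r s • (A.Gam h H r).map (A.e s)) = 0 := by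
    simp only [← Finset.mul_sum, hm.sum_W, mul_zero]
  have h8 : ∑ r, ∑ s, (H r s • (A.Gam h H r).map (A.e s)) * A.Gam h H p = 0 := by
    simp only [← Finset.sum_mul, hm.sum_W, zero_mul]
  have h9 : ∑ r, ∑ s, ∑ b, (H r s • (A.Gam h H r).map (A.e s)) b p • A.Gam h H b = 0 := by
    have h10 : ∀ b, ∑ r, ∑ s, (H r s • (A.Gam h H r).map (A.e s)) b p = 0 := by
      intro b
      have := congrFun (congrFun hm.sum_W b) p
      rw [Matrix.sum_apply] at this
      simp only [Matrix.sum_apply] at this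
      exact this
    have h11 : ∑ r, ∑ s, ∑ b, (H r s • (A.Gam h H r).map (A.e s)) b p • A.Gam h H b =
        ∑ b, (∑ r, ∑ s, (H r s • (A.Gam h H r).map (A.e s)) b p) • A.Gam h H b := by
      simp only [Finset.sum_smul]
      rw [Finset.sum_comm]
      rw [Finset.sum_comm (s := Finset.univ) (t := Finset.univ)
        (f := fun b r => ∑ s, (H r s • (A.Gam h H r).map (A.e s)) b p • A.Gam h H b)]
      rw [Finset.sum_comm]
      refine Finset.sum_congr rfl fun r _ => ?_
      exact Finset.sum_comm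
    rw [h11]
    simp only [h10, zero_smul, Finset.sum_const_zero]
  rw [h7, h8, h9]
  simp

omit hm in
theorem B_eq (X Y : ι → Matrix ι ι R) :
    A.B h H X Y = ∑ p, ∑ q, H p q * Matrix.trace (X p * H * A.ct (Y q) * h) := rfl

theorem c_B (X Y : ι → Matrix ι ι R) : A.c (A.B h H X Y) = A.B h H Y X := by
  simp only [B_eq, map_sum, map_mul, A.c_trace, A.ct_mul, A.ct_ct, hm.herm, hm.herm_inv,
    hm.H_apply]
  rw [Finset.sum_comm]
  refine Finset.sum_congr rfl fun p _ => Finset.sum_congr rfl fun q _ => ?_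
  congr 1
  rw [Matrix.trace_mul_comm]
  simp only [mul_assoc]

omit hm in
theorem B_add_left (X X' Y : ι → Matrix ι ι R) :
    A.B h H (fun p => X p + X' p) Y = A.B h H X Y + A.B h H X' Y := by
  simp only [B_eq, ← Finset.sum_add_distrib]
  refine Finset.sum_congr rfl fun p _ => Finset.sum_congr rfl fun q _ => ?_
  rw [add_mul, add_mul, add_mul, Matrix.trace_add, mul_add]

omit hm in
theorem B_smul_left (a : R) (X Y : ι → Matrix ι ι R) :
    A.B h H (fun p => a • X p) Y = a * A.B h H X Y := by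
  simp only [B_eq, Finset.mul_sum]
  refine Finset.sum_congr rfl fun p _ => Finset.sum_congr rfl fun q _ => ?_
  rw [Matrix.smul_mul, Matrix.smul_mul, Matrix.smul_mul, Matrix.trace_smul, smul_eq_mul]
  ring

omit hm in
theorem B_zero_left (Y : ι → Matrix ι ι R) : A.B h H (fun _ => 0) Y = 0 := by
  simp [B_eq]

omit hm in
theorem B_sum_left {α : Type} (s : Finset α) (a : α → R) (X : α → ι → Matrix ι ι R)
    (Y : ι → Matrix ι ι R) :
    A.B h H (fun p => ∑ i ∈ s, a i • X i p) Y = ∑ i ∈ s, a i * A.B h H (X i) Y := by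
  classical
  induction s using Finset.induction_on with
  | empty => simpa using B_zero_left Y
  | insert i s hi ih =>
    simp only [Finset.sum_insert hi]
    rw [B_add_left (fun p => a i • X i p), B_smul_left, ih]

theorem B_sum_right {α : Type} (s : Finset α) (a : α → R) (X : ι → Matrix ι ι R)
    (Y : α → ι → Matrix ι ι R) :
    A.B h H X (fun p => ∑ i ∈ s, a i • Y i p) = ∑ i ∈ s, A.c (a i) * A.B h H X (Y i) := by
  rw [← hm.c_B, B_sum_left, map_sum]
  exact Finset.sum_congr rfl fun i _ => by rw [map_mul, hm.c_B]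

/-- The hermitian product is compatible with the covariant derivatives. -/
theorem d_B (r : ι) (X Y : ι → Matrix ι ι R) :
    A.d r (A.B h H X Y) = A.B h H (A.D h H r X) Y + A.B h H X (A.E r Y) := by
  have hd := A.d_der r
  have h1 : ∀ p q, A.d r (Matrix.trace (X p * H * A.ct (Y q) * h)) =
      Matrix.trace (A.D h H r X p * H * A.ct (Y q) * h) +
      ∑ b, A.Gam h H r b p * Matrix.trace (X b * H * A.ct (Y q) * h) +
      Matrix.trace (X p * H * A.ct (A.E r Y q) * h) := by
    intro p q
    rw [hd.trace, hd.mat_mul, hd.mat_mul, hd.mat_mul, hm.d_h, hm.d_H]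
    have h2 : (A.ct (Y q)).map (A.d r) = A.ct (A.E r Y q) := by
      rw [E, A.ct_map_e]
    rw [h2]
    have h3 : ∑ b, A.Gam h H r b p * Matrix.trace (X b * H * A.ct (Y q) * h) =
        Matrix.trace ((∑ b, A.Gam h H r b p • X b) * H * A.ct (Y q) * h) := by
      simp only [Finset.sum_mul, Matrix.trace_sum, Matrix.smul_mul, Matrix.trace_smul,
        smul_eq_mul]
    rw [h3, ← Matrix.trace_add, ← Matrix.trace_add]
    have h4 : Matrix.trace (X p * H * A.ct (Y q) * (h * A.Gam h H r)) =
        Matrix.trace (A.Gam h H r * X p * H * A.ct (Y q) * h) := by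
      rw [← mul_assoc, Matrix.trace_mul_comm]
      simp only [mul_assoc]
    rw [Matrix.trace_add, h4, ← Matrix.trace_add]
    congr 1
    simp only [D, sub_mul, add_mul, mul_neg, neg_mul, mul_assoc]
    abel
  have h5 : ∀ p q, A.d r (H p q) = -∑ b, A.Gam h H r p b * H b q := by
    intro p q
    have := congrFun (congrFun (hm.d_H r) p) q
    rw [Matrix.map_apply, Matrix.neg_apply, Matrix.mul_apply] at this
    exact this
  simp only [B_eq, hd.sum, hd.mul, h1, h5]
  have h6 : ∑ p, ∑ q, (∑ b, A.Gam h H r p b * H b q) *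
      Matrix.trace (X p * H * A.ct (Y q) * h) =
      ∑ p, ∑ q, H p q * ∑ b, A.Gam h H r b p * Matrix.trace (X b * H * A.ct (Y q) * h) := by
    simp only [Finset.sum_mul, Finset.mul_sum]
    rw [Finset.sum_comm]
    rw [Finset.sum_comm (s := Finset.univ) (t := Finset.univ)
      (f := fun p q => ∑ b, H p q *
        (A.Gam h H r b p * Matrix.trace (X b * H * A.ct (Y q) * h)))]
    refine Finset.sum_congr rfl fun q _ => ?_
    rw [Finset.sum_comm]
    refine Finset.sum_congr rfl fun b _ => Finset.sum_congr rfl fun p _ => ?_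
    ring
  simp only [mul_add, Finset.sum_add_distrib, neg_mul, Finset.sum_neg_distrib]
  rw [h6]
  ring

theorem e_B (s : ι) (X Y : ι → Matrix ι ι R) :
    A.e s (A.B h H X Y) = A.B h H (A.E s X) Y + A.B h H X (A.D h H s Y) := by
  rw [e, hm.c_B, hm.d_B, map_add, hm.c_B, hm.c_B]
  ring

/-- The Bochner formula for `|Γ|²`. -/
theorem lap_S : A.lap H (A.B h H (A.Gam h H) (A.Gam h H)) =
    ∑ r, ∑ s, H r s * (A.B h H (A.D h H r (A.Gam h H)) (A.D h H s (A.Gam h H)) +
      A.B h H (A.E s (A.Gam h H)) (A.E r (A.Gam h H))) := by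
  have h1 : ∀ r s, A.e s (A.d r (A.B h H (A.Gam h H) (A.Gam h H))) =
      A.B h H (A.E s (A.D h H r (A.Gam h H))) (A.Gam h H) +
      A.B h H (A.D h H r (A.Gam h H)) (A.D h H s (A.Gam h H)) +
      (A.B h H (A.E s (A.Gam h H)) (A.E r (A.Gam h H)) +
      A.B h H (A.Gam h H) (A.D h H s (A.E r (A.Gam h H)))) := by
    intro r s
    rw [hm.d_B, (A.e_der s).add, hm.e_B, hm.e_B]
  have h2 : ∑ r, ∑ s, H r s * A.B h H (A.E s (A.D h H r (A.Gam h H))) (A.Gam h H) = 0 := by
    have h3 : ∑ r, ∑ s, H r s * A.B h H (A.E s (A.D h H r (A.Gam h H))) (A.Gam h H) =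
        A.B h H (fun p => ∑ r, ∑ s, H r s • A.E s (A.D h H r (A.Gam h H)) p)
          (A.Gam h H) := by
      have h4 : ∀ r, ∑ s, H r s * A.B h H (A.E s (A.D h H r (A.Gam h H))) (A.Gam h H) =
          A.B h H (fun p => ∑ s, H r s • A.E s (A.D h H r (A.Gam h H)) p) (A.Gam h H) :=
        fun r => (B_sum_left _ _ _ _).symm
      simp only [h4]
      have h5 := B_sum_left (A := A) (h := h) (H := H) Finset.univ (fun _ : ι => (1 : R))
        (fun r p => ∑ s, H r s • A.E s (A.D h H r (A.Gam h H)) p) (A.Gam h H)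
      simp only [one_smul, one_mul] at h5
      exact h5.symm
    rw [h3]
    have h6 : (fun p => ∑ r, ∑ s, H r s • A.E s (A.D h H r (A.Gam h H)) p) = fun _ => 0 := by
      funext p
      exact hm.sum_E_D p
    rw [h6, B_zero_left]
  have h7 : ∑ r, ∑ s, H r s * A.B h H (A.Gam h H) (A.D h H s (A.E r (A.Gam h H))) = 0 := by
    have h8 : ∑ r, ∑ s, H r s * A.B h H (A.Gam h H) (A.D h H s (A.E r (A.Gam h H))) =
        A.c (∑ s, ∑ r, H s r * A.B h H (A.D h H s (A.E r (A.Gam h H))) (A.Gam h H)) := by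
      simp only [map_sum, map_mul, hm.H_apply, hm.c_B]
      exact Finset.sum_comm
    rw [h8]
    have h3 : ∑ s, ∑ r, H s r * A.B h H (A.D h H s (A.E r (A.Gam h H))) (A.Gam h H) =
        A.B h H (fun p => ∑ s, ∑ r, H s r • A.D h H s (A.E r (A.Gam h H)) p)
          (A.Gam h H) := by
      have h4 : ∀ s, ∑ r, H s r * A.B h H (A.D h H s (A.E r (A.Gam h H))) (A.Gam h H) =
          A.B h H (fun p => ∑ r, H s r • A.D h H s (A.E r (A.Gam h H)) p) (A.Gam h H) :=
        fun r => (B_sum_left _ _ _ _).symm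
      simp only [h4]
      have h5 := B_sum_left (A := A) (h := h) (H := H) Finset.univ (fun _ : ι => (1 : R))
        (fun s p => ∑ r, H s r • A.D h H s (A.E r (A.Gam h H)) p) (A.Gam h H)
      simp only [one_smul, one_mul] at h5
      exact h5.symm
    rw [h3]
    have h6 : (fun p => ∑ s, ∑ r, H s r • A.D h H s (A.E r (A.Gam h H)) p) =
        fun _ => 0 := by
      funext p
      exact hm.sum_D_W p
    rw [h6, B_zero_left, map_zero]
  simp only [lap, h1, mul_add, Finset.sum_add_distrib]
  rw [h2, h7]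
  ring

/-- The Laplacian of the trace. -/
theorem lap_trace : A.lap H (Matrix.trace h) =
    ∑ p, ∑ q, H p q * Matrix.trace (A.ct (h.map (A.d q)) * H * h.map (A.d p)) := by
  have h1 : ∀ p q, A.e q (A.d p (Matrix.trace h)) =
      Matrix.trace (h * (A.Gam h H p).map (A.e q)) +
        Matrix.trace (A.ct (h.map (A.d q)) * H * h.map (A.d p)) := by
    intro p q
    rw [(A.d_der p).trace, (A.e_der q).trace, hm.d_h, (A.e_der q).mat_mul, Matrix.trace_add]
    rw [← hm.d_h p, add_comm]
    congr 2
    rw [A.ct_map_d, hm.herm, Gam, mul_assoc]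
  simp only [lap, h1, mul_add, Finset.sum_add_distrib]
  have h2 : ∑ p, ∑ q, H p q * Matrix.trace (h * (A.Gam h H p).map (A.e q)) =
      Matrix.trace (h * ∑ p, ∑ q, H p q • (A.Gam h H p).map (A.e q)) := by
    simp only [Finset.mul_sum, Matrix.trace_sum, Matrix.mul_smul, Matrix.trace_smul,
      smul_eq_mul]
  rw [h2, hm.sum_W, mul_zero, Matrix.trace_zero, zero_add]

end Met

/-- The Ricci form of a hermitian matrix with `h = s^* h^{-t} s`, `s` holomorphic, vanishes. -/
theorem met_of_symp (s t : Matrix ι ι R) (herm : A.ct h = h) (h1 : h * H = 1) (h2 : H * h = 1)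
    (hk : ∀ p j l, A.d p (h j l) = A.d l (h j p)) (hs : ∀ q j l, A.e q (s j l) = 0)
    (hst : s * t = 1) (hts : t * s = 1) (hh : h = A.ct s * Hᵀ * s) : A.Met h H := by
  refine ⟨herm, h1, h2, hk, fun p q => ?_⟩
  have hes : ∀ q, s.map (A.e q) = 0 := fun q => by ext i j; exact hs q i j
  have hds : (A.ct s).map (A.d p) = 0 := by
    rw [← A.ct_map_e, hes]
    ext i j
    simp [ct_apply]
  have hdH : H.map (A.d p) = -(A.Gam h H p * H) := by
    have h3 : (H * h).map (A.d p) = 0 := by rw [h2, (A.d_der p).mat_one]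
    rw [(A.d_der p).mat_mul] at h3
    have h4 : H.map (A.d p) * h = -(H * h.map (A.d p)) := eq_neg_of_add_eq_zero_left h3
    calc H.map (A.d p) = H.map (A.d p) * h * H := by rw [mul_assoc, h1, mul_one]
      _ = -(A.Gam h H p * H) := by rw [h4, Gam, neg_mul]
  have hdHt : (Hᵀ).map (A.d p) = -(Hᵀ * (A.Gam h H p)ᵀ) := by
    rw [← Matrix.transpose_mul, ← Matrix.transpose_neg, ← hdH]
    rfl
  have hht : A.ct s * Hᵀ = h * t := by
    calc A.ct s * Hᵀ = A.ct s * Hᵀ * (s * t) := by rw [hst, mul_one]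
      _ = (A.ct s * Hᵀ * s) * t := by rw [← mul_assoc]
      _ = h * t := by rw [← hh]
  have h3 : h.map (A.d p) = -(A.ct s * Hᵀ * (A.Gam h H p)ᵀ * s) +
      A.ct s * Hᵀ * s.map (A.d p) := by
    have h4 := congrArg (fun X : Matrix ι ι R => X.map (A.d p)) hh
    simp only [(A.d_der p).mat_mul] at h4
    rw [hds, hdHt] at h4
    rw [h4, zero_mul, zero_add, mul_neg, neg_mul, ← mul_assoc]
  have h5 : A.Gam h H p = -(t * (A.Gam h H p)ᵀ * s) + t * s.map (A.d p) := by
    have h6 : A.Gam h H p = H * (-(A.ct s * Hᵀ * (A.Gam h H p)ᵀ * s) +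
        A.ct s * Hᵀ * s.map (A.d p)) := by
      rw [← h3]; rfl
    rw [hht] at h6
    have h7 : ∀ X : Matrix ι ι R, H * (h * t * X) = t * X := fun X => by
      rw [mul_assoc h, ← mul_assoc H, h2, one_mul]
    rw [mul_add, mul_neg, mul_assoc (h * t), h7, h7, ← mul_assoc] at h6
    exact h6
  have h8 : Matrix.trace (A.Gam h H p) + Matrix.trace (A.Gam h H p) =
      Matrix.trace (t * s.map (A.d p)) := by
    have h9 := congrArg Matrix.trace h5
    rw [Matrix.trace_add, Matrix.trace_neg, mul_assoc, Matrix.trace_mul_comm, mul_assoc, hst,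
      mul_one, Matrix.trace_transpose] at h9
    rw [eq_neg_add_iff_add_eq] at h9
    exact h9
  have hte : t.map (A.e q) = 0 := by
    have h10 : (t * s).map (A.e q) = 0 := by rw [hts, (A.e_der q).mat_one]
    rw [(A.e_der q).mat_mul, hes, mul_zero, add_zero] at h10
    calc t.map (A.e q) = t.map (A.e q) * (s * t) := by rw [hst, mul_one]
      _ = 0 := by rw [← mul_assoc, h10, zero_mul]
  have hsde : (s.map (A.d p)).map (A.e q) = 0 := by
    ext i j
    simp only [Matrix.map_apply, Matrix.zero_apply, ← A.de, hs, (A.d_der p).zero]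
  have h11 := congrArg (A.e q) h8
  rw [(A.e_der q).add, (A.e_der q).trace, (A.e_der q).trace, (A.e_der q).mat_mul, hte, hsde,
    mul_zero, zero_mul, add_zero, Matrix.trace_zero] at h11
  exact A.two _ h11

end

end DR

end Pool.Agent.LV31
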