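import Pool.Agent.LV31.Main

/-!
# LV31/Close : hyperkähler triples close to a constant triple have small derivatives
-/

set_option autoImplicit false
set_option linter.unusedSectionVars false

open Matrix Finset Filter Topology Pool.Agent.SYM

noncomputable section

namespace Pool.Agent.LV31

section

variable {m : ℕ}

namespace Loc

variable {r : ℝ} {h s : (Fin m → ℂ) → Matrix (Fin m) (Fin m) ℂ}
variable (hL : Loc (Metric.ball (0 : Fin m → ℂ) r) h s)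

include hL

/-- The gradient estimate in terms of the oscillation of the trace. -/
theorem S_le_osc [NeZero m] {ρ Λ T₁ T : ℝ} (hρ : 0 < ρ) (hr : ρ < r)
    (hΛ : ∀ w ∈ Metric.ball (0 : Fin m → ℂ) r, (Matrix.trace (h w)⁻¹).re ≤ Λ)
    (hT : ∀ w ∈ Metric.ball (0 : Fin m → ℂ) r, (Matrix.trace (h w)).re ≤ T)
    (hT₁ : ∀ w ∈ Metric.ball (0 : Fin m → ℂ) r, T₁ ≤ (Matrix.trace (h w)).re)
    {w : Fin m → ℂ} (hw : nsq w ≤ ρ ^ 2 / 4) :
    (Sf h w).re ≤ 16 * Λ ^ 2 * (T - T₁) / ρ ^ 2 := by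
  have hρ2 : 0 < ρ ^ 2 := by positivity
  have hwe : w ∈ eb m ρ := by
    show nsq w ≤ ρ ^ 2
    linarith
  have hwU := hL.eb_sub hρ.le hr hwe
  have h1 : (1 - 1 / ρ ^ 2 * nsq w) ^ 2 * (Sf h w).re ≤ 8 * Λ ^ 2 / ρ ^ 2 * (T - T₁) := by
    apply le_of_forall_pos_le_add
    intro δ hδ
    have h2 := hL.test_le hρ hr (ε := δ / ρ ^ 2) (by positivity) hΛ hT w hwe
    rw [hL.test_re hwU] at h2
    have h3 : 8 * Λ ^ 2 / ρ ^ 2 * T₁ ≤ 8 * Λ ^ 2 / ρ ^ 2 * (Matrix.trace (h w)).re :=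
      mul_le_mul_of_nonneg_left (hT₁ w hwU) (by positivity)
    have h4 : 0 ≤ δ / ρ ^ 2 * nsq w := mul_nonneg (by positivity) (nsq_nonneg w)
    have h5 : δ / ρ ^ 2 * ρ ^ 2 = δ := by field_simp
    linarith
  have h6 : 3 / 4 ≤ 1 - 1 / ρ ^ 2 * nsq w := by
    have : 1 / ρ ^ 2 * nsq w ≤ 1 / ρ ^ 2 * (ρ ^ 2 / 4) :=
      mul_le_mul_of_nonneg_left hw (by positivity)
    have h7 : 1 / ρ ^ 2 * (ρ ^ 2 / 4) = 1 / 4 := by field_simp
    linarith
  have h8 : 1 / 2 * (Sf h w).re ≤ (1 - 1 / ρ ^ 2 * nsq w) ^ 2 * (Sf h w).re := by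
    apply mul_le_mul_of_nonneg_right _ (hL.S_real hwU).2
    nlinarith
  have h9 : 16 * Λ ^ 2 * (T - T₁) / ρ ^ 2 = 2 * (8 * Λ ^ 2 / ρ ^ 2 * (T - T₁)) := by ring
  rw [h9]
  linarith

/-- The gradient estimate in terms of the oscillation of the trace. -/
theorem wd_le_osc {ρ Λ T₁ T : ℝ} (hρ : 0 < ρ) (hr : ρ < r)
    (hΛ : ∀ w ∈ Metric.ball (0 : Fin m → ℂ) r, (Matrix.trace (h w)⁻¹).re ≤ Λ)
    (hT : ∀ w ∈ Metric.ball (0 : Fin m → ℂ) r, (Matrix.trace (h w)).re ≤ T)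
    (hT₁ : ∀ w ∈ Metric.ball (0 : Fin m → ℂ) r, T₁ ≤ (Matrix.trace (h w)).re)
    {w : Fin m → ℂ} (hw : nsq w ≤ ρ ^ 2 / 4) (p j l : Fin m) :
    ‖wd p (fun z => h z j l) w‖ ≤ 4 * Λ * T * √(T * (T - T₁)) / ρ := by
  have : NeZero m := ⟨by rintro rfl; exact Fin.elim0 p⟩
  have hρ2 : 0 < ρ ^ 2 := by positivity
  have hwe : w ∈ eb m ρ := by
    show nsq w ≤ ρ ^ 2
    linarith
  have hwU := hL.eb_sub hρ.le hr hwe
  obtain ⟨F, G, P⟩ := hL.pt hwU
  have h1 := P.deriv_le p j l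
  have h2 : ns (cmp (SG.ev w) F G ((SG.wirt w).Gam (hL.gh hwU) (hL.gH hwU))) =
      (Sf h w).re := by
    have h3 := P.ev_S
    rw [hL.S_eq hwU, SG.ev_mk] at h3
    rw [h3]; simp
  rw [h2] at h1
  have h4 : SG.ev w ((SG.wirt w).d p (hL.gh hwU j l)) = wd p (fun z => h z j l) w := rfl
  rw [h4] at h1
  have hd : ∀ i, 0 ≤ (h w i i).re ∧ (h w i i).re ≤ T := by
    intro i
    refine ⟨hL.diag_nonneg hwU i, ?_⟩
    refine le_trans ?_ (hT w hwU)
    rw [Matrix.trace, Complex.re_sum]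
    exact Finset.single_le_sum (f := fun i => (h w i i).re)
      (fun i _ => hL.diag_nonneg hwU i) (Finset.mem_univ i)
  have hT0 : 0 ≤ T := (hd p).1.trans (hd p).2
  have hTT : 0 ≤ T - T₁ := sub_nonneg.2 ((hT₁ w hwU).trans (hT w hwU))
  have hΛ0 : 0 ≤ Λ := (hL.trace_inv_nonneg hwU).trans (hΛ w hwU)
  have h5 : (SG.ev w (hL.gh hwU p p)).re * (SG.ev w (hL.gh hwU j j)).re *
      (SG.ev w (hL.gh hwU l l)).re ≤ T * T * T := by
    show (h w p p).re * (h w j j).re * (h w l l).re ≤ T * T * T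
    apply mul_le_mul _ (hd l).2 (hd l).1 (by positivity)
    exact mul_le_mul (hd p).2 (hd j).2 (hd j).1 hT0
  have h6 := hL.S_le_osc hρ hr hΛ hT hT₁ hw
  have hsq : √(T * (T - T₁)) ^ 2 = T * (T - T₁) := Real.sq_sqrt (mul_nonneg hT0 hTT)
  have h7 : ‖wd p (fun z => h z j l) w‖ ^ 2 ≤ (4 * Λ * T * √(T * (T - T₁)) / ρ) ^ 2 := by
    calc ‖wd p (fun z => h z j l) w‖ ^ 2 ≤ (16 * Λ ^ 2 * (T - T₁) / ρ ^ 2) * (T * T * T) := by
          refine h1.trans (mul_le_mul h6 h5 ?_ (by positivity))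
          exact mul_nonneg (mul_nonneg (hd p).1 (hd j).1) (hd l).1
      _ = (4 * Λ * T * √(T * (T - T₁)) / ρ) ^ 2 := by
          rw [div_pow, mul_pow, hsq]
          field_simp
          ring
  exact le_of_sq_le_sq h7 (by positivity)

theorem h_sub_le_of {ρ B : ℝ} (hρ : 0 < ρ) (hr : ρ < r)
    (hB : ∀ w : Fin m → ℂ, nsq w ≤ ρ ^ 2 / 4 → ∀ p j l, ‖wd p (fun z => h z j l) w‖ ≤ B)
    {w : Fin m → ℂ} (hw : nsq w ≤ ρ ^ 2 / 4) (j l : Fin m) :
    ‖h w j l - h 0 j l‖ ≤ 2 * m * B * ‖w‖ := by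
  have hρ2 : 0 < ρ ^ 2 := by positivity
  have hseg : ∀ t ∈ Set.Icc (0 : ℝ) 1, nsq (t • w) ≤ ρ ^ 2 / 4 := by
    intro t ht
    have h1 : nsq (t • w) = t ^ 2 * nsq w := by
      simp only [nsq, Pi.smul_apply, norm_smul, mul_pow, Finset.mul_sum, Real.norm_eq_abs, sq_abs]
    rw [h1]
    have h2 : t ^ 2 ≤ 1 := pow_le_one₀ ht.1 ht.2
    calc t ^ 2 * nsq w ≤ 1 * nsq w := mul_le_mul_of_nonneg_right h2 (nsq_nonneg w)
      _ ≤ ρ ^ 2 / 4 := by rw [one_mul]; exact hw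
  have hU : ∀ t ∈ Set.Icc (0 : ℝ) 1, t • w ∈ Metric.ball (0 : Fin m → ℂ) r := by
    intro t ht
    apply hL.eb_sub hρ.le hr
    have := hseg t ht
    show nsq (t • w) ≤ ρ ^ 2
    linarith
  have hder : ∀ t ∈ Set.Icc (0 : ℝ) 1, HasDerivWithinAt (fun t : ℝ => h (t • w) j l)
      (fderiv ℝ (fun z => h z j l) (t • w) w) (Set.Icc 0 1) t := by
    intro t ht
    have h1 : HasDerivAt (fun t : ℝ => t • w) w t := by
      have := (hasDerivAt_id t).smul_const w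
      simpa using this
    have h2 : DifferentiableAt ℝ (fun z => h z j l) (t • w) :=
      ((hL.sm_h (hU t ht) j l).eventually_diff).self_of_nhds
    exact (HasFDerivAt.comp_hasDerivAt (l := fun z => h z j l) t h2.hasFDerivAt
      h1).hasDerivWithinAt
  have hbound : ∀ t ∈ Set.Ico (0 : ℝ) 1, ‖fderiv ℝ (fun z => h z j l) (t • w) w‖ ≤
      2 * m * B * ‖w‖ := by
    intro t ht
    have ht' : t ∈ Set.Icc (0 : ℝ) 1 := ⟨ht.1, ht.2.le⟩
    rw [fderiv_eq_wd]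
    calc ‖∑ r, (w r * wd r (fun z => h z j l) (t • w) +
          starRingEnd ℂ (w r) * wdb r (fun z => h z j l) (t • w))‖
        ≤ ∑ r : Fin m, (2 * B * ‖w‖) := by
          refine (norm_sum_le _ _).trans (Finset.sum_le_sum fun r _ => ?_)
          refine (norm_add_le _ _).trans ?_
          rw [norm_mul, norm_mul, Complex.norm_conj, hL.wdb_eq (hU t ht'), Complex.norm_conj]
          have h1 := hB _ (hseg t ht') r j l
          have h2 := hB _ (hseg t ht') r l j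
          have h3 := norm_le_pi_norm w r
          have h4 : ‖w r‖ * ‖wd r (fun z => h z j l) (t • w)‖ ≤ ‖w‖ * B :=
            mul_le_mul h3 h1 (norm_nonneg _) (norm_nonneg _)
          have h5 : ‖w r‖ * ‖wd r (fun z => h z l j) (t • w)‖ ≤ ‖w‖ * B :=
            mul_le_mul h3 h2 (norm_nonneg _) (norm_nonneg _)
          linarith
      _ = 2 * m * B * ‖w‖ := by
          rw [Finset.sum_const, Finset.card_univ, Fintype.card_fin, nsmul_eq_mul]
          ring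
  have h1 := norm_image_sub_le_of_norm_deriv_le_segment_01' hder hbound
  simpa using h1

end Loc

theorem hol_sub_le' {f : (Fin m → ℂ) → ℂ} {r M : ℝ} (hM : 0 < M) (c : ℂ)
    (hf : ∀ w ∈ Metric.ball (0 : Fin m → ℂ) r, DifferentiableAt ℂ f w)
    (hb : ∀ w ∈ Metric.ball (0 : Fin m → ℂ) r, ‖f w - c‖ ≤ M)
    {w : Fin m → ℂ} (hw : w ∈ Metric.ball (0 : Fin m → ℂ) r) :
    ‖f w - f 0‖ ≤ 3 * M / r * ‖w‖ := by
  have h1 := hol_sub_le (f := fun z => (M : ℂ)⁻¹ * (f z - c)) (r := r) (M := 1) zero_le_one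
    (fun z hz => ((hf z hz).sub_const c).const_mul _)
    (fun z hz => by
      rw [norm_mul, norm_inv, Complex.norm_real, Real.norm_eq_abs, abs_of_pos hM,
        inv_mul_le_iff₀ hM, mul_one]
      exact hb z hz) hw
  have h2 : (M : ℂ)⁻¹ * (f w - c) - (M : ℂ)⁻¹ * (f 0 - c) = (M : ℂ)⁻¹ * (f w - f 0) := by ring
  rw [h2, norm_mul, norm_inv, Complex.norm_real, Real.norm_eq_abs, abs_of_pos hM,
    inv_mul_le_iff₀ hM] at h1
  refine h1.trans (le_of_eq ?_)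
  ring

end

variable {n : ℕ}

theorem norm_basisVec (j : Fin (2 * n)) : ‖basisVec n j‖ = 1 := by
  rw [basisVec, Pi.norm_single, norm_one]

theorem hM_close {o τ : Fin 3 → CV n → CV n → ℝ} {ε : ℝ}
    (hc : ∀ c u v, |τ c u v - o c u v| ≤ ε * ‖u‖ * ‖v‖) (i j : Fin (2 * n)) :
    ‖hM τ i j - hM o i j‖ ≤ 2 * ε := by
  have h1 : hM τ i j - hM o i j =
      ((τ 1 (basisVec n i) (Complex.I • basisVec n j) -
        o 1 (basisVec n i) (Complex.I • basisVec n j) : ℝ) : ℂ) +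
      ((τ 1 (basisVec n i) (basisVec n j) - o 1 (basisVec n i) (basisVec n j) : ℝ) : ℂ) *
        Complex.I := by
    simp only [hM, Matrix.of_apply]
    push_cast
    ring
  rw [h1]
  refine (norm_add_le _ _).trans ?_
  rw [norm_mul, Complex.norm_I, mul_one, Complex.norm_real, Complex.norm_real]
  have h2 := hc 1 (basisVec n i) (Complex.I • basisVec n j)
  have h3 := hc 1 (basisVec n i) (basisVec n j)
  rw [norm_smul, Complex.norm_I, norm_basisVec, norm_basisVec] at h2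
  rw [norm_basisVec, norm_basisVec] at h3
  rw [Real.norm_eq_abs, Real.norm_eq_abs]
  linarith

theorem sM_close {o τ : Fin 3 → CV n → CV n → ℝ} {ε : ℝ}
    (hc : ∀ c u v, |τ c u v - o c u v| ≤ ε * ‖u‖ * ‖v‖) (i j : Fin (2 * n)) :
    ‖sM τ i j - sM o i j‖ ≤ 2 * ε := by
  have h1 : sM τ i j - sM o i j =
      ((τ 2 (basisVec n i) (basisVec n j) - o 2 (basisVec n i) (basisVec n j) : ℝ) : ℂ) +
      ((τ 0 (basisVec n i) (basisVec n j) - o 0 (basisVec n i) (basisVec n j) : ℝ) : ℂ) *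
        Complex.I := by
    simp only [sM, Matrix.of_apply]
    push_cast
    ring
  rw [h1]
  refine (norm_add_le _ _).trans ?_
  rw [norm_mul, Complex.norm_I, mul_one, Complex.norm_real, Complex.norm_real]
  have h2 := hc 2 (basisVec n i) (basisVec n j)
  have h3 := hc 0 (basisVec n i) (basisVec n j)
  rw [norm_basisVec, norm_basisVec] at h2 h3
  rw [Real.norm_eq_abs, Real.norm_eq_abs]
  linarith

/-- The estimate at the centre of a ball of radius one. -/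
theorem grad_le_zero (n : ℕ) {o : Fin 3 → CV n → CV n → ℝ} (ho : FlatTriple o) :
    ∃ C > 0, ∃ ε₀ > 0, ∀ ε, 0 < ε → ε ≤ ε₀ → ∀ τ : Fin 3 → CV n → CV n → CV n → ℝ,
      IsHKTripleOn (Metric.ball 0 1) τ →
      (∀ w ∈ Metric.ball (0 : CV n) 1, ∀ c u v, |τ c w u v - o c u v| ≤ ε * ‖u‖ * ‖v‖) →
      ∀ w : CV n, ‖w‖ ≤ 1 / (8 * ((2 * n : ℕ) + 1)) → ∀ c u v,
        |τ c w u v - τ c 0 u v| ≤ C * √ε * ‖u‖ * ‖v‖ * ‖w‖ := by
  obtain ⟨κ₀, hk₀, ho₀⟩ := exists_HKM ho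
  set h₀ := hM o with hh₀
  -- upper bound of the metric
  obtain ⟨K₀, hK₀, hK₀0⟩ : ∃ K₀ : ℝ, (∀ v : CV n, o 1 v (Complex.I • v) ≤ K₀ * ‖v‖ ^ 2) ∧
      0 ≤ K₀ := by
    refine ⟨∑ i, ∑ j, ‖h₀ i j‖, fun v => ?_, by positivity⟩
    have e1 : o 1 v (Complex.I • v) = (hf h₀ v v).re := by
      rw [congrFun (congrFun (congrFun ho₀ 1) v) (Complex.I • v), HKM.o1_eq, hf_smul_right]
      simp
    rw [e1, hf_eq, Complex.re_sum, Finset.sum_mul]
    refine Finset.sum_le_sum fun i _ => ?_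
    rw [Complex.re_sum, Finset.sum_mul]
    refine Finset.sum_le_sum fun j _ => ?_
    refine (Complex.re_le_norm _).trans ?_
    rw [norm_mul, norm_mul, Complex.norm_conj]
    have h1 := norm_le_pi_norm v i
    have h2 := norm_le_pi_norm v j
    calc ‖v i‖ * ‖h₀ i j‖ * ‖v j‖ ≤ ‖v‖ * ‖h₀ i j‖ * ‖v‖ := by gcongr
      _ = ‖h₀ i j‖ * ‖v‖ ^ 2 := by ring
  set a : ℝ := ‖h₀.det‖ / 2 with ha
  have ha0 : 0 < a := by
    have := norm_pos_iff.2 hk₀.det_ne
    positivity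
  obtain ⟨δ, hδ, hdet⟩ : ∃ δ > 0, ∀ M : Matrix (Fin (2 * n)) (Fin (2 * n)) ℂ,
      (∀ i j, ‖M i j - h₀ i j‖ ≤ δ) → a ≤ ‖M.det‖ := by
    let f₀ : Fin (2 * n) → Fin (2 * n) → ℂ := fun i j => h₀ i j
    have hcof : Continuous fun M : Fin (2 * n) → Fin (2 * n) → ℂ =>
        (Matrix.of M : Matrix (Fin (2 * n)) (Fin (2 * n)) ℂ) :=
      continuous_matrix fun i j => (continuous_apply j).comp (continuous_apply i)
    have hc : Continuous fun M : Fin (2 * n) → Fin (2 * n) → ℂ => ‖(Matrix.of M).det‖ :=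
      (Continuous.matrix_det hcof).norm
    have h1 : ∀ᶠ M in 𝓝 f₀, a < ‖(Matrix.of M).det‖ := by
      refine hc.continuousAt.eventually_const_lt ?_
      show a < ‖h₀.det‖
      have := norm_pos_iff.2 hk₀.det_ne
      rw [ha]; linarith
    obtain ⟨δ, hδ, hball⟩ := Metric.eventually_nhds_iff.1 h1
    refine ⟨δ / 2, by positivity, fun M hM => ?_⟩
    have h3 : dist (fun i j => M i j : Fin (2 * n) → Fin (2 * n) → ℂ) f₀ < δ := by
      refine lt_of_le_of_lt ?_ (half_lt_self hδ)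
      rw [dist_pi_le_iff (by positivity)]
      intro i
      rw [dist_pi_le_iff (by positivity)]
      intro j
      rw [dist_eq_norm]
      exact hM i j
    exact (hball h3).le
  set N : ℝ := ((2 * n : ℕ) : ℝ) with hN
  have hN0 : 0 ≤ N := by positivity
  set K : ℝ := K₀ + 1 with hK
  set Λ : ℝ := Lam n K a with hΛ
  have hΛ0 : 0 ≤ Λ := by
    rw [hΛ, Lam]
    positivity
  set T₀ : ℝ := (Matrix.trace h₀).re with hT₀
  set Tm : ℝ := |T₀| + 2 * N with hTm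
  have hTm0 : 0 ≤ Tm := by positivity
  set B : ℝ := 4 * Λ * Tm * √(Tm * (4 * N)) / (1 / 2) with hB
  have hB0 : 0 ≤ B := by positivity
  refine ⟨N * N * (2 * N * B + 6) + 1, by positivity, min 1 (δ / 2), by positivity, ?_⟩
  intro ε hε hε₀ τ hτ hclose w hw c u v
  have hε1 : ε ≤ 1 := hε₀.trans (min_le_left _ _)
  have hεδ : 2 * ε ≤ δ := by
    have := hε₀.trans (min_le_right _ _)
    linarith
  have hb : Bd 1 K a τ := by
    refine ⟨ha0, hτ, fun z hz x => ?_, fun z hz => ?_⟩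
    · have h1 := (abs_le.1 (hclose z hz 1 x (Complex.I • x))).2
      rw [norm_smul, Complex.norm_I, one_mul] at h1
      have h2 := hK₀ x
      have h3 : ε * ‖x‖ * ‖x‖ ≤ ‖x‖ ^ 2 := by
        have : ε * ‖x‖ ^ 2 ≤ 1 * ‖x‖ ^ 2 := mul_le_mul_of_nonneg_right hε1 (by positivity)
        nlinarith
      rw [hK]
      nlinarith
    · show a ≤ ‖(hM fun a => τ a z).det‖
      exact hdet _ fun i j => (hM_close (hclose z hz) i j).trans hεδ
  have hL := hb.loc
  have htr : ∀ z ∈ Metric.ball (0 : CV n) 1, |(Matrix.trace (hT τ z)).re - T₀| ≤ 2 * N * ε := by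
    intro z hz
    have h1 : (Matrix.trace (hT τ z)).re - T₀ = (Matrix.trace (hT τ z) - Matrix.trace h₀).re := by
      rw [Complex.sub_re]
    rw [h1]
    refine (Complex.abs_re_le_norm _).trans ?_
    rw [Matrix.trace, Matrix.trace, ← Finset.sum_sub_distrib]
    refine (norm_sum_le _ _).trans ?_
    calc ∑ i, ‖(hT τ z).diag i - h₀.diag i‖ ≤ ∑ _i : Fin (2 * n), 2 * ε :=
          Finset.sum_le_sum fun i _ => hM_close (hclose z hz) i i
      _ = 2 * N * ε := by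
          rw [Finset.sum_const, Finset.card_univ, Fintype.card_fin, nsmul_eq_mul]
          ring
  have hwd : ∀ z : CV n, nsq z ≤ (1 / 2 : ℝ) ^ 2 / 4 → ∀ p j l,
      ‖wd p (fun z => hT τ z j l) z‖ ≤ B * √ε := by
    intro z hz p j l
    have h1 := hL.wd_le_osc (ρ := 1 / 2) (Λ := Λ) (T₁ := T₀ - 2 * N * ε) (T := T₀ + 2 * N * ε)
      (by norm_num) (by norm_num) (fun z hz => hb.trace_inv hz)
      (fun z hz => by have := (abs_le.1 (htr z hz)).2; linarith)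
      (fun z hz => by have := (abs_le.1 (htr z hz)).1; linarith) hz p j l
    refine h1.trans ?_
    have h2 : T₀ + 2 * N * ε ≤ Tm := by
      have := le_abs_self T₀
      have : 2 * N * ε ≤ 2 * N * 1 := mul_le_mul_of_nonneg_left hε1 (by positivity)
      rw [hTm]; linarith
    have h2' : 0 ≤ T₀ + 2 * N * ε := by
      have h3 := (abs_le.1 (htr 0 (Metric.mem_ball_self one_pos))).2
      have h4 := hL.trace_pos (w := 0) (Metric.mem_ball_self one_pos)
      linarith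
    have h3 : T₀ + 2 * N * ε - (T₀ - 2 * N * ε) = 4 * N * ε := by ring
    rw [h3]
    have h5 : √((T₀ + 2 * N * ε) * (4 * N * ε)) ≤ √(Tm * (4 * N)) * √ε := by
      rw [← Real.sqrt_mul (by positivity)]
      apply Real.sqrt_le_sqrt
      have : (T₀ + 2 * N * ε) * (4 * N * ε) ≤ Tm * (4 * N * ε) :=
        mul_le_mul_of_nonneg_right h2 (by positivity)
      linarith
    calc 4 * Λ * (T₀ + 2 * N * ε) * √((T₀ + 2 * N * ε) * (4 * N * ε)) / (1 / 2)
        ≤ 4 * Λ * Tm * (√(Tm * (4 * N)) * √ε) / (1 / 2) := by gcongr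
      _ = B * √ε := by rw [hB]; ring
  have hball : w ∈ Metric.ball (0 : CV n) 1 := by
    rw [mem_ball_zero_iff]
    refine lt_of_le_of_lt hw ?_
    rw [div_lt_one (by positivity)]
    linarith
  have hnsq : nsq w ≤ (1 / 2 : ℝ) ^ 2 / 4 := by
    refine (nsq_le w).trans ?_
    have h1 : ‖w‖ ^ 2 ≤ (1 / (8 * (N + 1))) ^ 2 := pow_le_pow_left₀ (norm_nonneg _) hw 2
    calc ((2 * n : ℕ) : ℝ) * ‖w‖ ^ 2 ≤ N * (1 / (8 * (N + 1))) ^ 2 :=
          mul_le_mul_of_nonneg_left h1 hN0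
      _ ≤ (1 / 2 : ℝ) ^ 2 / 4 := by
          rw [div_pow, mul_div_assoc', div_le_div_iff₀ (by positivity) (by positivity)]
          nlinarith
  have hh : ∀ i j, ‖hT τ w i j - hT τ 0 i j‖ ≤ (2 * N * B + 6) * √ε * ‖w‖ := by
    intro i j
    have h1 := hL.h_sub_le_of (ρ := 1 / 2) (by norm_num) (by norm_num) hwd hnsq i j
    refine h1.trans ?_
    have h2 : 0 ≤ 6 * √ε * ‖w‖ := by positivity
    calc 2 * ((2 * n : ℕ) : ℝ) * (B * √ε) * ‖w‖ = 2 * N * B * √ε * ‖w‖ := by ring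
      _ ≤ (2 * N * B + 6) * √ε * ‖w‖ := by linarith
  have hs : ∀ i j, ‖sT τ w i j - sT τ 0 i j‖ ≤ (2 * N * B + 6) * √ε * ‖w‖ := by
    intro i j
    have h1 := hol_sub_le' (f := fun z => sT τ z i j) (r := 1) (M := 2 * ε) (by positivity)
      (sM o i j)
      (fun z hz => differentiableAt_complex
        ((hL.sm_s hz i j).eventually_diff).self_of_nhds (fun q => hL.hol z hz q i j))
      (fun z hz => sM_close (hclose z hz) i j) hball
    refine h1.trans ?_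
    have h2 : ε ≤ √ε := by
      nth_rewrite 1 [← Real.mul_self_sqrt hε.le]
      have h3 : √ε ≤ 1 := Real.sqrt_le_one.2 hε1
      have h4 := Real.sqrt_nonneg ε
      nlinarith
    have h3 : 3 * (2 * ε) / 1 * ‖w‖ ≤ 6 * √ε * ‖w‖ := by
      apply mul_le_mul_of_nonneg_right _ (norm_nonneg _)
      linarith
    refine h3.trans ?_
    have h4 : 0 ≤ 2 * N * B * √ε * ‖w‖ := by positivity
    linarith
  obtain ⟨κw, hkw, how, hsw⟩ := triple_rel hτ hball
  obtain ⟨κz, hkz, hoz, hsz⟩ := triple_rel hτ (Metric.mem_ball_self one_pos)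
  rw [how, hoz]
  have key := oOf_sub_le (h := hT τ w) (κ := κw) (h' := hT τ 0) (κ' := κz)
    (δ := (2 * N * B + 6) * √ε * ‖w‖) (by positivity) hh
    (fun i j => by rw [← hsw, ← hsz]; exact hs i j) c u v
  refine key.trans ?_
  have h1 : 0 ≤ √ε * ‖u‖ * ‖v‖ * ‖w‖ := by positivity
  calc N * N * ((2 * N * B + 6) * √ε * ‖w‖) * ‖u‖ * ‖v‖
      = N * N * (2 * N * B + 6) * (√ε * ‖u‖ * ‖v‖ * ‖w‖) := by ring
    _ ≤ (N * N * (2 * N * B + 6) + 1) * (√ε * ‖u‖ * ‖v‖ * ‖w‖) := by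
        apply mul_le_mul_of_nonneg_right _ h1
        linarith
    _ = _ := by ring

/-- A hyperkähler triple on a ball of radius one which is `ε`-close to a constant triple has
derivatives of size `O(√ε)` at the centre. -/
theorem grad_le (n : ℕ) {o : Fin 3 → CV n → CV n → ℝ} (ho : FlatTriple o) :
    ∃ C > 0, ∃ ε₀ > 0, ∀ ε, 0 < ε → ε ≤ ε₀ → ∀ (w₀ : CV n)
      (τ : Fin 3 → CV n → CV n → CV n → ℝ),
      IsHKTripleOn (Metric.ball w₀ 1) τ →
      (∀ w ∈ Metric.ball w₀ 1, ∀ c u v, |τ c w u v - o c u v| ≤ ε * ‖u‖ * ‖v‖) →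
      ∀ c u v, ‖fderiv ℝ (fun z => τ c z u v) w₀‖ ≤ C * √ε * ‖u‖ * ‖v‖ := by
  obtain ⟨C, hC, ε₀, hε₀, H⟩ := grad_le_zero n ho
  refine ⟨C, hC, ε₀, hε₀, ?_⟩
  intro ε hε hεε w₀ τ hτ hclose c u v
  have hmem : ∀ z ∈ Metric.ball (0 : CV n) 1, w₀ + z ∈ Metric.ball w₀ 1 := by
    intro z hz
    rw [Metric.mem_ball, dist_eq_norm, add_sub_cancel_left]
    exact mem_ball_zero_iff.1 hz
  have hτ' : IsHKTripleOn (Metric.ball 0 1) (fun c z => τ c (w₀ + z)) := by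
    refine ⟨fun z hz => hτ.triple _ (hmem z hz), fun a u v => ?_, fun a z hz u v x => ?_⟩
    · exact (hτ.smooth a u v).comp (contDiffOn_const.add contDiffOn_id) (fun z hz => hmem z hz)
    · have h1 : ∀ u v : CV n, fderiv ℝ (fun y => τ a (w₀ + y) u v) z =
          fderiv ℝ (fun y => τ a y u v) (w₀ + z) := fun u v =>
        fderiv_comp_add_left (f := fun y => τ a y u v) w₀
      rw [h1, h1, h1]
      exact hτ.closed a _ (hmem z hz) u v x
  have h1 := H ε hε hεε (fun c z => τ c (w₀ + z)) hτ'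
    (fun z hz => hclose _ (hmem z hz))
  have hd : DifferentiableAt ℝ (fun z => τ c z u v) w₀ :=
    diff_at Metric.isOpen_ball hτ (Metric.mem_ball_self one_pos) c u v
  refine hd.hasFDerivAt.le_of_lip' (by positivity) ?_
  have hR : (0 : ℝ) < 1 / (8 * ((2 * n : ℕ) + 1)) := by positivity
  filter_upwards [Metric.ball_mem_nhds w₀ hR] with z hz
  rw [Metric.mem_ball, dist_eq_norm] at hz
  have h2 := h1 (z - w₀) hz.le c u v
  simp only [add_sub_cancel, add_zero] at h2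
  rw [Real.norm_eq_abs]
  exact h2

end Pool.Agent.LV31
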