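import Pool.Agent.LV31.Grad

/-!
# LV31/Est : the gradient estimate of Calabi, by the maximum principle
-/

set_option autoImplicit false
set_option linter.unusedSectionVars false

open Matrix Finset Filter Topology

noncomputable section

namespace Pool.Agent.LV31

variable {m : ℕ}

/-- The cut-off function `1 - c |w|²`. -/
def phi (c : ℝ) (w : Fin m → ℂ) : ℂ := 1 - c * qf w

theorem phi_eq (c : ℝ) (w : Fin m → ℂ) : phi c w = ((1 - c * nsq w : ℝ) : ℂ) := by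
  rw [phi, qf_eq]; push_cast; ring

theorem sm_phi (c : ℝ) (p : Fin m → ℂ) : Sm (phi c) p :=
  contDiffAt_const.sub (contDiffAt_const.mul (sm_qf p))

theorem phi_mk (c : ℝ) (p : Fin m → ℂ) : SG.mk (phi c) (sm_phi c p) = SG.xg p c := by
  rw [SG.xg, SG.qg_mk (sm_qf p)]
  rfl

namespace Loc

variable {U : Set (Fin m → ℂ)} {h s : (Fin m → ℂ) → Matrix (Fin m) (Fin m) ℂ}
variable (hL : Loc U h s)

include hL

theorem S_real {w : Fin m → ℂ} (hw : w ∈ U) : Sf h w = ((Sf h w).re : ℂ) ∧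
    0 ≤ (Sf h w).re := by
  obtain ⟨F, G, P⟩ := hL.pt hw
  have h1 := P.ev_S
  rw [hL.S_eq hw, SG.ev_mk] at h1
  rw [h1]
  exact ⟨by simp, by simpa using ns_nonneg _⟩

theorem trace_pos {w : Fin m → ℂ} (hw : w ∈ U) : 0 ≤ (Matrix.trace (h w)).re := by
  obtain ⟨F, G, P⟩ := hL.pt hw
  rw [Matrix.trace, Complex.re_sum]
  refine Finset.sum_nonneg fun i _ => ?_
  have h1 := P.frame.sum_G i
  have h2 : (0 : ℝ) ≤ ∑ j, ‖G j i‖ ^ 2 := Finset.sum_nonneg fun _ _ => by positivity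
  rw [h1] at h2
  exact h2

theorem diag_nonneg {w : Fin m → ℂ} (hw : w ∈ U) (i : Fin m) : 0 ≤ (h w i i).re := by
  obtain ⟨F, G, P⟩ := hL.pt hw
  have h1 := P.frame.sum_G i
  have h2 : (0 : ℝ) ≤ ∑ j, ‖G j i‖ ^ 2 := Finset.sum_nonneg fun _ _ => by positivity
  rw [h1] at h2
  exact h2

theorem trace_inv_nonneg {w : Fin m → ℂ} (hw : w ∈ U) : 0 ≤ (Matrix.trace (h w)⁻¹).re := by
  obtain ⟨F, G, P⟩ := hL.pt hw
  have h1 := P.frame.sum_F
  have h2 : (0 : ℝ) ≤ ∑ c, ∑ r, ‖F r c‖ ^ 2 :=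
    Finset.sum_nonneg fun _ _ => Finset.sum_nonneg fun _ _ => by positivity
  rw [h1] at h2
  exact h2

theorem trace_inv_pos [NeZero m] {w : Fin m → ℂ} (hw : w ∈ U) :
    0 < (Matrix.trace (h w)⁻¹).re := by
  obtain ⟨F, G, P⟩ := hL.pt hw
  have h1 : (Matrix.trace (h w)⁻¹).re = ∑ c, ∑ r, ‖F r c‖ ^ 2 := P.frame.sum_F.symm
  rw [h1]
  have h0 : ∃ c r, F r c ≠ 0 := by
    by_contra hcon
    push Not at hcon
    have hF : F = 0 := by
      ext r c; exact hcon c r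
    have h2 := P.frame.FG
    rw [hF, zero_mul] at h2
    have h3 := congrFun (congrFun h2 0) 0
    simp at h3
  obtain ⟨c, r, hcr⟩ := h0
  refine Finset.sum_pos' (fun _ _ => Finset.sum_nonneg fun _ _ => by positivity)
    ⟨c, Finset.mem_univ _, ?_⟩
  refine Finset.sum_pos' (fun _ _ => by positivity) ⟨r, Finset.mem_univ _, ?_⟩
  have := norm_pos_iff.2 hcr
  positivity

/-- The test function. -/
def test (_ : Loc U h s) (c A' ε : ℝ) (w : Fin m → ℂ) : ℂ :=
  phi c w * phi c w * Sf h w + A' * Matrix.trace (h w) + ε * qf w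

theorem sm_test {p : Fin m → ℂ} (hp : p ∈ U) (c A' ε : ℝ) : Sm (hL.test c A' ε) p :=
  ((((sm_phi c p).mul (sm_phi c p)).mul (hL.sm_S hp)).add
    (contDiffAt_const.mul (SG.Sm_trace (hL.sm_h hp)))).add
    (contDiffAt_const.mul (sm_qf p))

theorem test_mk {p : Fin m → ℂ} (hp : p ∈ U) (c A' ε : ℝ) :
    SG.mk (hL.test c A' ε) (hL.sm_test hp c A' ε) =
      SG.xg p c * SG.xg p c * (SG.wirt p).B (hL.gh hp) (hL.gH hp)
        ((SG.wirt p).Gam (hL.gh hp) (hL.gH hp)) ((SG.wirt p).Gam (hL.gh hp) (hL.gH hp)) +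
      SG.con p A' * Matrix.trace (hL.gh hp) + SG.con p ε * SG.qg p := by
  rw [hL.S_eq hp, ← phi_mk, SG.qg_mk (sm_qf p), gh, SG.MK_trace]
  rfl

theorem test_re {w : Fin m → ℂ} (hw : w ∈ U) (c A' ε : ℝ) :
    (hL.test c A' ε w).re = (1 - c * nsq w) ^ 2 * (Sf h w).re +
      A' * (Matrix.trace (h w)).re + ε * nsq w := by
  rw [test, phi_eq, qf_eq, (hL.S_real hw).1]
  rw [Complex.add_re, Complex.add_re, Complex.re_ofReal_mul, Complex.re_ofReal_mul,
    Complex.ofReal_re, ← Complex.ofReal_mul, Complex.re_ofReal_mul, Complex.ofReal_re]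
  ring

/-- The test function is strictly subharmonic. -/
theorem lap_test_pos [NeZero m] {p : Fin m → ℂ} (hp : p ∈ U) {ρ Λ ε : ℝ} (hρ : 0 < ρ)
    (hε : 0 < ε) (hΛ : (Matrix.trace (h p)⁻¹).re ≤ Λ) (hn : nsq p ≤ ρ ^ 2) :
    0 < (SG.ev p ((SG.wirt p).lap (hL.gH hp)
      (SG.mk (hL.test (1 / ρ ^ 2) (8 * Λ ^ 2 / ρ ^ 2) ε) (hL.sm_test hp _ _ _)))).re := by
  obtain ⟨F, G, P⟩ := hL.pt hp
  set c : ℝ := 1 / ρ ^ 2 with hc
  have hρ2 : 0 < ρ ^ 2 := by positivity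
  have hc0 : 0 < c := by positivity
  have hcn : c * nsq p ≤ 1 := by
    rw [hc, one_div, inv_mul_le_iff₀ hρ2, mul_one]
    exact hn
  have hcn0 : 0 ≤ c * nsq p := mul_nonneg hc0.le (nsq_nonneg p)
  have hΛ0 : 0 < Λ := lt_of_lt_of_le (hL.trace_inv_pos hp) hΛ
  have htr : (Matrix.trace ((hL.gH hp).map (SG.ev p))).re = (Matrix.trace (h p)⁻¹).re := rfl
  have hevtr : SG.ev p (Matrix.trace (hL.gH hp)) = Matrix.trace (h p)⁻¹ := by
    rw [Pt.ev_trace]; rfl
  have hns0 := ns_nonneg (cmp (SG.ev p) F G ((SG.wirt p).Gam (hL.gh hp) (hL.gH hp)))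
  rw [hL.test_mk hp, SG.lap_add, SG.lap_add, SG.lap_con_mul, SG.lap_con_mul, SG.lap_qg, map_add,
    map_add, map_mul, map_mul, SG.ev_con, SG.ev_con, hevtr, Complex.add_re, Complex.add_re,
    Complex.re_ofReal_mul, Complex.re_ofReal_mul]
  have hκ : (0 : ℝ) ≤ c * Λ := by positivity
  have h1 := P.cut (x := SG.xg p c) (φ := 1 - c * nsq p) (κ := c * Λ) (SG.conj_xg c)
    (SG.ev_xg c) (by linarith) (by linarith) hκ ?_ ?_
  · have h2 := P.ns_le
    rw [htr] at h2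
    have h3 := hL.trace_inv_pos hp
    set N := ns (cmp (SG.ev p) F G ((SG.wirt p).Gam (hL.gh hp) (hL.gH hp)))
    set L := (SG.ev p ((SG.wirt p).lap (hL.gH hp) (Matrix.trace (hL.gh hp)))).re
    set T := (Matrix.trace (h p)⁻¹).re
    have h4 : N ≤ Λ * L := by
      have hLn : 0 ≤ L := by
        by_contra hneg
        rw [not_le] at hneg
        have : T * L < 0 := mul_neg_of_pos_of_neg h3 hneg
        linarith
      exact h2.trans (mul_le_mul_of_nonneg_right hΛ hLn)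
    have h5 : 8 * Λ ^ 2 / ρ ^ 2 * L = 8 * (c * Λ) * (Λ * L) := by
      rw [hc]; field_simp
    have h6 : 8 * (c * Λ) * N ≤ 8 * (c * Λ) * (Λ * L) :=
      mul_le_mul_of_nonneg_left h4 (by positivity)
    have h7 : 0 < ε * T := mul_pos hε h3
    rw [h5]
    linarith
  · -- the gradient of the cut-off function
    have h2 : ∀ d, ‖∑ r, F r d * SG.ev p ((SG.wirt p).d r (SG.xg p c))‖ ^ 2 ≤
        c ^ 2 * (∑ r, ‖F r d‖ ^ 2) * nsq p := by
      intro d
      have h3 : ∑ r, F r d * SG.ev p ((SG.wirt p).d r (SG.xg p c)) =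
          -(c * ∑ r, F r d * starRingEnd ℂ (p r)) := by
        rw [Finset.mul_sum, ← Finset.sum_neg_distrib]
        refine Finset.sum_congr rfl fun r _ => ?_
        rw [SG.ev_d_xg]; ring
      rw [h3, norm_neg, norm_mul, mul_pow, Complex.norm_real, Real.norm_eq_abs, sq_abs, mul_assoc]
      refine mul_le_mul_of_nonneg_left ?_ (by positivity)
      calc ‖∑ r, F r d * starRingEnd ℂ (p r)‖ ^ 2 ≤ (∑ r, ‖F r d‖ * ‖p r‖) ^ 2 := by
            apply pow_le_pow_left₀ (norm_nonneg _)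
            refine (norm_sum_le _ _).trans (le_of_eq ?_)
            exact Finset.sum_congr rfl fun r _ => by rw [norm_mul, Complex.norm_conj]
        _ ≤ _ := Finset.sum_mul_sq_le_sq_mul_sq _ _ _
    calc ∑ d, ‖∑ r, F r d * SG.ev p ((SG.wirt p).d r (SG.xg p c))‖ ^ 2
        ≤ ∑ d, c ^ 2 * (∑ r, ‖F r d‖ ^ 2) * nsq p := Finset.sum_le_sum fun d _ => h2 d
      _ = c * (c * nsq p) * (Matrix.trace (h p)⁻¹).re := by
          rw [← Finset.sum_mul, ← Finset.mul_sum, P.frame.sum_F]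
          show c ^ 2 * (Matrix.trace (h p)⁻¹).re * nsq p = _
          ring
      _ ≤ c * Λ := by
          have h8 : c * (c * nsq p) ≤ c * 1 := mul_le_mul_of_nonneg_left hcn hc0.le
          have h9 := hL.trace_inv_nonneg hp
          calc c * (c * nsq p) * (Matrix.trace (h p)⁻¹).re
              ≤ c * 1 * (Matrix.trace (h p)⁻¹).re := mul_le_mul_of_nonneg_right h8 h9
            _ ≤ c * Λ := by rw [mul_one]; exact mul_le_mul_of_nonneg_left hΛ hc0.le
  · rw [SG.lap_xg, map_neg, map_mul, SG.ev_con, hevtr, Complex.neg_re, Complex.re_ofReal_mul]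
    exact neg_le_neg (mul_le_mul_of_nonneg_left hΛ hc0.le)

end Loc

end Pool.Agent.LV31
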