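import Pool.Agent.LV31.Alg

/-!
# LV31/Frame : unitary frames at a point
-/

set_option autoImplicit false
set_option linter.unusedSectionVars false

open Matrix Finset

noncomputable section

namespace Pool.Agent.LV31

variable {ι : Type} [Fintype ι] [DecidableEq ι]

/-- `G` is a unitary coframe for the hermitian matrix `h`, `H = h⁻¹`, `F = G⁻¹`. -/
structure Frame (h H F G : Matrix ι ι ℂ) : Prop where
  h_eq : h = Gᴴ * G
  H_eq : H = F * Fᴴ
  GF : G * F = 1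
  FG : F * G = 1

open scoped ComplexOrder MatrixOrder in
theorem Frame.exists_of_posDef {h H : Matrix ι ι ℂ} (hh : h.PosDef) (hH : h * H = 1) :
    ∃ F G, Frame h H F G := by
  obtain ⟨G, hG⟩ := CStarAlgebra.nonneg_iff_eq_star_mul_self.mp hh.posSemidef.nonneg
  rw [Matrix.star_eq_conjTranspose] at hG
  have hdet : IsUnit G := by
    have h1 : IsUnit h := hh.isUnit
    rw [Matrix.isUnit_iff_isUnit_det] at h1 ⊢
    rw [hG, Matrix.det_mul] at h1
    exact isUnit_of_mul_isUnit_right h1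
  have hdet' : IsUnit G.det := (Matrix.isUnit_iff_isUnit_det _).1 hdet
  have hGF : G * G⁻¹ = 1 := Matrix.mul_nonsing_inv _ hdet'
  have hFG : G⁻¹ * G = 1 := Matrix.nonsing_inv_mul _ hdet'
  refine ⟨G⁻¹, G, hG, ?_, hGF, hFG⟩
  have h2 : (G⁻¹ * G⁻¹ᴴ) * h = 1 := by
    rw [hG]
    have h3 : G⁻¹ᴴ * Gᴴ = 1 := by rw [← Matrix.conjTranspose_mul, hGF, conjTranspose_one]
    calc G⁻¹ * G⁻¹ᴴ * (Gᴴ * G) = G⁻¹ * (G⁻¹ᴴ * Gᴴ) * G := by simp only [mul_assoc]
      _ = 1 := by rw [h3, mul_one, hFG]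
  calc H = (G⁻¹ * G⁻¹ᴴ) * h * H := by rw [h2, one_mul]
    _ = G⁻¹ * G⁻¹ᴴ := by rw [mul_assoc, hH, mul_one]

/-- The components of a family in the frame. -/
def vec (F G : Matrix ι ι ℂ) (X : ι → Matrix ι ι ℂ) (t : ι × ι × ι) : ℂ :=
  (∑ p, F p t.1 • (G * X p * F)) t.2.1 t.2.2

/-- The hermitian product. -/
def ip {α : Type} [Fintype α] (u v : α → ℂ) : ℂ := ∑ t, u t * starRingEnd ℂ (v t)

/-- The square of the norm. -/
def ns {α : Type} [Fintype α] (u : α → ℂ) : ℝ := ∑ t, ‖u t‖ ^ 2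

section ip

variable {α : Type} [Fintype α]

theorem ip_self (u : α → ℂ) : ip u u = (ns u : ℝ) := by
  simp only [ip, ns, Complex.mul_conj', Complex.ofReal_sum, Complex.ofReal_pow]

theorem ns_nonneg (u : α → ℂ) : 0 ≤ ns u := Finset.sum_nonneg fun _ _ => by positivity

theorem ip_conj (u v : α → ℂ) : starRingEnd ℂ (ip u v) = ip v u := by
  simp only [ip, map_sum, map_mul, Complex.conj_conj]
  exact Finset.sum_congr rfl fun _ _ => mul_comm _ _

theorem ip_le (u v : α → ℂ) : ‖ip u v‖ ^ 2 ≤ ns u * ns v := by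
  have h1 : ‖ip u v‖ ≤ ∑ t, ‖u t‖ * ‖v t‖ := by
    refine (norm_sum_le _ _).trans (le_of_eq ?_)
    exact Finset.sum_congr rfl fun t _ => by rw [norm_mul, Complex.norm_conj]
  calc ‖ip u v‖ ^ 2 ≤ (∑ t, ‖u t‖ * ‖v t‖) ^ 2 := by
        apply pow_le_pow_left₀ (norm_nonneg _) h1
    _ ≤ ns u * ns v := Finset.sum_mul_sq_le_sq_mul_sq _ _ _

theorem ip_sum_left {β : Type} (s : Finset β) (a : β → ℂ) (u : β → α → ℂ) (v : α → ℂ) :
    ip (fun t => ∑ i ∈ s, a i * u i t) v = ∑ i ∈ s, a i * ip (u i) v := by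
  simp only [ip, Finset.sum_mul, Finset.mul_sum]
  rw [Finset.sum_comm]
  exact Finset.sum_congr rfl fun i _ => Finset.sum_congr rfl fun t _ => by ring

theorem ip_sum_right {β : Type} (s : Finset β) (a : β → ℂ) (u : α → ℂ) (v : β → α → ℂ) :
    ip u (fun t => ∑ i ∈ s, a i * v i t) = ∑ i ∈ s, starRingEnd ℂ (a i) * ip u (v i) := by
  rw [← ip_conj, ip_sum_left, map_sum]
  exact Finset.sum_congr rfl fun i _ => by rw [map_mul, ip_conj]

end ip

theorem trace_mul_conjTranspose (X Y : Matrix ι ι ℂ) :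
    Matrix.trace (X * Yᴴ) = ∑ a, ∑ b, X a b * starRingEnd ℂ (Y a b) := by
  simp only [Matrix.trace, Matrix.diag_apply, Matrix.mul_apply, Matrix.conjTranspose_apply]
  rfl

theorem ip_vec {h H F G : Matrix ι ι ℂ} (hf : Frame h H F G) (X Y : ι → Matrix ι ι ℂ) :
    ∑ p, ∑ q, H p q * Matrix.trace (X p * H * (Y q)ᴴ * h) = ip (vec F G X) (vec F G Y) := by
  have h1 : ∀ p q, Matrix.trace (X p * H * (Y q)ᴴ * h) =
      Matrix.trace ((G * X p * F) * (G * Y q * F)ᴴ) := by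
    intro p q
    rw [hf.h_eq, hf.H_eq, ← mul_assoc, Matrix.trace_mul_comm]
    simp only [Matrix.conjTranspose_mul, mul_assoc]
  have h2 : ip (vec F G X) (vec F G Y) =
      ∑ k, Matrix.trace ((∑ p, F p k • (G * X p * F)) * (∑ q, F q k • (G * Y q * F))ᴴ) := by
    simp only [trace_mul_conjTranspose, ip, vec, Fintype.sum_prod_type]
  rw [h2]
  have h3 : ∀ k, Matrix.trace ((∑ p, F p k • (G * X p * F)) *
      (∑ q, F q k • (G * Y q * F))ᴴ) =
      ∑ p, ∑ q, F p k * starRingEnd ℂ (F q k) *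
        Matrix.trace ((G * X p * F) * (G * Y q * F)ᴴ) := by
    intro k
    rw [Matrix.conjTranspose_sum, Finset.sum_mul, Matrix.trace_sum]
    refine Finset.sum_congr rfl fun p _ => ?_
    rw [Finset.mul_sum, Matrix.trace_sum]
    refine Finset.sum_congr rfl fun q _ => ?_
    rw [Matrix.conjTranspose_smul, Matrix.smul_mul, Matrix.mul_smul, Matrix.trace_smul,
      Matrix.trace_smul]
    simp only [smul_eq_mul, mul_assoc]
    rfl
  simp only [h3, h1]
  symm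
  rw [Finset.sum_comm]
  refine Finset.sum_congr rfl fun p _ => ?_
  rw [Finset.sum_comm]
  refine Finset.sum_congr rfl fun q _ => ?_
  rw [hf.H_eq, Matrix.mul_apply, Finset.sum_mul]
  exact Finset.sum_congr rfl fun k _ => by rw [Matrix.conjTranspose_apply]; rfl

theorem mul_conjTranspose_apply_self (X : Matrix ι ι ℂ) (i : ι) :
    ((X * Xᴴ) i i).re = ∑ j, ‖X i j‖ ^ 2 := by
  rw [Matrix.mul_apply, Complex.re_sum]
  refine Finset.sum_congr rfl fun j _ => ?_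
  rw [Matrix.conjTranspose_apply, show star (X i j) = starRingEnd ℂ (X i j) from rfl,
    Complex.mul_conj', ← Complex.ofReal_pow, Complex.ofReal_re]

theorem conjTranspose_mul_apply_self (X : Matrix ι ι ℂ) (i : ι) :
    ((Xᴴ * X) i i).re = ∑ j, ‖X j i‖ ^ 2 := by
  rw [Matrix.mul_apply, Complex.re_sum]
  refine Finset.sum_congr rfl fun j _ => ?_
  rw [Matrix.conjTranspose_apply, show star (X j i) = starRingEnd ℂ (X j i) from rfl, mul_comm,
    Complex.mul_conj', ← Complex.ofReal_pow, Complex.ofReal_re]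

/-- `Σ |F_{ij}|²` is the trace of `H`. -/
theorem Frame.sum_F {h H F G : Matrix ι ι ℂ} (hf : Frame h H F G) :
    ∑ c, ∑ r, ‖F r c‖ ^ 2 = (Matrix.trace H).re := by
  rw [hf.H_eq, Matrix.trace, Complex.re_sum, Finset.sum_comm]
  exact Finset.sum_congr rfl fun r _ => by
    rw [Matrix.diag_apply, mul_conjTranspose_apply_self]

theorem Frame.sum_G {h H F G : Matrix ι ι ℂ} (hf : Frame h H F G) (i : ι) :
    ∑ j, ‖G j i‖ ^ 2 = (h i i).re := by
  rw [hf.h_eq, conjTranspose_mul_apply_self]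

/-- The trace of `H = F F^*` bounds the norm of `X F`. -/
theorem Frame.mul_F_le {h H F G : Matrix ι ι ℂ} (hf : Frame h H F G) (X : Matrix ι ι ℂ) :
    ∑ a, ∑ b, ‖(X * F) a b‖ ^ 2 ≤ (Matrix.trace H).re * ∑ a, ∑ c, ‖X a c‖ ^ 2 := by
  have h1 : ∀ a b, ‖(X * F) a b‖ ^ 2 ≤ (∑ c, ‖X a c‖ ^ 2) * ∑ c, ‖F c b‖ ^ 2 := by
    intro a b
    rw [Matrix.mul_apply]
    calc ‖∑ c, X a c * F c b‖ ^ 2 ≤ (∑ c, ‖X a c‖ * ‖F c b‖) ^ 2 := by
          apply pow_le_pow_left₀ (norm_nonneg _)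
          refine (norm_sum_le _ _).trans (le_of_eq ?_)
          exact Finset.sum_congr rfl fun c _ => norm_mul _ _
      _ ≤ _ := Finset.sum_mul_sq_le_sq_mul_sq _ _ _
  calc ∑ a, ∑ b, ‖(X * F) a b‖ ^ 2
      ≤ ∑ a, ∑ b, (∑ c, ‖X a c‖ ^ 2) * ∑ c, ‖F c b‖ ^ 2 :=
        Finset.sum_le_sum fun a _ => Finset.sum_le_sum fun b _ => h1 a b
    _ = (Matrix.trace H).re * ∑ a, ∑ c, ‖X a c‖ ^ 2 := by
        simp only [← Finset.mul_sum]
        rw [hf.sum_F, ← Finset.sum_mul, mul_comm]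

end Pool.Agent.LV31
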