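import Pool.Agent.LV31.Alg

/-!
# LV31/Germ : germs of smooth functions

The ring `SG p` of germs at `p` of smooth complex valued functions on a real normed space, the
directional derivatives and the conjugation.
-/

set_option autoImplicit false

open Filter Topology

noncomputable section

namespace Pool.Agent.LV31

variable {V : Type} [NormedAddCommGroup V] [NormedSpace ℝ V]

/-- Smoothness at a point. -/
abbrev Sm (f : V → ℂ) (p : V) : Prop := ContDiffAt ℝ (⊤ : ℕ∞) f p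

theorem Sm.fderiv {f : V → ℂ} {p : V} (hf : Sm f p) (v : V) :
    Sm (fun w => _root_.fderiv ℝ f w v) p := by
  have h1 : ContDiffAt ℝ (⊤ : ℕ∞) (_root_.fderiv ℝ f) p :=
    hf.fderiv_right (m := ((⊤ : ℕ∞) : WithTop ℕ∞)) (by exact_mod_cast le_rfl)
  exact h1.clm_apply contDiffAt_const

theorem Sm.eventually {f : V → ℂ} {p : V} (hf : Sm f p) (n : ℕ) :
    ∀ᶠ w in 𝓝 p, ContDiffAt ℝ n f w := by
  have h1 : ContDiffAt ℝ (n : WithTop ℕ∞) f p := hf.of_le (by exact_mod_cast le_top)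
  exact h1.eventually (by simp)

theorem Sm.eventually_diff {f : V → ℂ} {p : V} (hf : Sm f p) :
    ∀ᶠ w in 𝓝 p, DifferentiableAt ℝ f w :=
  (hf.eventually 1).mono fun w hw => hw.differentiableAt (by simp)

/-- The ring of germs of smooth functions at `p`. -/
def SG (p : V) : Subring (Filter.Germ (𝓝 p) ℂ) where
  carrier := {x | ∃ f : V → ℂ, Sm f p ∧ (f : Filter.Germ (𝓝 p) ℂ) = x}
  mul_mem' := by
    rintro _ _ ⟨f, hf, rfl⟩ ⟨g, hg, rfl⟩
    exact ⟨f * g, hf.mul hg, rfl⟩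
  add_mem' := by
    rintro _ _ ⟨f, hf, rfl⟩ ⟨g, hg, rfl⟩
    exact ⟨f + g, hf.add hg, rfl⟩
  neg_mem' := by
    rintro _ ⟨f, hf, rfl⟩
    exact ⟨-f, hf.neg, rfl⟩
  one_mem' := ⟨fun _ => 1, contDiffAt_const, rfl⟩
  zero_mem' := ⟨fun _ => 0, contDiffAt_const, rfl⟩

namespace SG

variable {p : V}

/-- The germ of a function. -/
def mk (f : V → ℂ) (hf : Sm f p) : SG p := ⟨(f : Filter.Germ (𝓝 p) ℂ), f, hf, rfl⟩

theorem mk_eq {f g : V → ℂ} (hf : Sm f p) (hg : Sm g p) :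
    mk f hf = mk g hg ↔ f =ᶠ[𝓝 p] g :=
  ⟨fun h => Filter.Germ.coe_eq.1 (congrArg Subtype.val h),
    fun h => Subtype.ext (Filter.Germ.coe_eq.2 h)⟩

theorem rep (x : SG p) : ∃ (f : V → ℂ) (hf : Sm f p), mk f hf = x := by
  obtain ⟨x, f, hf, rfl⟩ := x
  exact ⟨f, hf, rfl⟩

theorem mk_add {f g : V → ℂ} (hf : Sm f p) (hg : Sm g p) :
    mk f hf + mk g hg = mk (fun w => f w + g w) (hf.add hg) := rfl

theorem mk_mul {f g : V → ℂ} (hf : Sm f p) (hg : Sm g p) :
    mk f hf * mk g hg = mk (fun w => f w * g w) (hf.mul hg) := rfl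

theorem mk_neg {f : V → ℂ} (hf : Sm f p) : -mk f hf = mk (fun w => -f w) hf.neg := rfl

theorem mk_sub {f g : V → ℂ} (hf : Sm f p) (hg : Sm g p) :
    mk f hf - mk g hg = mk (fun w => f w - g w) (hf.sub hg) := rfl

/-- The derivative of a germ in the direction `v`. -/
def gD (p v : V) : Filter.Germ (𝓝 p) ℂ → Filter.Germ (𝓝 p) ℂ :=
  Filter.Germ.map' (fun f w => fderiv ℝ f w v) (by
    intro f g h
    exact (Filter.EventuallyEq.fderiv (𝕜 := ℝ) h).mono fun w hw => by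
      show fderiv ℝ f w v = fderiv ℝ g w v
      rw [hw])

/-- The derivative in the direction `v`. -/
def D (v : V) (x : SG p) : SG p := ⟨gD p v x.1, by
  obtain ⟨x, f, hf, rfl⟩ := x
  exact ⟨fun w => fderiv ℝ f w v, hf.fderiv v, rfl⟩⟩

theorem D_mk (v : V) {f : V → ℂ} (hf : Sm f p) :
    D v (mk f hf) = mk (fun w => fderiv ℝ f w v) (hf.fderiv v) := rfl

/-- Constant germs. -/
def con (p : V) : ℂ →+* SG p where
  toFun c := mk (fun _ => c) contDiffAt_const
  map_one' := rfl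
  map_mul' _ _ := rfl
  map_zero' := rfl
  map_add' _ _ := rfl

theorem D_con (v : V) (c : ℂ) : D v (con p c) = 0 := by
  have : D v (con p c) = mk (fun w => fderiv ℝ (fun _ : V => c) w v)
    (Sm.fderiv (f := fun _ => c) contDiffAt_const v) := rfl
  rw [this]
  have h2 : (0 : SG p) = mk (fun _ => 0) contDiffAt_const := rfl
  rw [h2, mk_eq]
  exact Eventually.of_forall fun w => by simp

theorem D_add (v : V) (x y : SG p) : D v (x + y) = D v x + D v y := by
  obtain ⟨f, hf, rfl⟩ := rep x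
  obtain ⟨g, hg, rfl⟩ := rep y
  rw [mk_add, D_mk, D_mk, D_mk, mk_add, mk_eq]
  filter_upwards [hf.eventually_diff, hg.eventually_diff] with w h1 h2
  rw [fderiv_fun_add h1 h2]
  rfl

theorem D_mul (v : V) (x y : SG p) : D v (x * y) = D v x * y + x * D v y := by
  obtain ⟨f, hf, rfl⟩ := rep x
  obtain ⟨g, hg, rfl⟩ := rep y
  rw [mk_mul, D_mk, D_mk, D_mk, mk_mul, mk_mul, mk_add, mk_eq]
  filter_upwards [hf.eventually_diff, hg.eventually_diff] with w h1 h2
  rw [fderiv_fun_mul h1 h2]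
  simp
  ring

theorem D_vec_add (v w : V) (x : SG p) : D (v + w) x = D v x + D w x := by
  obtain ⟨f, hf, rfl⟩ := rep x
  rw [D_mk, D_mk, D_mk, mk_add, mk_eq]
  exact Eventually.of_forall fun w => by simp

theorem D_vec_smul (c : ℝ) (v : V) (x : SG p) : D (c • v) x = con p c * D v x := by
  obtain ⟨f, hf, rfl⟩ := rep x
  rw [D_mk, D_mk]
  have : con p (c : ℂ) = mk (fun _ => (c : ℂ)) contDiffAt_const := rfl
  rw [this, mk_mul, mk_eq]
  exact Eventually.of_forall fun w => by simp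

theorem D_comm (v w : V) (x : SG p) : D v (D w x) = D w (D v x) := by
  obtain ⟨f, hf, rfl⟩ := rep x
  rw [D_mk, D_mk, D_mk, D_mk, mk_eq]
  filter_upwards [hf.eventually 2] with u hu
  have h1 : DifferentiableAt ℝ (fderiv ℝ f) u :=
    (hu.fderiv_right (m := 1) (by norm_num)).differentiableAt (by simp)
  have h2 : IsSymmSndFDerivAt ℝ f u := hu.isSymmSndFDerivAt (by simp)
  have h3 : ∀ v w : V, fderiv ℝ (fun x => fderiv ℝ f x w) u v =
      fderiv ℝ (fderiv ℝ f) u v w := by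
    intro v w
    rw [fderiv_clm_apply h1 (differentiableAt_const w)]
    simp
  rw [h3, h3]
  exact h2 v w

/-- The conjugation. -/
def conj (p : V) : SG p →+* SG p where
  toFun x := ⟨Filter.Germ.map (starRingEnd ℂ) x.1, by
    obtain ⟨x, f, hf, rfl⟩ := x
    exact ⟨fun w => starRingEnd ℂ (f w),
      (Complex.conjCLE.contDiff.contDiffAt).comp p hf, rfl⟩⟩
  map_one' := by
    apply Subtype.ext
    show Filter.Germ.map (starRingEnd ℂ) (1 : Filter.Germ (𝓝 p) ℂ) = 1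
    show ((starRingEnd ℂ ∘ fun _ => (1 : ℂ) : V → ℂ) : Filter.Germ (𝓝 p) ℂ) = _
    rw [show (1 : Filter.Germ (𝓝 p) ℂ) = ((fun _ => 1 : V → ℂ) : Filter.Germ (𝓝 p) ℂ) from rfl]
    rw [Filter.Germ.coe_eq]
    exact Eventually.of_forall fun w => by simp
  map_mul' := by
    rintro ⟨_, f, hf, rfl⟩ ⟨_, g, hg, rfl⟩
    apply Subtype.ext
    show ((starRingEnd ℂ ∘ (f * g) : V → ℂ) : Filter.Germ (𝓝 p) ℂ) =
      (((starRingEnd ℂ ∘ f) * (starRingEnd ℂ ∘ g) : V → ℂ) : Filter.Germ (𝓝 p) ℂ)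
    rw [Filter.Germ.coe_eq]
    exact Eventually.of_forall fun w => by simp
  map_zero' := by
    apply Subtype.ext
    show ((starRingEnd ℂ ∘ fun _ => (0 : ℂ) : V → ℂ) : Filter.Germ (𝓝 p) ℂ) =
      ((fun _ => 0 : V → ℂ) : Filter.Germ (𝓝 p) ℂ)
    rw [Filter.Germ.coe_eq]
    exact Eventually.of_forall fun w => by simp
  map_add' := by
    rintro ⟨_, f, hf, rfl⟩ ⟨_, g, hg, rfl⟩
    apply Subtype.ext
    show ((starRingEnd ℂ ∘ (f + g) : V → ℂ) : Filter.Germ (𝓝 p) ℂ) =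
      (((starRingEnd ℂ ∘ f) + (starRingEnd ℂ ∘ g) : V → ℂ) : Filter.Germ (𝓝 p) ℂ)
    rw [Filter.Germ.coe_eq]
    exact Eventually.of_forall fun w => by simp

theorem Sm.conj {f : V → ℂ} (hf : Sm f p) : Sm (fun w => starRingEnd ℂ (f w)) p :=
  (Complex.conjCLE.contDiff.contDiffAt).comp p hf

theorem conj_mk {f : V → ℂ} (hf : Sm f p) :
    conj p (mk f hf) = mk (fun w => starRingEnd ℂ (f w)) (Sm.conj hf) := rfl

theorem conj_conj (x : SG p) : conj p (conj p x) = x := by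
  obtain ⟨f, hf, rfl⟩ := rep x
  rw [conj_mk, conj_mk, mk_eq]
  exact Eventually.of_forall fun w => by simp

theorem conj_con (c : ℂ) : conj p (con p c) = con p (starRingEnd ℂ c) := rfl

theorem D_conj (v : V) (x : SG p) : D v (conj p x) = conj p (D v x) := by
  obtain ⟨f, hf, rfl⟩ := rep x
  rw [conj_mk, D_mk, D_mk, conj_mk, mk_eq]
  filter_upwards [hf.eventually_diff] with w hw
  have h1 : HasFDerivAt (fun w => starRingEnd ℂ (f w))
      ((Complex.conjCLE : ℂ →L[ℝ] ℂ).comp (fderiv ℝ f w)) w :=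
    (Complex.conjCLE : ℂ →L[ℝ] ℂ).hasFDerivAt.comp w hw.hasFDerivAt
  rw [h1.fderiv]
  simp

/-- The value at `p`. -/
def ev (p : V) : SG p →+* ℂ := Filter.Germ.valueRingHom.comp (SG p).subtype

theorem ev_mk {f : V → ℂ} (hf : Sm f p) : ev p (mk f hf) = f p := rfl

theorem ev_con (c : ℂ) : ev p (con p c) = c := rfl

theorem ev_conj (x : SG p) : ev p (conj p x) = starRingEnd ℂ (ev p x) := by
  obtain ⟨f, hf, rfl⟩ := rep x
  rw [conj_mk, ev_mk, ev_mk]

theorem two (x : SG p) (h : x + x = 0) : x = 0 := by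
  have h1 : x = con p (1 / 2) * (x + x) := by
    have h2 : con p (1 / 2) * (x + x) = con p (1 / 2 + 1 / 2) * x := by
      rw [map_add]; ring
    rw [h2]
    norm_num
  rw [h1, h, mul_zero]

end SG

end Pool.Agent.LV31
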