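import Pool.Agent.LV31.Loc

/-!
# LV31/Grad : the gradient estimate of Calabi
-/

set_option autoImplicit false
set_option linter.unusedSectionVars false

open Matrix Finset Filter Topology

noncomputable section

namespace Pool.Agent.LV31

variable {m : ℕ}

/-- The square of the euclidean norm. -/
def nsq (w : Fin m → ℂ) : ℝ := ∑ j, ‖w j‖ ^ 2

theorem nsq_nonneg (w : Fin m → ℂ) : 0 ≤ nsq w := Finset.sum_nonneg fun _ _ => by positivity

theorem norm_le_of_nsq {w : Fin m → ℂ} {ρ : ℝ} (hρ : 0 ≤ ρ) (h : nsq w ≤ ρ ^ 2) : ‖w‖ ≤ ρ := by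
  rw [pi_norm_le_iff_of_nonneg hρ]
  intro j
  have h1 : ‖w j‖ ^ 2 ≤ nsq w :=
    Finset.single_le_sum (f := fun j => ‖w j‖ ^ 2) (fun _ _ => by positivity) (Finset.mem_univ j)
  exact le_of_sq_le_sq (h1.trans h) hρ

theorem nsq_le (w : Fin m → ℂ) : nsq w ≤ m * ‖w‖ ^ 2 := by
  calc nsq w ≤ ∑ _j : Fin m, ‖w‖ ^ 2 := Finset.sum_le_sum fun j _ =>
        pow_le_pow_left₀ (norm_nonneg _) (norm_le_pi_norm w j) 2
    _ = m * ‖w‖ ^ 2 := by simp

theorem continuous_nsq : Continuous (nsq : (Fin m → ℂ) → ℝ) := by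
  unfold nsq
  fun_prop

/-- The square of the norm as a complex valued function. -/
def qf (w : Fin m → ℂ) : ℂ := ∑ j, w j * starRingEnd ℂ (w j)

theorem qf_eq (w : Fin m → ℂ) : qf w = (nsq w : ℝ) := by
  simp only [qf, nsq, Complex.mul_conj', Complex.ofReal_sum, Complex.ofReal_pow]

theorem sm_coord (p : Fin m → ℂ) (j : Fin m) : Sm (fun w : Fin m → ℂ => w j) p :=
  (ContinuousLinearMap.proj (R := ℝ) (φ := fun _ : Fin m => ℂ) j).contDiff.contDiffAt

theorem fderiv_coord (p v : Fin m → ℂ) (j : Fin m) :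
    fderiv ℝ (fun w : Fin m → ℂ => w j) p v = v j := by
  have h := (ContinuousLinearMap.proj (R := ℝ) (φ := fun _ : Fin m => ℂ) j).hasFDerivAt (x := p)
  have h2 : fderiv ℝ (fun w : Fin m → ℂ => w j) p =
    ContinuousLinearMap.proj (R := ℝ) (φ := fun _ : Fin m => ℂ) j := h.fderiv
  rw [h2]; rfl

theorem wd_coord (p : Fin m → ℂ) (r j : Fin m) :
    wd r (fun w : Fin m → ℂ => w j) p = if r = j then 1 else 0 := by
  simp only [wd, fderiv_coord, Pi.smul_apply, smul_eq_mul]
  by_cases h : r = j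
  · subst h
    simp only [bv, Pi.single_eq_same, mul_one, Complex.I_mul_I, if_true]
    norm_num
  · simp [bv, h]

theorem wdb_coord (p : Fin m → ℂ) (r j : Fin m) :
    wdb r (fun w : Fin m → ℂ => w j) p = 0 := by
  simp only [wdb, fderiv_coord, Pi.smul_apply, smul_eq_mul]
  rw [← mul_assoc, Complex.I_mul_I]
  ring

namespace SG

variable {p : Fin m → ℂ}

/-- The germ of a coordinate. -/
def zc (p : Fin m → ℂ) (j : Fin m) : SG p := mk (fun w => w j) (sm_coord p j)

theorem d_zc (r j : Fin m) : (wirt p).d r (zc p j) = con p (if r = j then 1 else 0) :=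
  (mk_eq ((sm_coord p j).wd r) contDiffAt_const).2
    (Eventually.of_forall fun w => wd_coord w r j)

theorem wirt_e_mk (r : Fin m) {f : (Fin m → ℂ) → ℂ} (hf : Sm f p) :
    (wirt p).e r (mk f hf) = mk (wdb r f) (hf.wdb r) := by
  rw [wirt_e]; rfl

theorem e_zc (r j : Fin m) : (wirt p).e r (zc p j) = 0 := by
  rw [zc, wirt_e_mk]
  exact (mk_eq ((sm_coord p j).wdb r) contDiffAt_const).2
    (Eventually.of_forall fun w => wdb_coord w r j)

/-- The germ of the square of the norm. -/
def qg (p : Fin m → ℂ) : SG p := ∑ j, zc p j * conj p (zc p j)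

theorem d_qg (r : Fin m) : (wirt p).d r (qg p) = conj p (zc p r) := by
  rw [qg, ((wirt p).d_der r).sum]
  have h1 : ∀ j, (wirt p).d r (zc p j * conj p (zc p j)) =
      (if r = j then conj p (zc p j) else 0) := by
    intro j
    rw [(wirt p).d_mul, d_zc]
    have h2 : (wirt p).d r (conj p (zc p j)) = 0 := by
      have := (wirt p).c_e r (zc p j)
      rw [e_zc, map_zero] at this
      exact this.symm
    rw [h2, mul_zero, add_zero]
    by_cases h : r = j
    · simp [h]
    · simp [h]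
  simp only [h1, Finset.sum_ite_eq, Finset.mem_univ, if_true]

theorem e_conj_zc (s r : Fin m) :
    (wirt p).e s (conj p (zc p r)) = con p (if s = r then 1 else 0) := by
  have := (wirt p).c_d s (zc p r)
  rw [d_zc] at this
  rw [show (wirt p).c (zc p r) = conj p (zc p r) from rfl] at this
  rw [← this, wirt_c, conj_con]
  congr 1
  split_ifs <;> simp

theorem d_con (r : Fin m) (c : ℂ) : (wirt p).d r (con p c) = 0 := by
  rw [wirt_d, dz, D_con, D_con]
  ring

theorem e_con (r : Fin m) (c : ℂ) : (wirt p).e r (con p c) = 0 := by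
  rw [wirt_e, D_con, D_con]
  ring

theorem lap_con_mul (H : Matrix (Fin m) (Fin m) (SG p)) (c : ℂ) (x : SG p) :
    (wirt p).lap H (con p c * x) = con p c * (wirt p).lap H x := by
  simp only [DR.lap, Finset.mul_sum]
  refine Finset.sum_congr rfl fun r _ => Finset.sum_congr rfl fun s _ => ?_
  rw [(wirt p).d_mul, d_con, zero_mul, zero_add, ((wirt p).e_der s).mul, e_con, zero_mul,
    zero_add]
  ring

theorem lap_add (H : Matrix (Fin m) (Fin m) (SG p)) (x y : SG p) :
    (wirt p).lap H (x + y) = (wirt p).lap H x + (wirt p).lap H y := by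
  simp only [DR.lap, ← Finset.sum_add_distrib]
  refine Finset.sum_congr rfl fun r _ => Finset.sum_congr rfl fun s _ => ?_
  rw [(wirt p).d_add, ((wirt p).e_der s).add]
  ring

theorem lap_sub (H : Matrix (Fin m) (Fin m) (SG p)) (x y : SG p) :
    (wirt p).lap H (x - y) = (wirt p).lap H x - (wirt p).lap H y := by
  simp only [DR.lap, ← Finset.sum_sub_distrib]
  refine Finset.sum_congr rfl fun r _ => Finset.sum_congr rfl fun s _ => ?_
  rw [((wirt p).d_der r).sub, ((wirt p).e_der s).sub]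
  ring

theorem lap_one (H : Matrix (Fin m) (Fin m) (SG p)) : (wirt p).lap H 1 = 0 := by
  simp only [DR.lap, ((wirt p).d_der _).one, ((wirt p).e_der _).zero, mul_zero,
    Finset.sum_const_zero]

theorem lap_qg (H : Matrix (Fin m) (Fin m) (SG p)) :
    (wirt p).lap H (qg p) = Matrix.trace H := by
  simp only [DR.lap, d_qg, e_conj_zc, Matrix.trace, Matrix.diag_apply]
  refine Finset.sum_congr rfl fun r _ => ?_
  have h1 : ∀ s, H r s * con p (if s = r then 1 else 0) = if s = r then H r s else 0 := by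
    intro s
    by_cases h : s = r
    · simp [h]
    · simp [h]
  simp only [h1, Finset.sum_ite_eq', Finset.mem_univ, if_true]

/-- The germ of the cut-off function. -/
def xg (p : Fin m → ℂ) (c : ℝ) : SG p := 1 - con p c * qg p

theorem conj_qg : conj p (qg p) = qg p := by
  rw [qg, map_sum]
  exact Finset.sum_congr rfl fun j _ => by rw [map_mul, conj_conj, mul_comm]

theorem conj_xg (c : ℝ) : conj p (xg p c) = xg p c := by
  rw [xg, map_sub, map_one, map_mul, conj_qg, conj_con, Complex.conj_ofReal]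

theorem ev_zc (j : Fin m) : ev p (zc p j) = p j := rfl

theorem ev_qg : ev p (qg p) = (nsq p : ℝ) := by
  rw [qg, map_sum, nsq, Complex.ofReal_sum]
  exact Finset.sum_congr rfl fun j _ => by
    rw [map_mul, ev_conj, ev_zc, Complex.mul_conj', Complex.ofReal_pow]

theorem ev_xg (c : ℝ) : ev p (xg p c) = ((1 - c * nsq p : ℝ) : ℂ) := by
  rw [xg, map_sub, map_one, map_mul, ev_con, ev_qg]
  push_cast
  ring

theorem ev_d_xg (c : ℝ) (r : Fin m) :
    ev p ((wirt p).d r (xg p c)) = -(c * starRingEnd ℂ (p r)) := by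
  rw [xg, ((wirt p).d_der r).sub, ((wirt p).d_der r).one, zero_sub, (wirt p).d_mul, d_con,
    zero_mul, zero_add, d_qg, map_neg, map_mul, ev_con, ev_conj, ev_zc]

theorem lap_xg (H : Matrix (Fin m) (Fin m) (SG p)) (c : ℝ) :
    (wirt p).lap H (xg p c) = -(con p c * Matrix.trace H) := by
  rw [xg, lap_sub, lap_one, lap_con_mul, lap_qg, zero_sub]

theorem qg_mk (hq : Sm (qf : (Fin m → ℂ) → ℂ) p) : qg p = mk qf hq := by
  rw [qg]
  exact mk_sum _ (fun j => (sm_coord p j).mul (Sm.conj (sm_coord p j))) hq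

end SG

theorem sm_qf (p : Fin m → ℂ) : Sm (qf : (Fin m → ℂ) → ℂ) p :=
  ContDiffAt.sum fun j _ => (sm_coord p j).mul (SG.Sm.conj (sm_coord p j))

end Pool.Agent.LV31
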