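import Pool.Agent.SYM.Triple

/-!
# LV31/HKM : linear hyperkähler structures in matrix form
-/

set_option autoImplicit false
set_option linter.unusedSectionVars false

open Matrix Finset Pool.Agent.SYM

noncomputable section

namespace Pool.Agent.LV31

variable {n : ℕ}

/-- The matrix of the hermitian form of a triple. -/
def hM (o : Fin 3 → CV n → CV n → ℝ) : Matrix (Fin (2 * n)) (Fin (2 * n)) ℂ :=
  Matrix.of fun j l => (o 1 (basisVec n j) (Complex.I • basisVec n l) : ℂ) +
    (o 1 (basisVec n j) (basisVec n l) : ℂ) * Complex.I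

/-- The matrix of the holomorphic symplectic form of a triple. -/
def sM (o : Fin 3 → CV n → CV n → ℝ) : Matrix (Fin (2 * n)) (Fin (2 * n)) ℂ :=
  Matrix.of fun j l => (o 2 (basisVec n j) (basisVec n l) : ℂ) +
    (o 0 (basisVec n j) (basisVec n l) : ℂ) * Complex.I

/-- The hermitian form of a matrix. -/
def hf (h : Matrix (Fin (2 * n)) (Fin (2 * n)) ℂ) (u v : CV n) : ℂ := star u ⬝ᵥ h *ᵥ v

theorem hf_eq (h : Matrix (Fin (2 * n)) (Fin (2 * n)) ℂ) (u v : CV n) :
    hf h u v = ∑ j, ∑ l, starRingEnd ℂ (u j) * h j l * v l := by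
  simp only [hf, dotProduct, mulVec, Finset.mul_sum]
  exact Finset.sum_congr rfl fun j _ => Finset.sum_congr rfl fun l _ => by
    rw [← mul_assoc]; rfl

theorem sum_basis (u : CV n) : u = ∑ j, u j • basisVec n j := by
  funext i
  rw [Finset.sum_apply]
  simp [basisVec, Pi.single_apply]

/-- A real biadditive form which is conjugate linear in the first and linear in the second
variable is given by its matrix. -/
theorem sesq_eq {f : CV n → CV n → ℂ} (add1 : ∀ u u' v, f (u + u') v = f u v + f u' v)
    (add2 : ∀ u v v', f u (v + v') = f u v + f u v')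
    (sm1 : ∀ (c : ℝ) u v, f (c • u) v = c * f u v) (sm2 : ∀ (c : ℝ) u v, f u (c • v) = c * f u v)
    (I1 : ∀ u v, f (Complex.I • u) v = -Complex.I * f u v)
    (I2 : ∀ u v, f u (Complex.I • v) = Complex.I * f u v) (u v : CV n) :
    f u v = ∑ j, ∑ l, starRingEnd ℂ (u j) * f (basisVec n j) (basisVec n l) * v l := by
  have c1 : ∀ (c : ℂ) u v, f (c • u) v = starRingEnd ℂ c * f u v := by
    intro c u v
    have h1 : c • u = (c.re : ℝ) • u + (c.im : ℝ) • (Complex.I • u) := by
      funext i
      simp only [Pi.smul_apply, Pi.add_apply, smul_eq_mul, Complex.real_smul]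
      nth_rewrite 1 [← Complex.re_add_im c]
      ring
    rw [h1, add1, sm1, sm1, I1]
    have h2 : starRingEnd ℂ c = (c.re : ℂ) - c.im * Complex.I := by
      apply Complex.ext <;> simp
    rw [h2]; ring
  have c2 : ∀ (c : ℂ) u v, f u (c • v) = c * f u v := by
    intro c u v
    have h1 : c • v = (c.re : ℝ) • v + (c.im : ℝ) • (Complex.I • v) := by
      funext i
      simp only [Pi.smul_apply, Pi.add_apply, smul_eq_mul, Complex.real_smul]
      nth_rewrite 1 [← Complex.re_add_im c]
      ring
    rw [h1, add2, sm2, sm2, I2]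
    nth_rewrite 3 [← Complex.re_add_im c]
    ring
  have z1 : ∀ v, f 0 v = 0 := by
    intro v
    have := add1 0 0 v
    simpa using this
  have z2 : ∀ u, f u 0 = 0 := by
    intro u
    have := add2 u 0 0
    simpa using this
  have s1 : ∀ (s : Finset (Fin (2 * n))) (a : Fin (2 * n) → CV n) v,
      f (∑ j ∈ s, a j) v = ∑ j ∈ s, f (a j) v := by
    intro s a v
    induction s using Finset.induction_on with
    | empty => simp [z1]
    | insert i s hi ih => rw [Finset.sum_insert hi, Finset.sum_insert hi, add1, ih]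
  have s2 : ∀ (s : Finset (Fin (2 * n))) (a : Fin (2 * n) → CV n) u,
      f u (∑ j ∈ s, a j) = ∑ j ∈ s, f u (a j) := by
    intro s a u
    induction s using Finset.induction_on with
    | empty => simp [z2]
    | insert i s hi ih => rw [Finset.sum_insert hi, Finset.sum_insert hi, add2, ih]
  conv_lhs => rw [sum_basis u, s1]
  refine Finset.sum_congr rfl fun j _ => ?_
  conv_lhs => rw [sum_basis v, s2]
  refine Finset.sum_congr rfl fun l _ => ?_
  rw [c1, c2]; ring

/-- A linear hyperkähler structure in matrix form: `h` is the matrix of the hermitian form of the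
metric, `u ↦ κ ubar` the complex structure `K`. -/
structure HKM (h κ : Matrix (Fin (2 * n)) (Fin (2 * n)) ℂ) : Prop where
  herm : hᴴ = h
  pos : ∀ v : CV n, v ≠ 0 → 0 < (hf h v v).re
  sq : κ * κ.map (starRingEnd ℂ) = -1
  iso : κᴴ * h * κ = hᵀ

/-- The complex structures. -/
def Qof (κ : Matrix (Fin (2 * n)) (Fin (2 * n)) ℂ) (a : Fin 3) (u : CV n) : CV n :=
  ![Complex.I • (κ *ᵥ star u), Complex.I • u, κ *ᵥ star u] a

/-- The triple of an `HKM`. -/
def oOf (h κ : Matrix (Fin (2 * n)) (Fin (2 * n)) ℂ) (a : Fin 3) (u v : CV n) : ℝ :=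
  (hf h (Qof κ a u) v).re

section forms

variable (h : Matrix (Fin (2 * n)) (Fin (2 * n)) ℂ)

theorem hf_add_left (u u' v : CV n) : hf h (u + u') v = hf h u v + hf h u' v := by
  simp [hf, add_dotProduct]

theorem hf_add_right (u v v' : CV n) : hf h u (v + v') = hf h u v + hf h u v' := by
  simp [hf, mulVec_add, dotProduct_add]

theorem hf_smul_left (c : ℂ) (u v : CV n) : hf h (c • u) v = starRingEnd ℂ c * hf h u v := by
  simp [hf, smul_dotProduct]

theorem hf_smul_right (c : ℂ) (u v : CV n) : hf h u (c • v) = c * hf h u v := by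
  simp [hf, mulVec_smul, dotProduct_smul]

theorem hf_rsmul_left (c : ℝ) (u v : CV n) : hf h (c • u) v = c * hf h u v := by
  have h1 : c • u = (c : ℂ) • u := by
    funext i; simp
  rw [h1, hf_smul_left, Complex.conj_ofReal]

theorem hf_rsmul_right (c : ℝ) (u v : CV n) : hf h u (c • v) = c * hf h u v := by
  have h1 : c • v = (c : ℂ) • v := by
    funext i; simp
  rw [h1, hf_smul_right]

theorem hf_basis (j l : Fin (2 * n)) : hf h (basisVec n j) (basisVec n l) = h j l := by
  rw [hf_eq]
  have h1 : ∀ a b, starRingEnd ℂ (basisVec n j a) * h a b * basisVec n l b =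
      if a = j then (if b = l then h a b else 0) else 0 := by
    intro a b
    simp only [basisVec, Pi.single_apply]
    split_ifs <;> simp
  simp only [h1, Finset.sum_ite_eq', Finset.mem_univ, if_true, Finset.sum_ite_irrel,
    Finset.sum_const_zero]

variable {h}

theorem hf_conj (hh : hᴴ = h) (u v : CV n) : starRingEnd ℂ (hf h u v) = hf h v u := by
  rw [hf_eq, hf_eq]
  conv_rhs => rw [Finset.sum_comm]
  simp only [map_sum, map_mul, Complex.conj_conj]
  refine Finset.sum_congr rfl fun j _ => Finset.sum_congr rfl fun l _ => ?_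
  have h1 : starRingEnd ℂ (h j l) = h l j := by
    have := congrFun (congrFun hh l) j
    rwa [Matrix.conjTranspose_apply] at this
  rw [h1]; ring

theorem hf_symm_re (hh : hᴴ = h) (u v : CV n) : (hf h u v).re = (hf h v u).re := by
  rw [← hf_conj hh, Complex.conj_re]

end forms

namespace HKM

variable {h κ : Matrix (Fin (2 * n)) (Fin (2 * n)) ℂ} (hk : HKM h κ)

theorem Qof_zero (κ : Matrix (Fin (2 * n)) (Fin (2 * n)) ℂ) (u : CV n) :
    Qof κ 0 u = Complex.I • (κ *ᵥ star u) := rfl

theorem Qof_one (κ : Matrix (Fin (2 * n)) (Fin (2 * n)) ℂ) (u : CV n) :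
    Qof κ 1 u = Complex.I • u := rfl

theorem Qof_two (κ : Matrix (Fin (2 * n)) (Fin (2 * n)) ℂ) (u : CV n) :
    Qof κ 2 u = κ *ᵥ star u := rfl

include hk

theorem K_sq (u : CV n) : κ *ᵥ star (κ *ᵥ star u) = -u := by
  have h1 : star (κ *ᵥ star u) = κ.map (starRingEnd ℂ) *ᵥ u := by
    funext i
    simp only [Pi.star_apply, mulVec, dotProduct, star_sum, star_mul', star_star, Matrix.map_apply]
    rfl
  rw [h1, Matrix.mulVec_mulVec, hk.sq, Matrix.neg_mulVec, Matrix.one_mulVec]

theorem hf_K (u v : CV n) : hf h (κ *ᵥ star u) (κ *ᵥ star v) = hf h v u := by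
  have h1 : hf h (κ *ᵥ star u) (κ *ᵥ star v) = u ⬝ᵥ (κᴴ * h * κ) *ᵥ star v := by
    rw [hf, Matrix.star_mulVec, star_star, ← Matrix.dotProduct_mulVec, Matrix.mulVec_mulVec,
      Matrix.mulVec_mulVec, mul_assoc]
  rw [h1, hk.iso, hf, Matrix.mulVec_transpose, dotProduct_comm, ← Matrix.dotProduct_mulVec]

theorem flatTriple : FlatTriple (oOf h κ) := by
  refine ⟨fun u v => (hf h u v).re, Qof κ, ?_, fun a u v => rfl⟩
  have hQ2 : ∀ u, Qof κ 2 (Qof κ 2 u) = -u := fun u => hk.K_sq u
  have hI2 : ∀ u : CV n, Complex.I • Complex.I • u = -u := by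
    intro u
    rw [smul_smul, Complex.I_mul_I, neg_one_smul]
  have hstarI : ∀ u : CV n, star (Complex.I • u) = -Complex.I • star u := by
    intro u
    rw [star_smul]
    simp
  refine ⟨?_, ?_, ?_, ?_, ?_, ?_, ?_, ?_, ?_, ?_⟩
  · intro u v w
    show (hf h (u + v) w).re = _
    rw [hf_add_left, Complex.add_re]
  · intro c u v
    show (hf h (c • u) v).re = _
    rw [hf_rsmul_left, Complex.re_ofReal_mul]
  · intro u v
    exact hf_symm_re hk.herm u v
  · exact fun u hu => hk.pos u hu
  · intro a u v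
    fin_cases a
    · show Complex.I • (κ *ᵥ star (u + v)) = Complex.I • (κ *ᵥ star u) + Complex.I • (κ *ᵥ star v)
      rw [star_add, mulVec_add, smul_add]
    · show Complex.I • (u + v) = Complex.I • u + Complex.I • v
      rw [smul_add]
    · show κ *ᵥ star (u + v) = κ *ᵥ star u + κ *ᵥ star v
      rw [star_add, mulVec_add]
  · intro a c u
    have hs : κ *ᵥ star (c • u) = c • (κ *ᵥ star u) := by
      rw [star_smul, mulVec_smul]
      simp
    fin_cases a
    · show Complex.I • (κ *ᵥ star (c • u)) = c • (Complex.I • (κ *ᵥ star u))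
      rw [hs, smul_comm]
    · show Complex.I • (c • u) = c • (Complex.I • u)
      rw [smul_comm]
    · exact hs
  · intro a u
    fin_cases a
    · show Complex.I • (κ *ᵥ star (Complex.I • (κ *ᵥ star u))) = -u
      rw [hstarI, mulVec_smul, hk.K_sq, smul_smul]
      simp
    · exact hI2 u
    · exact hQ2 u
  · intro u
    rfl
  · intro u
    rfl
  · intro a u v
    have hII : ∀ u v : CV n, hf h (Complex.I • u) (Complex.I • v) = hf h u v := by
      intro u v
      rw [hf_smul_left, hf_smul_right, Complex.conj_I, ← mul_assoc, neg_mul, Complex.I_mul_I,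
        neg_neg, one_mul]
    fin_cases a
    · show (hf h (Complex.I • (κ *ᵥ star u)) (Complex.I • (κ *ᵥ star v))).re = (hf h u v).re
      rw [hII, hk.hf_K, hf_symm_re hk.herm]
    · show (hf h (Complex.I • u) (Complex.I • v)).re = (hf h u v).re
      rw [hII]
    · show (hf h (κ *ᵥ star u) (κ *ᵥ star v)).re = (hf h u v).re
      rw [hk.hf_K, hf_symm_re hk.herm]

end HKM

end Pool.Agent.LV31
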