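import Pool.Agent.LV31.HKM

/-!
# LV31/HKM2 : every linear hyperkähler triple comes from matrices
-/

set_option autoImplicit false
set_option linter.unusedSectionVars false

open Matrix Finset Pool.Agent.SYM

noncomputable section

namespace Pool.Agent.LV31

variable {n : ℕ}

/-- The matrix of an antilinear map. -/
def kM (K : CV n → CV n) : Matrix (Fin (2 * n)) (Fin (2 * n)) ℂ :=
  Matrix.of fun i k => K (basisVec n k) i

theorem exists_HKM {o : Fin 3 → CV n → CV n → ℝ} (ho : FlatTriple o) :
    ∃ κ, HKM (hM o) κ ∧ o = oOf (hM o) κ := by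
  obtain ⟨g, Q, hg, hoQ⟩ := ho
  have hI2 : ∀ u : CV n, Complex.I • Complex.I • u = -u := by
    intro u
    rw [smul_smul, Complex.I_mul_I, neg_one_smul]
  have gneg : ∀ u v, g (-u) v = -g u v := by
    intro u v
    have := hg.g_smul (-1) u v
    simpa using this
  have gneg2 : ∀ u v, g u (-v) = -g u v := by
    intro u v
    rw [hg.g_symm, gneg, hg.g_symm]
  have gadd2 : ∀ u v w, g u (v + w) = g u v + g u w := by
    intro u v w
    rw [hg.g_symm, hg.g_add, hg.g_symm v, hg.g_symm w]
  have gsm2 : ∀ (c : ℝ) u v, g u (c • v) = c * g u v := by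
    intro c u v
    rw [hg.g_symm, hg.g_smul, hg.g_symm v]
  have gII : ∀ u v, g (Complex.I • u) (Complex.I • v) = g u v := by
    intro u v
    have := hg.isometry 1 u v
    rwa [hg.J_eq, hg.J_eq] at this
  have gI : ∀ u v, g u (Complex.I • v) = -g (Complex.I • u) v := by
    intro u v
    rw [← gII u, hI2, gneg2]
  -- the hermitian form
  set f : CV n → CV n → ℂ := fun u v => (g u v : ℂ) + Complex.I * (g (Complex.I • u) v : ℂ)
    with hfdef
  have hfe : ∀ u v, f u v = hf (hM o) u v := by
    intro u v
    rw [sesq_eq (f := f) ?_ ?_ ?_ ?_ ?_ ?_ u v, hf_eq]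
    · refine Finset.sum_congr rfl fun j _ => Finset.sum_congr rfl fun l _ => ?_
      congr 2
      simp only [hfdef, hM, Matrix.of_apply, hoQ, hg.J_eq, gII]
      ring
    · intro u u' v
      simp only [hfdef, hg.g_add, smul_add]
      push_cast; ring
    · intro u v v'
      simp only [hfdef, gadd2]
      push_cast; ring
    · intro c u v
      simp only [hfdef, smul_comm Complex.I c, hg.g_smul]
      push_cast; ring
    · intro c u v
      simp only [hfdef, gsm2]
      push_cast; ring
    · intro u v
      simp only [hfdef, hI2, gneg]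
      push_cast
      linear_combination (g (Complex.I • u) v : ℂ) * Complex.I_mul_I
    · intro u v
      simp only [hfdef, gI, hI2, gneg]
      push_cast
      linear_combination (-(g (Complex.I • u) v : ℂ)) * Complex.I_mul_I
  have gre : ∀ u v, g u v = (hf (hM o) u v).re := by
    intro u v
    rw [← hfe]
    simp [hfdef]
  -- `K` is antilinear
  have hKI' : ∀ u, Q 2 (Complex.I • Q 2 u) = Complex.I • u := by
    intro u
    have h1 := hg.Q_sq 0 u
    rw [hg.I_eq, hg.I_eq, hg.J_eq, hg.J_eq] at h1
    have h2 := congrArg (fun x => Complex.I • x) h1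
    simp only [hI2] at h2
    rw [smul_neg] at h2
    exact neg_injective h2
  have Qneg : ∀ a u, Q a (-u) = -Q a u := by
    intro a u
    have := hg.Q_smul a (-1) u
    simpa using this
  have hKI : ∀ u, Q 2 (Complex.I • u) = -(Complex.I • Q 2 u) := by
    intro u
    have h1 := hKI' (-(Q 2 u))
    rw [Qneg, hg.Q_sq, neg_neg, smul_neg] at h1
    exact h1
  have hKc : ∀ (c : ℂ) u, Q 2 (c • u) = starRingEnd ℂ c • Q 2 u := by
    intro c u
    have h1 : c • u = (c.re : ℝ) • u + (c.im : ℝ) • (Complex.I • u) := by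
      funext i
      simp only [Pi.smul_apply, Pi.add_apply, smul_eq_mul, Complex.real_smul]
      nth_rewrite 1 [← Complex.re_add_im c]
      ring
    rw [h1, hg.Q_add, hg.Q_smul, hg.Q_smul, hKI]
    have h2 : starRingEnd ℂ c = (c.re : ℂ) - c.im * Complex.I := by
      apply Complex.ext <;> simp
    rw [h2]
    funext i
    simp only [Pi.smul_apply, Pi.add_apply, Pi.neg_apply, smul_eq_mul, Complex.real_smul]
    ring
  have Qzero : ∀ a, Q a 0 = 0 := by
    intro a
    have := hg.Q_add a 0 0
    simpa using this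
  have Qsum : ∀ (s : Finset (Fin (2 * n))) (a : Fin (2 * n) → CV n),
      Q 2 (∑ j ∈ s, a j) = ∑ j ∈ s, Q 2 (a j) := by
    intro s a
    induction s using Finset.induction_on with
    | empty => simp [Qzero]
    | insert i s hi ih => rw [Finset.sum_insert hi, Finset.sum_insert hi, hg.Q_add, ih]
  have hK : ∀ u, Q 2 u = kM (Q 2) *ᵥ star u := by
    intro u
    conv_lhs => rw [sum_basis u, Qsum]
    funext i
    rw [Finset.sum_apply, mulVec, dotProduct]
    refine Finset.sum_congr rfl fun j _ => ?_
    rw [hKc, Pi.smul_apply, smul_eq_mul, mul_comm]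
    rfl
  refine ⟨kM (Q 2), ⟨?_, ?_, ?_, ?_⟩, ?_⟩
  · ext j l
    rw [Matrix.conjTranspose_apply]
    have h1 : hM o j l = f (basisVec n j) (basisVec n l) := by rw [hfe, hf_basis]
    have h2 : hM o l j = f (basisVec n l) (basisVec n j) := by rw [hfe, hf_basis]
    rw [h1, h2]
    simp only [hfdef]
    rw [show star ((g (basisVec n l) (basisVec n j) : ℂ) +
      Complex.I * (g (Complex.I • basisVec n l) (basisVec n j) : ℂ)) =
      starRingEnd ℂ ((g (basisVec n l) (basisVec n j) : ℂ) +
      Complex.I * (g (Complex.I • basisVec n l) (basisVec n j) : ℂ)) from rfl]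
    rw [map_add, map_mul, Complex.conj_ofReal, Complex.conj_ofReal, Complex.conj_I,
      hg.g_symm (basisVec n l), hg.g_symm (Complex.I • basisVec n l), gI]
    push_cast; ring
  · intro v hv
    rw [← gre]
    exact hg.g_pos v hv
  · ext i k
    have h1 := hg.Q_sq 2 (basisVec n k)
    rw [hK (Q 2 (basisVec n k))] at h1
    have h2 := congrFun h1 i
    rw [mulVec, dotProduct] at h2
    rw [Matrix.mul_apply]
    have h3 : ∑ j, kM (Q 2) i j * (kM (Q 2)).map (starRingEnd ℂ) j k =
        ∑ j, kM (Q 2) i j * star (Q 2 (basisVec n k)) j := rfl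
    rw [h3, h2]
    simp only [Pi.neg_apply, basisVec, Matrix.neg_apply, Matrix.one_apply, Pi.single_apply]
  · ext j l
    have h1 : ((kM (Q 2))ᴴ * hM o * kM (Q 2)) j l =
        hf (hM o) (Q 2 (basisVec n j)) (Q 2 (basisVec n l)) := by
      rw [hf_eq, Matrix.mul_apply]
      simp only [Matrix.mul_apply, Finset.sum_mul]
      rw [Finset.sum_comm]
      rfl
    rw [h1, ← hfe, Matrix.transpose_apply]
    have h2 : hM o l j = f (basisVec n l) (basisVec n j) := by rw [hfe, hf_basis]
    rw [h2]
    simp only [hfdef]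
    have h3 : g (Q 2 (basisVec n j)) (Q 2 (basisVec n l)) = g (basisVec n j) (basisVec n l) :=
      hg.isometry 2 _ _
    have h4 : g (Complex.I • Q 2 (basisVec n j)) (Q 2 (basisVec n l)) =
        -g (Complex.I • basisVec n j) (basisVec n l) := by
      have h5 : Complex.I • Q 2 (basisVec n j) = -Q 2 (Complex.I • basisVec n j) := by
        rw [hKI, neg_neg]
      rw [h5, gneg, hg.isometry 2]
    have h6 : g (Complex.I • basisVec n l) (basisVec n j) =
        -g (Complex.I • basisVec n j) (basisVec n l) := by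
      rw [hg.g_symm, gI]
    rw [h3, h4, h6, hg.g_symm (basisVec n l)]
  · funext a u v
    rw [hoQ, gre, oOf]
    congr 2
    fin_cases a
    · show Q 0 u = Complex.I • (kM (Q 2) *ᵥ star u)
      rw [hg.I_eq, hg.J_eq, ← hK]
    · exact hg.J_eq u
    · exact hK u

end Pool.Agent.LV31
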