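import Pool.Agent.LV31.HKM2
import Pool.Agent.LV31.Grad

/-!
# LV31/HKM3 : bounds for linear hyperkähler structures
-/

set_option autoImplicit false
set_option linter.unusedSectionVars false

open Matrix Finset Pool.Agent.SYM

noncomputable section

namespace Pool.Agent.LV31

variable {n : ℕ}

theorem hM_oOf {h κ : Matrix (Fin (2 * n)) (Fin (2 * n)) ℂ} : hM (oOf h κ) = h := by
  ext j l
  simp only [hM, Matrix.of_apply, oOf, HKM.Qof_one, hf_smul_left, hf_smul_right, hf_basis]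
  apply Complex.ext <;> simp

theorem sM_oOf {h κ : Matrix (Fin (2 * n)) (Fin (2 * n)) ℂ} : sM (oOf h κ) = κᴴ * h := by
  ext j l
  have h1 : hf h (κ *ᵥ star (basisVec n j)) (basisVec n l) = (κᴴ * h) j l := by
    rw [hf_eq, Matrix.mul_apply]
    have h2 : ∀ a b, starRingEnd ℂ ((κ *ᵥ star (basisVec n j)) a) * h a b * basisVec n l b =
        if b = l then κᴴ j a * h a b else 0 := by
      intro a b
      have h3 : (κ *ᵥ star (basisVec n j)) a = κ a j := by
        rw [mulVec, dotProduct]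
        have : ∀ i, κ a i * star (basisVec n j) i = if i = j then κ a i else 0 := by
          intro i
          simp only [Pi.star_apply, basisVec, Pi.single_apply]
          split_ifs <;> simp
        simp only [this, Finset.sum_ite_eq', Finset.mem_univ, if_true]
      rw [h3, Matrix.conjTranspose_apply]
      simp only [basisVec, Pi.single_apply]
      split_ifs
      · rw [mul_one]; rfl
      · rw [mul_zero]
    simp only [h2, Finset.sum_ite_eq', Finset.mem_univ, if_true]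
  simp only [sM, Matrix.of_apply, oOf, HKM.Qof_two, HKM.Qof_zero, hf_smul_left, h1]
  apply Complex.ext <;> simp

theorem hf_K_eq (h κ : Matrix (Fin (2 * n)) (Fin (2 * n)) ℂ) (u v : CV n) :
    hf h (κ *ᵥ star u) v = ∑ j, ∑ l, u j * (κᴴ * h) j l * v l := by
  have h1 : hf h (κ *ᵥ star u) v = u ⬝ᵥ (κᴴ * h) *ᵥ v := by
    rw [hf, Matrix.star_mulVec, star_star, ← Matrix.dotProduct_mulVec, Matrix.mulVec_mulVec]
  rw [h1]
  simp only [dotProduct, mulVec, Finset.mul_sum]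
  exact Finset.sum_congr rfl fun j _ => Finset.sum_congr rfl fun l _ => by ring

namespace HKM

variable {h κ : Matrix (Fin (2 * n)) (Fin (2 * n)) ℂ} (hk : HKM h κ)

include hk

open scoped ComplexOrder in
theorem posDef : h.PosDef := by
  refine Matrix.PosDef.of_dotProduct_mulVec_pos hk.herm fun v hv => ?_
  have h1 := hk.pos v hv
  rw [Complex.lt_def]
  refine ⟨by simpa [hf] using h1, ?_⟩
  have h2 := Matrix.IsHermitian.im_star_dotProduct_mulVec_self (A := h) hk.herm v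
  simpa using h2.symm

open scoped ComplexOrder in
theorem det_ne : h.det ≠ 0 := by
  have h1 := hk.posDef.isUnit
  rw [Matrix.isUnit_iff_isUnit_det] at h1
  exact h1.ne_zero

theorem mul_inv : h * h⁻¹ = 1 := Matrix.mul_nonsing_inv _ (isUnit_iff_ne_zero.2 hk.det_ne)

theorem inv_mul : h⁻¹ * h = 1 := Matrix.nonsing_inv_mul _ (isUnit_iff_ne_zero.2 hk.det_ne)

/-- The relation between the metric and the symplectic form. -/
theorem symp : h = (κᴴ * h)ᴴ * (h⁻¹)ᵀ * (κᴴ * h) := by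
  set κb := κ.map (starRingEnd ℂ)
  have h1 : κ * (-κb) = 1 := by rw [mul_neg, hk.sq, neg_neg]
  have h2 : (-κb) * κ = 1 := mul_eq_one_comm.1 h1
  have h3 : κᴴ * h = hᵀ * (-κb) := by
    calc κᴴ * h = κᴴ * h * (κ * (-κb)) := by rw [h1, mul_one]
      _ = (κᴴ * h * κ) * (-κb) := by rw [← mul_assoc]
      _ = hᵀ * (-κb) := by rw [hk.iso]
  have h4 : (h⁻¹)ᵀ * hᵀ = 1 := by
    rw [← Matrix.transpose_mul, hk.mul_inv, Matrix.transpose_one]
  have h5 : (κᴴ * h)ᴴ = h * κ := by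
    rw [Matrix.conjTranspose_mul, Matrix.conjTranspose_conjTranspose, hk.herm]
  rw [h5]
  calc h = h * (κ * (-κb)) := by rw [h1, mul_one]
    _ = h * κ * (((h⁻¹)ᵀ * hᵀ) * (-κb)) := by rw [h4, one_mul, mul_assoc]
    _ = h * κ * (h⁻¹)ᵀ * (hᵀ * (-κb)) := by simp only [mul_assoc]
    _ = h * κ * (h⁻¹)ᵀ * (κᴴ * h) := by rw [h3]

theorem exists_frame : ∃ F G, Frame h h⁻¹ F G := Frame.exists_of_posDef hk.posDef hk.mul_inv

omit hk in
theorem hf_frame {F G : Matrix (Fin (2 * n)) (Fin (2 * n)) ℂ} (hf' : Frame h h⁻¹ F G)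
    (u v : CV n) : hf h u v = ip (G *ᵥ v) (G *ᵥ u) := by
  have h1 : hf h u v = star (G *ᵥ u) ⬝ᵥ (G *ᵥ v) := by
    rw [hf, hf'.h_eq, Matrix.star_mulVec, ← Matrix.dotProduct_mulVec, Matrix.mulVec_mulVec]
  rw [h1, dotProduct, ip]
  exact Finset.sum_congr rfl fun i _ => by
    rw [mul_comm]; rfl

/-- The Cauchy-Schwarz inequality. -/
theorem hf_le (u v : CV n) : ‖hf h u v‖ ^ 2 ≤ (hf h u u).re * (hf h v v).re := by
  obtain ⟨F, G, hf'⟩ := hk.exists_frame
  rw [hf_frame hf', hf_frame hf' u u, hf_frame hf' v v, ip_self, ip_self, Complex.ofReal_re,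
    Complex.ofReal_re]
  exact (ip_le _ _).trans (le_of_eq (mul_comm _ _))

theorem hf_nonneg (u : CV n) : 0 ≤ (hf h u u).re := by
  by_cases hu : u = 0
  · subst hu; simp [hf]
  · exact (hk.pos u hu).le

theorem norm_hf_le {K : ℝ} (hK : ∀ v : CV n, (hf h v v).re ≤ K * ‖v‖ ^ 2) (u v : CV n) :
    ‖hf h u v‖ ≤ K * ‖u‖ * ‖v‖ ∨ (u = 0 ∨ v = 0) := by
  by_cases hu : u = 0
  · exact Or.inr (Or.inl hu)
  by_cases hv : v = 0
  · exact Or.inr (Or.inr hv)
  left
  have h1 := hk.hf_le u v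
  have h2 : 0 < K * ‖u‖ ^ 2 := lt_of_lt_of_le (hk.pos u hu) (hK u)
  have hu0 : 0 < ‖u‖ := norm_pos_iff.2 hu
  have hv0 : 0 < ‖v‖ := norm_pos_iff.2 hv
  have hK0 : 0 < K := by
    by_contra hneg
    rw [not_lt] at hneg
    have : K * ‖u‖ ^ 2 ≤ 0 := mul_nonpos_of_nonpos_of_nonneg hneg (by positivity)
    linarith
  have h3 : ‖hf h u v‖ ^ 2 ≤ (K * ‖u‖ * ‖v‖) ^ 2 := by
    calc ‖hf h u v‖ ^ 2 ≤ (K * ‖u‖ ^ 2) * (K * ‖v‖ ^ 2) :=
          h1.trans (mul_le_mul (hK u) (hK v) (hk.hf_nonneg v) h2.le)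
      _ = (K * ‖u‖ * ‖v‖) ^ 2 := by ring
  exact le_of_sq_le_sq h3 (by positivity)

theorem norm_entry_le {K : ℝ} (hK : ∀ v : CV n, (hf h v v).re ≤ K * ‖v‖ ^ 2)
    (j l : Fin (2 * n)) : ‖h j l‖ ≤ K := by
  have hb : ∀ i, basisVec n i ≠ 0 := by
    intro i h0
    have := congrFun h0 i
    simp [basisVec] at this
  have hn : ∀ i, ‖basisVec n i‖ = 1 := by
    intro i
    simp [basisVec, Pi.norm_single]
  rcases hk.norm_hf_le hK (basisVec n j) (basisVec n l) with h1 | h1 | h1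
  · rw [hf_basis, hn, hn] at h1
    linarith
  · exact absurd h1 (hb j)
  · exact absurd h1 (hb l)

theorem K_nonneg {K : ℝ} (hK : ∀ v : CV n, (hf h v v).re ≤ K * ‖v‖ ^ 2) (j : Fin (2 * n)) :
    0 ≤ K := (norm_nonneg _).trans (hk.norm_entry_le hK j j)

theorem norm_s_le {K : ℝ} (hK : ∀ v : CV n, (hf h v v).re ≤ K * ‖v‖ ^ 2)
    (j l : Fin (2 * n)) : ‖(κᴴ * h) j l‖ ≤ K := by
  have hn : ∀ i, ‖basisVec n i‖ = 1 := by
    intro i
    simp [basisVec, Pi.norm_single]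
  have h1 : (κᴴ * h) j l = hf h (κ *ᵥ star (basisVec n j)) (basisVec n l) := by
    have h2 := congrFun (congrFun (sM_oOf (h := h) (κ := κ)) j) l
    rw [← h2]
    simp only [sM, Matrix.of_apply, oOf, Qof_two, Qof_zero, hf_smul_left]
    apply Complex.ext <;> simp
  have h3 := hk.hf_le (κ *ᵥ star (basisVec n j)) (basisVec n l)
  rw [hk.hf_K, ← h1] at h3
  have h4 := hK (basisVec n j)
  have h5 := hK (basisVec n l)
  rw [hn, one_pow, mul_one] at h4 h5
  have hK0 := hk.K_nonneg hK j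
  have h6 : ‖(κᴴ * h) j l‖ ^ 2 ≤ K ^ 2 := by
    calc ‖(κᴴ * h) j l‖ ^ 2 ≤ K * K := h3.trans (mul_le_mul h4 h5 (hk.hf_nonneg _) hK0)
      _ = K ^ 2 := by ring
  exact le_of_sq_le_sq h6 hK0

/-- The trace of `h⁻¹` gives a lower bound of the metric. -/
theorem nsq_le_hf (v : CV n) : nsq v ≤ (Matrix.trace h⁻¹).re * (hf h v v).re := by
  obtain ⟨F, G, hf'⟩ := hk.exists_frame
  rw [hf_frame hf', ip_self, Complex.ofReal_re]
  have h1 : v = F *ᵥ (G *ᵥ v) := by rw [Matrix.mulVec_mulVec, hf'.FG, Matrix.one_mulVec]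
  set x := G *ᵥ v
  have h2 : ∀ i, ‖v i‖ ^ 2 ≤ (∑ c, ‖F i c‖ ^ 2) * ns x := by
    intro i
    rw [h1, mulVec, dotProduct]
    calc ‖∑ c, F i c * x c‖ ^ 2 ≤ (∑ c, ‖F i c‖ * ‖x c‖) ^ 2 := by
          apply pow_le_pow_left₀ (norm_nonneg _)
          refine (norm_sum_le _ _).trans (le_of_eq ?_)
          exact Finset.sum_congr rfl fun c _ => norm_mul _ _
      _ ≤ _ := Finset.sum_mul_sq_le_sq_mul_sq _ _ _
  calc nsq v ≤ ∑ i, (∑ c, ‖F i c‖ ^ 2) * ns x := Finset.sum_le_sum fun i _ => h2 i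
    _ = (Matrix.trace h⁻¹).re * ns x := by
        rw [← Finset.sum_mul, ← hf'.sum_F, Finset.sum_comm]

theorem norm_κ_le {K Λ : ℝ} (hK : ∀ v : CV n, (hf h v v).re ≤ K * ‖v‖ ^ 2)
    (hΛ : (Matrix.trace h⁻¹).re ≤ Λ) (i j : Fin (2 * n)) : ‖κ i j‖ ^ 2 ≤ Λ * K := by
  have hn : ∀ i, ‖basisVec n i‖ = 1 := by
    intro i
    simp [basisVec, Pi.norm_single]
  have h3 : (κ *ᵥ star (basisVec n j)) i = κ i j := by
    rw [mulVec, dotProduct]
    have : ∀ a, κ i a * star (basisVec n j) a = if a = j then κ i a else 0 := by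
      intro a
      simp only [Pi.star_apply, basisVec, Pi.single_apply]
      split_ifs <;> simp
    simp only [this, Finset.sum_ite_eq', Finset.mem_univ, if_true]
  have h1 := hk.nsq_le_hf (κ *ᵥ star (basisVec n j))
  rw [hk.hf_K] at h1
  have h4 := hK (basisVec n j)
  rw [hn, one_pow, mul_one] at h4
  have h5 : ‖κ i j‖ ^ 2 ≤ nsq (κ *ᵥ star (basisVec n j)) := by
    rw [← h3]
    exact Finset.single_le_sum (f := fun a => ‖(κ *ᵥ star (basisVec n j)) a‖ ^ 2)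
      (fun _ _ => by positivity) (Finset.mem_univ i)
  have hK0 := hk.K_nonneg hK j
  calc ‖κ i j‖ ^ 2 ≤ (Matrix.trace h⁻¹).re * (hf h (basisVec n j) (basisVec n j)).re :=
        h5.trans h1
    _ ≤ Λ * (hf h (basisVec n j) (basisVec n j)).re :=
        mul_le_mul_of_nonneg_right hΛ (hk.hf_nonneg _)
    _ ≤ Λ * K := by
        apply mul_le_mul_of_nonneg_left h4
        obtain ⟨F, G, hf'⟩ := hk.exists_frame
        have h6 : (0 : ℝ) ≤ ∑ c, ∑ r, ‖F r c‖ ^ 2 :=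
          Finset.sum_nonneg fun _ _ => Finset.sum_nonneg fun _ _ => by positivity
        rw [hf'.sum_F] at h6
        exact h6.trans hΛ

end HKM

/-- Triples with close matrices are close. -/
theorem oOf_sub_le {h κ h' κ' : Matrix (Fin (2 * n)) (Fin (2 * n)) ℂ} {δ : ℝ} (hδ : 0 ≤ δ)
    (h1 : ∀ j l, ‖h j l - h' j l‖ ≤ δ) (h2 : ∀ j l, ‖(κᴴ * h) j l - (κ'ᴴ * h') j l‖ ≤ δ)
    (a : Fin 3) (u v : CV n) :
    |oOf h κ a u v - oOf h' κ' a u v| ≤ (2 * n : ℕ) * (2 * n : ℕ) * δ * ‖u‖ * ‖v‖ := by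
  have key : ∀ (M : Matrix (Fin (2 * n)) (Fin (2 * n)) ℂ) (x : CV n), (∀ j l, ‖M j l‖ ≤ δ) →
      ‖x‖ ≤ ‖u‖ → ‖∑ j, ∑ l, x j * M j l * v l‖ ≤
        (2 * n : ℕ) * (2 * n : ℕ) * δ * ‖u‖ * ‖v‖ := by
    intro M x hM hx
    calc ‖∑ j, ∑ l, x j * M j l * v l‖ ≤ ∑ _j : Fin (2 * n), ∑ _l : Fin (2 * n),
          ‖u‖ * δ * ‖v‖ := by
          refine (norm_sum_le _ _).trans (Finset.sum_le_sum fun j _ => ?_)
          refine (norm_sum_le _ _).trans (Finset.sum_le_sum fun l _ => ?_)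
          rw [norm_mul, norm_mul]
          have e1 : ‖x j‖ ≤ ‖u‖ := (norm_le_pi_norm x j).trans hx
          have e2 : ‖v l‖ ≤ ‖v‖ := norm_le_pi_norm v l
          exact mul_le_mul (mul_le_mul e1 (hM j l) (norm_nonneg _) (norm_nonneg _)) e2
            (norm_nonneg _) (by positivity)
      _ = (2 * n : ℕ) * (2 * n : ℕ) * δ * ‖u‖ * ‖v‖ := by
          simp only [Finset.sum_const, Finset.card_univ, Fintype.card_fin, nsmul_eq_mul]
          ring
  have hsub : ∀ M M' : Matrix (Fin (2 * n)) (Fin (2 * n)) ℂ, ∀ x : CV n,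
      (∑ j, ∑ l, x j * M j l * v l) - (∑ j, ∑ l, x j * M' j l * v l) =
      ∑ j, ∑ l, x j * (M - M') j l * v l := by
    intro M M' x
    rw [← Finset.sum_sub_distrib]
    refine Finset.sum_congr rfl fun j _ => ?_
    rw [← Finset.sum_sub_distrib]
    refine Finset.sum_congr rfl fun l _ => ?_
    rw [Matrix.sub_apply]; ring
  have hK := key (κᴴ * h - κ'ᴴ * h') u (fun j l => by rw [Matrix.sub_apply]; exact h2 j l) le_rfl
  rw [← hsub, ← hf_K_eq, ← hf_K_eq] at hK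
  fin_cases a
  · show |(hf h (Complex.I • (κ *ᵥ star u)) v).re -
      (hf h' (Complex.I • (κ' *ᵥ star u)) v).re| ≤ _
    rw [← Complex.sub_re]
    refine (Complex.abs_re_le_norm _).trans ?_
    rw [hf_smul_left, hf_smul_left, ← mul_sub, norm_mul, Complex.norm_conj, Complex.norm_I,
      one_mul]
    exact hK
  · show |(hf h (Complex.I • u) v).re - (hf h' (Complex.I • u) v).re| ≤ _
    rw [← Complex.sub_re]
    refine (Complex.abs_re_le_norm _).trans ?_
    rw [hf_smul_left, hf_smul_left, ← mul_sub, norm_mul, Complex.norm_conj, Complex.norm_I,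
      one_mul]
    have e1 := key (h - h') (star u) (fun j l => by rw [Matrix.sub_apply]; exact h1 j l)
      (le_of_eq (norm_star u))
    rw [← hsub] at e1
    rw [hf_eq, hf_eq]
    exact e1
  · show |(hf h (κ *ᵥ star u) v).re - (hf h' (κ' *ᵥ star u) v).re| ≤ _
    rw [← Complex.sub_re]
    exact (Complex.abs_re_le_norm _).trans hK

end Pool.Agent.LV31
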