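import Pool.Agent.LV31.HKM3

/-!
# LV31/HKM4 : compactness of the set of linear hyperkähler structures
-/

set_option autoImplicit false
set_option linter.unusedSectionVars false

open Matrix Finset Filter Topology Pool.Agent.SYM

noncomputable section

namespace Pool.Agent.LV31

variable {n : ℕ}

/-- The norm as an absolute value. -/
def nabv : AbsoluteValue ℂ ℝ where
  toFun := norm
  map_mul' := norm_mul
  nonneg' := norm_nonneg
  eq_zero' _ := norm_eq_zero
  add_le' := norm_add_le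

theorem norm_det_le {m : ℕ} {A : Matrix (Fin m) (Fin m) ℂ} {x : ℝ} (hx : ∀ i j, ‖A i j‖ ≤ x) :
    ‖A.det‖ ≤ m.factorial * x ^ m := by
  have h := Matrix.det_le (abv := nabv) (A := A) (x := x) hx
  rw [Fintype.card_fin, nsmul_eq_mul] at h
  exact h

/-- The bound of the trace of the inverse. -/
def Lam (n : ℕ) (K a : ℝ) : ℝ := (2 * n : ℕ) * ((2 * n).factorial * (max K 1) ^ (2 * n) / a)

theorem trace_inv_le {h : Matrix (Fin (2 * n)) (Fin (2 * n)) ℂ} {K a : ℝ} (ha : 0 < a)
    (hK : ∀ i j, ‖h i j‖ ≤ K) (hdet : a ≤ ‖h.det‖) :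
    (Matrix.trace h⁻¹).re ≤ Lam n K a := by
  have h0 : 0 < ‖h.det‖ := lt_of_lt_of_le ha hdet
  have h1 : ∀ i, ‖h⁻¹ i i‖ ≤ (2 * n).factorial * (max K 1) ^ (2 * n) / a := by
    intro i
    rw [Matrix.inv_def, Matrix.smul_apply, Ring.inverse_eq_inv', smul_eq_mul, norm_mul, norm_inv,
      Matrix.adjugate_apply]
    have h2 : ‖(h.updateRow i (Pi.single i 1)).det‖ ≤
        (2 * n).factorial * (max K 1) ^ (2 * n) := by
      apply norm_det_le
      intro b c
      by_cases hb : b = i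
      · subst hb
        rw [Matrix.updateRow_self, Pi.single_apply]
        split_ifs
        · simp
        · simp
      · rw [Matrix.updateRow_ne hb]
        exact (hK b c).trans (le_max_left _ _)
    rw [inv_mul_eq_div]
    calc ‖(h.updateRow i (Pi.single i 1)).det‖ / ‖h.det‖
        ≤ (2 * n).factorial * (max K 1) ^ (2 * n) / ‖h.det‖ :=
          div_le_div_of_nonneg_right h2 h0.le
      _ ≤ (2 * n).factorial * (max K 1) ^ (2 * n) / a := by
          apply div_le_div_of_nonneg_left _ ha hdet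
          positivity
  calc (Matrix.trace h⁻¹).re ≤ ‖Matrix.trace h⁻¹‖ := Complex.re_le_norm _
    _ ≤ ∑ i, ‖h⁻¹ i i‖ := norm_sum_le _ _
    _ ≤ ∑ _i : Fin (2 * n), ((2 * n).factorial * (max K 1) ^ (2 * n) / a) :=
        Finset.sum_le_sum fun i _ => h1 i
    _ = Lam n K a := by
        rw [Finset.sum_const, Finset.card_univ, Fintype.card_fin, nsmul_eq_mul, Lam]

theorem tendsto_mul_entry {α : Type} {l : Filter α} {m : ℕ}
    {X Y : α → Matrix (Fin m) (Fin m) ℂ} {X' Y' : Matrix (Fin m) (Fin m) ℂ}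
    (hX : ∀ i j, Tendsto (fun k => X k i j) l (𝓝 (X' i j)))
    (hY : ∀ i j, Tendsto (fun k => Y k i j) l (𝓝 (Y' i j))) (i j : Fin m) :
    Tendsto (fun k => (X k * Y k) i j) l (𝓝 ((X' * Y') i j)) := by
  simp only [Matrix.mul_apply]
  exact tendsto_finsetSum _ fun a _ => (hX i a).mul (hY a j)

theorem tendsto_ct_entry {α : Type} {l : Filter α} {m : ℕ}
    {X : α → Matrix (Fin m) (Fin m) ℂ} {X' : Matrix (Fin m) (Fin m) ℂ}
    (hX : ∀ i j, Tendsto (fun k => X k i j) l (𝓝 (X' i j))) (i j : Fin m) :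
    Tendsto (fun k => (X k)ᴴ i j) l (𝓝 (X'ᴴ i j)) := by
  simp only [Matrix.conjTranspose_apply]
  exact (continuous_star.tendsto _).comp (hX j i)

theorem HKM.limit {h κ : ℕ → Matrix (Fin (2 * n)) (Fin (2 * n)) ℂ}
    {h' κ' : Matrix (Fin (2 * n)) (Fin (2 * n)) ℂ} {Λ : ℝ}
    (hh : ∀ i j, Tendsto (fun k => h k i j) atTop (𝓝 (h' i j)))
    (hκ : ∀ i j, Tendsto (fun k => κ k i j) atTop (𝓝 (κ' i j)))
    (hk : ∀ᶠ k in atTop, HKM (h k) (κ k))
    (hΛ : ∀ᶠ k in atTop, ∀ v : CV n, nsq v ≤ Λ * (hf (h k) v v).re) : HKM h' κ' := by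
  refine ⟨?_, ?_, ?_, ?_⟩
  · ext i j
    refine tendsto_nhds_unique (tendsto_ct_entry hh i j) ?_
    refine (hh i j).congr' ?_
    filter_upwards [hk] with k hk
    rw [hk.herm]
  · intro v hv
    have h1 : Tendsto (fun k => (hf (h k) v v).re) atTop (𝓝 (hf h' v v).re) := by
      refine (Complex.continuous_re.tendsto _).comp ?_
      simp only [hf_eq]
      exact tendsto_finsetSum _ fun a _ => tendsto_finsetSum _ fun b _ =>
        (tendsto_const_nhds.mul (hh a b)).mul tendsto_const_nhds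
    have h2 : nsq v ≤ Λ * (hf h' v v).re := by
      refine ge_of_tendsto (h1.const_mul Λ) ?_
      filter_upwards [hΛ] with k hk
      exact hk v
    have h3 : 0 < nsq v := by
      obtain ⟨i, hi⟩ := Function.ne_iff.1 hv
      refine Finset.sum_pos' (fun _ _ => by positivity) ⟨i, Finset.mem_univ _, ?_⟩
      have := norm_pos_iff.2 hi
      positivity
    have h4 : 0 ≤ (hf h' v v).re := by
      refine ge_of_tendsto h1 ?_
      filter_upwards [hk] with k hk
      exact hk.hf_nonneg v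
    rcases h4.lt_or_eq with h5 | h5
    · exact h5
    · rw [← h5, mul_zero] at h2
      linarith
  · ext i j
    have h1 : Tendsto (fun k => (κ k * (κ k).map (starRingEnd ℂ)) i j) atTop
        (𝓝 ((κ' * κ'.map (starRingEnd ℂ)) i j)) := by
      refine tendsto_mul_entry hκ (Y := fun k => (κ k).map (starRingEnd ℂ)) ?_ i j
      intro a b
      exact (continuous_star.tendsto _).comp (hκ a b)
    refine tendsto_nhds_unique h1 (tendsto_const_nhds.congr' ?_)
    filter_upwards [hk] with k hk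
    rw [hk.sq]
  · ext i j
    have h1 : Tendsto (fun k => ((κ k)ᴴ * h k * κ k) i j) atTop
        (𝓝 ((κ'ᴴ * h' * κ') i j)) :=
      tendsto_mul_entry (tendsto_mul_entry (tendsto_ct_entry hκ) hh) hκ i j
    refine tendsto_nhds_unique h1 ?_
    refine (hh j i).congr' ?_
    filter_upwards [hk] with k hk
    rw [hk.iso, Matrix.transpose_apply]

/-- Bounded sequences of pairs of matrices have convergent subsequences. -/
theorem exists_subseq {m : ℕ} (X Y : ℕ → Matrix (Fin m) (Fin m) ℂ) (C : ℝ)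
    (hX : ∀ k i j, ‖X k i j‖ ≤ C) (hY : ∀ k i j, ‖Y k i j‖ ≤ C) :
    ∃ (X' Y' : Matrix (Fin m) (Fin m) ℂ) (s : ℕ → ℕ), StrictMono s ∧
      (∀ i j, Tendsto (fun k => X (s k) i j) atTop (𝓝 (X' i j))) ∧
      ∀ i j, Tendsto (fun k => Y (s k) i j) atTop (𝓝 (Y' i j)) := by
  let Z : ℕ → (Fin m → Fin m → ℂ) × (Fin m → Fin m → ℂ) := fun k => (X k, Y k)
  have hZ : ∀ k, Z k ∈ Metric.closedBall
      (0 : (Fin m → Fin m → ℂ) × (Fin m → Fin m → ℂ)) (max C 0) := by
    intro k
    rw [mem_closedBall_zero_iff, Prod.norm_def]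
    have hC0 : 0 ≤ max C 0 := le_max_right _ _
    refine max_le ?_ ?_
    · exact (pi_norm_le_iff_of_nonneg hC0).2 fun i => (pi_norm_le_iff_of_nonneg hC0).2 fun j =>
        (hX k i j).trans (le_max_left _ _)
    · exact (pi_norm_le_iff_of_nonneg hC0).2 fun i => (pi_norm_le_iff_of_nonneg hC0).2 fun j =>
        (hY k i j).trans (le_max_left _ _)
  obtain ⟨Z', -, s, hs, hlim⟩ := (isCompact_closedBall _ _).tendsto_subseq hZ
  refine ⟨Z'.1, Z'.2, s, hs, ?_, ?_⟩
  · intro i j
    have h1 : Tendsto (fun k => (Z (s k)).1) atTop (𝓝 Z'.1) :=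
      (continuous_fst.tendsto _).comp hlim
    have h2 := (tendsto_pi_nhds.1 h1) i
    exact (tendsto_pi_nhds.1 h2) j
  · intro i j
    have h1 : Tendsto (fun k => (Z (s k)).2) atTop (𝓝 Z'.2) :=
      (continuous_snd.tendsto _).comp hlim
    have h2 := (tendsto_pi_nhds.1 h1) i
    exact (tendsto_pi_nhds.1 h2) j

end Pool.Agent.LV31
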