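import Pool.Agent.LV31.MaxP

/-!
# LV31/Hol : the estimate for the holomorphic symplectic form
-/

set_option autoImplicit false
set_option linter.unusedSectionVars false

open Matrix Finset Filter Topology

noncomputable section

namespace Pool.Agent.LV31

variable {m : ℕ}

theorem differentiableAt_complex {f : (Fin m → ℂ) → ℂ} {w : Fin m → ℂ}
    (hf : DifferentiableAt ℝ f w) (h0 : ∀ q, wdb q f w = 0) : DifferentiableAt ℂ f w := by
  have h1 : HasFDerivAt f (fderiv ℝ f w) w := hf.hasFDerivAt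
  let L : (Fin m → ℂ) →L[ℂ] ℂ :=
    ∑ r, wd r f w • ContinuousLinearMap.proj (R := ℂ) (φ := fun _ : Fin m => ℂ) r
  have h2 : L.restrictScalars ℝ = fderiv ℝ f w := by
    ext v
    rw [fderiv_eq_wd]
    simp only [h0, mul_zero, add_zero]
    show L v = _
    simp only [L, _root_.sum_apply, _root_.smul_apply,
      ContinuousLinearMap.proj_apply, smul_eq_mul]
    exact Finset.sum_congr rfl fun r _ => mul_comm _ _
  exact (hasFDerivAt_of_restrictScalars ℝ h1 h2).differentiableAt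

theorem hol_sub_le {f : (Fin m → ℂ) → ℂ} {r M : ℝ} (hM : 0 ≤ M)
    (hf : ∀ w ∈ Metric.ball (0 : Fin m → ℂ) r, DifferentiableAt ℂ f w)
    (hb : ∀ w ∈ Metric.ball (0 : Fin m → ℂ) r, ‖f w‖ ≤ M)
    {w : Fin m → ℂ} (hw : w ∈ Metric.ball (0 : Fin m → ℂ) r) :
    ‖f w - f 0‖ ≤ (2 * M + 1) / r * ‖w‖ := by
  have hwr : ‖w‖ < r := mem_ball_zero_iff.1 hw
  have hr : 0 < r := lt_of_le_of_lt (norm_nonneg _) hwr
  by_cases h0 : w = 0
  · subst h0; simp
  have hn : 0 < ‖w‖ := norm_pos_iff.2 h0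
  set u : Fin m → ℂ := (‖w‖⁻¹ : ℂ) • w with hu
  have hu1 : ‖u‖ = 1 := by
    rw [hu, norm_smul, norm_inv, Complex.norm_real, norm_norm, inv_mul_cancel₀ hn.ne']
  have hball : ∀ t ∈ Metric.ball (0 : ℂ) r, t • u ∈ Metric.ball (0 : Fin m → ℂ) r := by
    intro t ht
    rw [mem_ball_zero_iff, norm_smul, hu1, mul_one]
    exact mem_ball_zero_iff.1 ht
  have hd : DifferentiableOn ℂ (fun t : ℂ => f (t • u)) (Metric.ball 0 r) := by
    intro t ht
    have h1 := hf _ (hball t ht)
    have h2 : DifferentiableAt ℂ (fun t : ℂ => t • u) t :=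
      differentiableAt_id.smul_const u
    exact (DifferentiableAt.comp (g := f) t h1 h2).differentiableWithinAt
  have hmaps : Set.MapsTo (fun t : ℂ => f (t • u)) (Metric.ball 0 r)
      (Metric.ball ((fun t : ℂ => f (t • u)) 0) (2 * M + 1)) := by
    intro t ht
    rw [Metric.mem_ball, dist_eq_norm]
    have h1 := hb _ (hball t ht)
    have h2 := hb _ (hball 0 (Metric.mem_ball_self hr))
    calc ‖f (t • u) - f ((0 : ℂ) • u)‖ ≤ ‖f (t • u)‖ + ‖f ((0 : ℂ) • u)‖ := norm_sub_le _ _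
      _ ≤ M + M := add_le_add h1 h2
      _ < 2 * M + 1 := by linarith
  have hz : (‖w‖ : ℂ) ∈ Metric.ball (0 : ℂ) r := by
    rw [mem_ball_zero_iff, Complex.norm_real, norm_norm]
    exact hwr
  have h1 := Complex.dist_le_div_mul_dist_of_mapsTo_ball hd
    (hmaps.mono_right Metric.ball_subset_closedBall) hz
  have h2 : ((‖w‖ : ℂ)) • u = w := by
    rw [hu, smul_smul, mul_inv_cancel₀ (by exact_mod_cast hn.ne'), one_smul]
  rw [dist_eq_norm, dist_zero_right, Complex.norm_real, norm_norm] at h1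
  simp only [h2, zero_smul] at h1
  exact h1

end Pool.Agent.LV31
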