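import Pool.Agent.LV31.Frame

/-!
# LV31/Point : the inequalities of Calabi at a point
-/

set_option autoImplicit false
set_option linter.unusedSectionVars false

open Matrix Finset

noncomputable section

namespace Pool.Agent.LV31

variable {ι R : Type} [Fintype ι] [DecidableEq ι] [CommRing R]

/-- The evaluation of the Wirtinger calculus at a point. -/
structure Pt (A : DR ι R) (h H : Matrix ι ι R) (ev : R →+* ℂ) (F G : Matrix ι ι ℂ) : Prop where
  met : A.Met h H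
  ev_c : ∀ x, ev (A.c x) = starRingEnd ℂ (ev x)
  frame : Frame (h.map ev) (H.map ev) F G

/-- The components of the value of a family. -/
def cmp (ev : R →+* ℂ) (F G : Matrix ι ι ℂ) (X : ι → Matrix ι ι R) : ι × ι × ι → ℂ :=
  vec F G fun p => (X p).map ev

namespace Pt

variable {A : DR ι R} {h H : Matrix ι ι R} {ev : R →+* ℂ} {F G : Matrix ι ι ℂ}
variable (P : Pt A h H ev F G)

include P

theorem ev_ct (X : Matrix ι ι R) : (A.ct X).map ev = (X.map ev)ᴴ := by
  ext i j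
  simp only [Matrix.map_apply, DR.ct_apply, P.ev_c, Matrix.conjTranspose_apply]
  rfl

omit P in
theorem map_mul' (X Y : Matrix ι ι R) : (X * Y).map ev = X.map ev * Y.map ev :=
  Matrix.map_mul

omit P in
theorem ev_trace (X : Matrix ι ι R) : ev (Matrix.trace X) = Matrix.trace (X.map ev) := by
  simp [Matrix.trace]

theorem ev_B (X Y : ι → Matrix ι ι R) : ev (A.B h H X Y) = ip (cmp ev F G X) (cmp ev F G Y) := by
  rw [cmp, cmp, ← ip_vec P.frame]
  simp only [DR.B, map_sum, map_mul, ev_trace, map_mul', P.ev_ct]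
  rfl

theorem H_apply (r s : ι) : ev (H r s) = ∑ c, F r c * starRingEnd ℂ (F s c) := by
  have h1 : (H.map ev) r s = (F * Fᴴ) r s := by rw [P.frame.H_eq]
  rw [Matrix.map_apply, Matrix.mul_apply] at h1
  rw [h1]
  exact Finset.sum_congr rfl fun c _ => by rw [Matrix.conjTranspose_apply]; rfl

/-- Sesquilinear expressions in the frame. -/
theorem sum_H (a b : ι → ℂ) : ∑ r, ∑ s, ev (H r s) * (a r * starRingEnd ℂ (b s)) =
    ∑ c, (∑ r, F r c * a r) * starRingEnd ℂ (∑ s, F s c * b s) := by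
  have h1 : ∀ c, (∑ r, F r c * a r) * starRingEnd ℂ (∑ s, F s c * b s) =
      ∑ r, ∑ s, F r c * starRingEnd ℂ (F s c) * (a r * starRingEnd ℂ (b s)) := by
    intro c
    rw [map_sum, Finset.sum_mul]
    refine Finset.sum_congr rfl fun r _ => ?_
    rw [Finset.mul_sum]
    refine Finset.sum_congr rfl fun s _ => ?_
    rw [map_mul]; ring
  simp only [h1, P.H_apply, Finset.sum_mul]
  symm
  rw [Finset.sum_comm]
  refine Finset.sum_congr rfl fun r _ => ?_
  rw [Finset.sum_comm]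

/-- `|Γ|²`. -/
theorem ev_S : ev (A.B h H (A.Gam h H) (A.Gam h H)) = (ns (cmp ev F G (A.Gam h H)) : ℝ) := by
  rw [P.ev_B, ip_self]

/-- The derivative of `Γ` in the direction of the `c`-th frame vector. -/
def dirD (_ : Pt A h H ev F G) (c : ι) (t : ι × ι × ι) : ℂ :=
  ∑ r, F r c * cmp ev F G (A.D h H r (A.Gam h H)) t

/-- The conjugate derivative of `Γ` in the direction of the `c`-th frame vector. -/
def dirE (_ : Pt A h H ev F G) (c : ι) (t : ι × ι × ι) : ℂ :=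
  ∑ s, starRingEnd ℂ (F s c) * cmp ev F G (A.E s (A.Gam h H)) t

theorem dir_S (c : ι) : ∑ r, F r c * ev (A.d r (A.B h H (A.Gam h H) (A.Gam h H))) =
    ip (P.dirD c) (cmp ev F G (A.Gam h H)) + ip (cmp ev F G (A.Gam h H)) (P.dirE c) := by
  have h1 : ip (P.dirD c) (cmp ev F G (A.Gam h H)) =
      ∑ r, F r c * ip (cmp ev F G (A.D h H r (A.Gam h H))) (cmp ev F G (A.Gam h H)) :=
    ip_sum_left _ _ _ _
  have h2 : ip (cmp ev F G (A.Gam h H)) (P.dirE c) =
      ∑ r, F r c * ip (cmp ev F G (A.Gam h H)) (cmp ev F G (A.E r (A.Gam h H))) := by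
    have := ip_sum_right Finset.univ (fun s => starRingEnd ℂ (F s c))
      (cmp ev F G (A.Gam h H)) (fun s => cmp ev F G (A.E s (A.Gam h H)))
    simp only [Complex.conj_conj] at this
    exact this
  rw [h1, h2, ← Finset.sum_add_distrib]
  refine Finset.sum_congr rfl fun r _ => ?_
  rw [P.met.d_B, map_add, P.ev_B, P.ev_B]
  ring

theorem norm_dir_S (c : ι) :
    ‖∑ r, F r c * ev (A.d r (A.B h H (A.Gam h H) (A.Gam h H)))‖ ^ 2 ≤
      2 * ns (cmp ev F G (A.Gam h H)) * (ns (P.dirD c) + ns (P.dirE c)) := by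
  rw [P.dir_S]
  have h1 := ip_le (P.dirD c) (cmp ev F G (A.Gam h H))
  have h2 := ip_le (cmp ev F G (A.Gam h H)) (P.dirE c)
  set x := ip (P.dirD c) (cmp ev F G (A.Gam h H))
  set y := ip (cmp ev F G (A.Gam h H)) (P.dirE c)
  have h3 : ‖x + y‖ ≤ ‖x‖ + ‖y‖ := norm_add_le _ _
  have h4 : ‖x + y‖ ^ 2 ≤ (‖x‖ + ‖y‖) ^ 2 := pow_le_pow_left₀ (norm_nonneg _) h3 2
  nlinarith [sq_nonneg (‖x‖ - ‖y‖)]

theorem ev_lap_S : ev (A.lap H (A.B h H (A.Gam h H) (A.Gam h H))) =
    ((∑ c, (ns (P.dirD c) + ns (P.dirE c)) : ℝ) : ℂ) := by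
  rw [P.met.lap_S]
  simp only [map_sum, map_mul, map_add, P.ev_B, mul_add, Finset.sum_add_distrib]
  rw [Complex.ofReal_add]
  have h1 : ∑ r, ∑ s, ev (H r s) * ip (cmp ev F G (A.D h H r (A.Gam h H)))
      (cmp ev F G (A.D h H s (A.Gam h H))) = ((∑ c, ns (P.dirD c) : ℝ) : ℂ) := by
    have h2 : ∀ c, ((ns (P.dirD c) : ℝ) : ℂ) = ∑ r, ∑ s, F r c * starRingEnd ℂ (F s c) *
        ip (cmp ev F G (A.D h H r (A.Gam h H))) (cmp ev F G (A.D h H s (A.Gam h H))) := by
      intro c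
      rw [← ip_self]
      have h3 : ip (P.dirD c) (P.dirD c) = ∑ r, F r c *
          ip (cmp ev F G (A.D h H r (A.Gam h H))) (P.dirD c) := ip_sum_left _ _ _ _
      rw [h3]
      refine Finset.sum_congr rfl fun r _ => ?_
      have h4 : ip (cmp ev F G (A.D h H r (A.Gam h H))) (P.dirD c) =
          ∑ s, starRingEnd ℂ (F s c) * ip (cmp ev F G (A.D h H r (A.Gam h H)))
            (cmp ev F G (A.D h H s (A.Gam h H))) := ip_sum_right _ _ _ _
      rw [h4, Finset.mul_sum]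
      exact Finset.sum_congr rfl fun s _ => by ring
    simp only [Complex.ofReal_sum, h2, P.H_apply, Finset.sum_mul]
    symm
    rw [Finset.sum_comm]
    refine Finset.sum_congr rfl fun r _ => ?_
    rw [Finset.sum_comm]
  have h5 : ∑ r, ∑ s, ev (H r s) * ip (cmp ev F G (A.E s (A.Gam h H)))
      (cmp ev F G (A.E r (A.Gam h H))) = ((∑ c, ns (P.dirE c) : ℝ) : ℂ) := by
    have h2 : ∀ c, ((ns (P.dirE c) : ℝ) : ℂ) = ∑ r, ∑ s, F r c * starRingEnd ℂ (F s c) *
        ip (cmp ev F G (A.E s (A.Gam h H))) (cmp ev F G (A.E r (A.Gam h H))) := by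
      intro c
      rw [← ip_self]
      have h3 : ip (P.dirE c) (P.dirE c) = ∑ s, starRingEnd ℂ (F s c) *
          ip (cmp ev F G (A.E s (A.Gam h H))) (P.dirE c) := ip_sum_left _ _ _ _
      rw [h3, Finset.sum_comm]
      refine Finset.sum_congr rfl fun s _ => ?_
      have h4 : ip (cmp ev F G (A.E s (A.Gam h H))) (P.dirE c) =
          ∑ r, F r c * ip (cmp ev F G (A.E s (A.Gam h H)))
            (cmp ev F G (A.E r (A.Gam h H))) := by
        have := ip_sum_right Finset.univ (fun r => starRingEnd ℂ (F r c))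
          (cmp ev F G (A.E s (A.Gam h H))) (fun r => cmp ev F G (A.E r (A.Gam h H)))
        simp only [Complex.conj_conj] at this
        exact this
      rw [h4, Finset.mul_sum]
      exact Finset.sum_congr rfl fun s _ => by ring
    simp only [Complex.ofReal_sum, h2, P.H_apply, Finset.sum_mul]
    symm
    rw [Finset.sum_comm]
    refine Finset.sum_congr rfl fun r _ => ?_
    rw [Finset.sum_comm]
  rw [h1, h5]

omit P in
theorem lap_mul (y z : R) : A.lap H (y * z) = y * A.lap H z + z * A.lap H y +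
    ∑ r, ∑ s, H r s * (A.d r y * A.e s z + A.e s y * A.d r z) := by
  simp only [DR.lap, Finset.mul_sum, ← Finset.sum_add_distrib]
  refine Finset.sum_congr rfl fun r _ => Finset.sum_congr rfl fun s _ => ?_
  rw [A.d_mul, (A.e_der s).add, (A.e_der s).mul, (A.e_der s).mul]
  ring

theorem ev_e {z : R} (hz : A.c z = z) (s : ι) : ev (A.e s z) = starRingEnd ℂ (ev (A.d s z)) := by
  rw [DR.e, P.ev_c, hz]

/-- The cross terms in the frame. -/
theorem cross {y z : R} (hy : A.c y = y) (hz : A.c z = z) :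
    ev (∑ r, ∑ s, H r s * (A.d r y * A.e s z + A.e s y * A.d r z)) =
      ((∑ c, 2 * ((∑ r, F r c * ev (A.d r y)) *
        starRingEnd ℂ (∑ r, F r c * ev (A.d r z))).re : ℝ) : ℂ) := by
  have h1 : ev (∑ r, ∑ s, H r s * (A.d r y * A.e s z + A.e s y * A.d r z)) =
      ∑ r, ∑ s, ev (H r s) * (ev (A.d r y) * starRingEnd ℂ (ev (A.d s z))) +
      ∑ r, ∑ s, ev (H r s) * (ev (A.d r z) * starRingEnd ℂ (ev (A.d s y))) := by
    simp only [map_sum, map_mul, map_add, P.ev_e hy, P.ev_e hz, ← Finset.sum_add_distrib]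
    refine Finset.sum_congr rfl fun r _ => Finset.sum_congr rfl fun s _ => ?_
    ring
  rw [h1, P.sum_H, P.sum_H, ← Finset.sum_add_distrib, Complex.ofReal_sum]
  refine Finset.sum_congr rfl fun c _ => ?_
  set a := ∑ r, F r c * ev (A.d r y)
  set b := ∑ r, F r c * ev (A.d r z)
  have h2 : b * starRingEnd ℂ a = starRingEnd ℂ (a * starRingEnd ℂ b) := by
    rw [map_mul, Complex.conj_conj, mul_comm]
  rw [h2, Complex.add_conj]

/-- The cut-off inequality. -/
theorem cut {x : R} {φ κ : ℝ} (hx : A.c x = x) (hφ : ev x = φ) (h0 : 0 ≤ φ) (h1 : φ ≤ 1)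
    (hκ : 0 ≤ κ) (hd : ∑ c, ‖∑ r, F r c * ev (A.d r x)‖ ^ 2 ≤ κ)
    (hl : -κ ≤ (ev (A.lap H x)).re) :
    -(8 * κ * ns (cmp ev F G (A.Gam h H))) ≤
      (ev (A.lap H (x * x * A.B h H (A.Gam h H) (A.Gam h H)))).re := by
  have hS : A.c (A.B h H (A.Gam h H) (A.Gam h H)) = A.B h H (A.Gam h H) (A.Gam h H) :=
    P.met.c_B _ _
  have hxx : A.c (x * x) = x * x := by rw [map_mul, hx]
  have e1 := congrArg ev (lap_mul (A := A) (H := H) x x)
  rw [map_add, P.cross hx hx] at e1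
  have e2 := congrArg ev (lap_mul (A := A) (H := H) (x * x) (A.B h H (A.Gam h H) (A.Gam h H)))
  rw [map_add, P.cross hxx hS, map_add] at e2
  simp only [map_add, map_mul, hφ, P.ev_lap_S, P.ev_S] at e1 e2
  have e3 : ∀ c, ∑ r, F r c * ev (A.d r (x * x)) =
      ((2 * φ : ℝ) : ℂ) * ∑ r, F r c * ev (A.d r x) := by
    intro c
    rw [Finset.mul_sum]
    refine Finset.sum_congr rfl fun r _ => ?_
    rw [A.d_mul, map_add, map_mul, map_mul, hφ]
    push_cast
    ring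
  simp only [e3] at e2
  set S0 := ns (cmp ev F G (A.Gam h H)) with hS0
  have hS0n : 0 ≤ S0 := ns_nonneg _
  have e4 : ∀ c, ((∑ r, F r c * ev (A.d r x)) *
      starRingEnd ℂ (∑ r, F r c * ev (A.d r x))).re = ‖∑ r, F r c * ev (A.d r x)‖ ^ 2 := by
    intro c
    rw [Complex.mul_conj', ← Complex.ofReal_pow, Complex.ofReal_re]
  have e5 : (ev (A.lap H (x * x))).re = 2 * φ * (ev (A.lap H x)).re +
      ∑ c, 2 * ‖∑ r, F r c * ev (A.d r x)‖ ^ 2 := by
    rw [e1, Complex.add_re, Complex.ofReal_re]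
    simp only [e4]
    rw [Complex.add_re, Complex.re_ofReal_mul]
    ring
  rw [e2]
  have e6 : ((φ : ℂ) * φ * ((∑ c, (ns (P.dirD c) + ns (P.dirE c)) : ℝ) : ℂ) +
      (S0 : ℂ) * ev (A.lap H (x * x))).re =
      φ ^ 2 * (∑ c, (ns (P.dirD c) + ns (P.dirE c))) + S0 * (ev (A.lap H (x * x))).re := by
    rw [Complex.add_re, Complex.re_ofReal_mul, ← Complex.ofReal_mul, ← Complex.ofReal_mul,
      Complex.ofReal_re]
    ring
  rw [Complex.add_re, e6, Complex.ofReal_re, e5]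
  have e7 : ∀ c, -(8 * ‖∑ r, F r c * ev (A.d r x)‖ ^ 2 * S0) ≤
      φ ^ 2 * (ns (P.dirD c) + ns (P.dirE c)) +
      2 * (((2 * φ : ℝ) : ℂ) * (∑ r, F r c * ev (A.d r x)) * starRingEnd ℂ
        (∑ r, F r c * ev (A.d r (A.B h H (A.Gam h H) (A.Gam h H))))).re := by
    intro c
    set a := ∑ r, F r c * ev (A.d r x)
    have hu := P.norm_dir_S c
    set u := ∑ r, F r c * ev (A.d r (A.B h H (A.Gam h H) (A.Gam h H)))
    set L := ns (P.dirD c) + ns (P.dirE c) with hL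
    have hLn : 0 ≤ L := add_nonneg (ns_nonneg _) (ns_nonneg _)
    rw [mul_assoc ((2 * φ : ℝ) : ℂ) a, Complex.re_ofReal_mul]
    have e8 : |(a * starRingEnd ℂ u).re| ≤ ‖a‖ * ‖u‖ := by
      refine (Complex.abs_re_le_norm _).trans (le_of_eq ?_)
      rw [norm_mul, Complex.norm_conj]
    have e9 : -(‖a‖ * ‖u‖) ≤ (a * starRingEnd ℂ u).re := (abs_le.1 e8).1
    have e10 : 4 * φ * (‖a‖ * ‖u‖) ≤ 8 * ‖a‖ ^ 2 * S0 + φ ^ 2 * L := by
      have hs : (4 * φ * (‖a‖ * ‖u‖)) ^ 2 ≤ (8 * ‖a‖ ^ 2 * S0 + φ ^ 2 * L) ^ 2 := by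
        have q1 : (4 * φ * (‖a‖ * ‖u‖)) ^ 2 = 16 * (φ ^ 2 * ‖a‖ ^ 2) * ‖u‖ ^ 2 := by ring
        have q2 : 16 * (φ ^ 2 * ‖a‖ ^ 2) * ‖u‖ ^ 2 ≤
            16 * (φ ^ 2 * ‖a‖ ^ 2) * (2 * S0 * L) :=
          mul_le_mul_of_nonneg_left hu (by positivity)
        nlinarith [sq_nonneg (8 * ‖a‖ ^ 2 * S0 - φ ^ 2 * L)]
      exact le_of_sq_le_sq hs (by positivity)
    nlinarith [mul_le_mul_of_nonneg_left e9 (show 0 ≤ 4 * φ by positivity)]
  have e11 := Finset.sum_le_sum (s := Finset.univ) fun c _ => e7 c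
  rw [Finset.sum_add_distrib, ← Finset.mul_sum, Finset.sum_neg_distrib] at e11
  have e12 : ∑ c, 8 * ‖∑ r, F r c * ev (A.d r x)‖ ^ 2 * S0 =
      8 * S0 * ∑ c, ‖∑ r, F r c * ev (A.d r x)‖ ^ 2 := by
    rw [Finset.mul_sum]
    exact Finset.sum_congr rfl fun c _ => by ring
  rw [e12] at e11
  have e13 : ∑ c, 2 * ‖∑ r, F r c * ev (A.d r x)‖ ^ 2 =
      2 * ∑ c, ‖∑ r, F r c * ev (A.d r x)‖ ^ 2 := by rw [Finset.mul_sum]
  rw [e13]
  set Q := ∑ c, ‖∑ r, F r c * ev (A.d r x)‖ ^ 2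
  have e14 : -κ ≤ φ * (ev (A.lap H x)).re := by nlinarith
  have e15 : S0 * Q ≤ S0 * κ := mul_le_mul_of_nonneg_left hd hS0n
  have e16 : S0 * (-κ) ≤ S0 * (φ * (ev (A.lap H x)).re) :=
    mul_le_mul_of_nonneg_left e14 hS0n
  nlinarith

omit P in
theorem sum_sq_matrix (X : Matrix ι ι ℂ) :
    ((∑ a, ∑ b, ‖X a b‖ ^ 2 : ℝ) : ℂ) = Matrix.trace (X * Xᴴ) := by
  rw [trace_mul_conjTranspose]
  push_cast
  exact Finset.sum_congr rfl fun a _ => Finset.sum_congr rfl fun b _ => by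
    rw [Complex.mul_conj']

theorem GH : G * H.map ev = Fᴴ := by
  rw [P.frame.H_eq, ← mul_assoc, P.frame.GF, one_mul]

/-- `Γ` in the frame. -/
theorem cmp_Gam (c a b : ι) : cmp ev F G (A.Gam h H) (c, a, b) =
    (Fᴴ * (∑ p, F p c • (h.map (A.d p)).map ev) * F) a b := by
  have h1 : ∑ p, F p c • (G * (A.Gam h H p).map ev * F) =
      Fᴴ * (∑ p, F p c • (h.map (A.d p)).map ev) * F := by
    rw [Finset.mul_sum, Finset.sum_mul]
    refine Finset.sum_congr rfl fun p _ => ?_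
    rw [DR.Gam, map_mul', ← mul_assoc, P.GH, Matrix.mul_smul, Matrix.smul_mul]
  rw [← h1]
  rfl

theorem ev_lap_trace : (ev (A.lap H (Matrix.trace h))).re =
    ∑ c, ∑ a, ∑ b, ‖(Fᴴ * (∑ p, F p c • (h.map (A.d p)).map ev)) a b‖ ^ 2 := by
  have h1 : ev (A.lap H (Matrix.trace h)) =
      ((∑ c, ∑ a, ∑ b, ‖(Fᴴ * (∑ p, F p c • (h.map (A.d p)).map ev)) a b‖ ^ 2 : ℝ) : ℂ) := by
    rw [P.met.lap_trace, Complex.ofReal_sum]
    simp only [sum_sq_matrix, map_sum, map_mul, ev_trace, map_mul', P.ev_ct]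
    have h2 : ∀ c, Matrix.trace ((Fᴴ * ∑ p, F p c • (h.map (A.d p)).map ev) *
        (Fᴴ * ∑ p, F p c • (h.map (A.d p)).map ev)ᴴ) =
        ∑ p, ∑ q, F p c * starRingEnd ℂ (F q c) *
          Matrix.trace (((h.map (A.d q)).map ev)ᴴ * H.map ev * (h.map (A.d p)).map ev) := by
      intro c
      rw [Matrix.conjTranspose_mul, Matrix.conjTranspose_conjTranspose, Matrix.trace_mul_comm]
      have h3 : (∑ p, F p c • (h.map (A.d p)).map ev)ᴴ * F *
          (Fᴴ * ∑ p, F p c • (h.map (A.d p)).map ev) =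
          (∑ p, F p c • (h.map (A.d p)).map ev)ᴴ * H.map ev *
            ∑ p, F p c • (h.map (A.d p)).map ev := by
        rw [P.frame.H_eq]; simp only [mul_assoc]
      rw [h3, Finset.mul_sum, Matrix.trace_sum]
      refine Finset.sum_congr rfl fun p _ => ?_
      rw [Matrix.conjTranspose_sum, Finset.sum_mul, Finset.sum_mul, Matrix.trace_sum]
      refine Finset.sum_congr rfl fun q _ => ?_
      rw [Matrix.conjTranspose_smul, Matrix.smul_mul, Matrix.smul_mul, Matrix.mul_smul,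
        Matrix.trace_smul, Matrix.trace_smul, smul_eq_mul, smul_eq_mul]
      rw [show star (F q c) = starRingEnd ℂ (F q c) from rfl]
      ring
    simp only [h2, P.H_apply, Finset.sum_mul]
    symm
    rw [Finset.sum_comm]
    refine Finset.sum_congr rfl fun r _ => ?_
    rw [Finset.sum_comm]
  rw [h1, Complex.ofReal_re]

/-- `|Γ|²` is bounded by the Laplacian of the trace. -/
theorem ns_le : ns (cmp ev F G (A.Gam h H)) ≤
    (Matrix.trace (H.map ev)).re * (ev (A.lap H (Matrix.trace h))).re := by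
  rw [P.ev_lap_trace, Finset.mul_sum]
  simp only [ns, Fintype.sum_prod_type, P.cmp_Gam]
  exact Finset.sum_le_sum fun c _ => P.frame.mul_F_le _

/-- `|Γ|²` bounds the derivatives of `h`. -/
theorem deriv_le (p j l : ι) : ‖ev (A.d p (h j l))‖ ^ 2 ≤ ns (cmp ev F G (A.Gam h H)) *
    ((ev (h p p)).re * (ev (h j j)).re * (ev (h l l)).re) := by
  have hX : ∀ c, ∑ q, F q c • (h.map (A.d q)).map ev =
      Gᴴ * (Fᴴ * (∑ q, F q c • (h.map (A.d q)).map ev) * F) * G := by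
    intro c
    have h1 : Gᴴ * Fᴴ = 1 := by rw [← Matrix.conjTranspose_mul, P.frame.FG, conjTranspose_one]
    calc ∑ q, F q c • (h.map (A.d q)).map ev
        = (Gᴴ * Fᴴ) * (∑ q, F q c • (h.map (A.d q)).map ev) * (F * G) := by
          rw [h1, P.frame.FG, one_mul, mul_one]
      _ = _ := by simp only [mul_assoc]
  have hY : (h.map (A.d p)).map ev = ∑ c, G c p • ∑ q, F q c • (h.map (A.d q)).map ev := by
    simp only [Finset.smul_sum, smul_smul]
    rw [Finset.sum_comm]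
    have h2 : ∀ q, ∑ c, (G c p * F q c) • (h.map (A.d q)).map ev =
        (if q = p then (1 : ℂ) else 0) • (h.map (A.d q)).map ev := by
      intro q
      rw [← Finset.sum_smul]
      congr 1
      have h3 := congrFun (congrFun P.frame.FG q) p
      rw [Matrix.mul_apply, Matrix.one_apply] at h3
      rw [← h3]
      exact Finset.sum_congr rfl fun c _ => mul_comm _ _
    simp only [h2, ite_smul, one_smul, zero_smul, Finset.sum_ite_eq', Finset.mem_univ, if_true]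
  have h4 : ev (A.d p (h j l)) = ∑ t : ι × ι × ι, (G t.1 p * starRingEnd ℂ (G t.2.1 j) *
      G t.2.2 l) * cmp ev F G (A.Gam h H) t := by
    have h5 : ev (A.d p (h j l)) = ((h.map (A.d p)).map ev) j l := rfl
    rw [h5, hY, Matrix.sum_apply, Fintype.sum_prod_type]
    refine Finset.sum_congr rfl fun c _ => ?_
    rw [Matrix.smul_apply, hX c, Fintype.sum_prod_type, smul_eq_mul]
    simp only [P.cmp_Gam]
    rw [Matrix.mul_apply]
    simp only [Matrix.mul_apply (M := Gᴴ), Finset.sum_mul, Finset.mul_sum]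
    rw [Finset.sum_comm]
    refine Finset.sum_congr rfl fun a _ => Finset.sum_congr rfl fun b _ => ?_
    rw [Matrix.conjTranspose_apply, show star (G a j) = starRingEnd ℂ (G a j) from rfl]
    ring
  rw [h4]
  have h6 : ‖∑ t : ι × ι × ι, (G t.1 p * starRingEnd ℂ (G t.2.1 j) *
      G t.2.2 l) * cmp ev F G (A.Gam h H) t‖ ≤
      ∑ t : ι × ι × ι, (‖G t.1 p‖ * ‖G t.2.1 j‖ * ‖G t.2.2 l‖) *
        ‖cmp ev F G (A.Gam h H) t‖ := by
    refine (norm_sum_le _ _).trans (le_of_eq ?_)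
    exact Finset.sum_congr rfl fun t _ => by
      rw [norm_mul, norm_mul, norm_mul, Complex.norm_conj]
  have h7 : ∑ t : ι × ι × ι, (‖G t.1 p‖ * ‖G t.2.1 j‖ * ‖G t.2.2 l‖) ^ 2 =
      (ev (h p p)).re * (ev (h j j)).re * (ev (h l l)).re := by
    have g1 := P.frame.sum_G
    simp only [Matrix.map_apply] at g1
    rw [← g1 p, ← g1 j, ← g1 l]
    simp only [Fintype.sum_prod_type, mul_pow]
    rw [Finset.sum_mul_sum, Finset.sum_mul]
    refine Finset.sum_congr rfl fun a _ => ?_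
    rw [Finset.sum_mul_sum]
  calc ‖∑ t : ι × ι × ι, (G t.1 p * starRingEnd ℂ (G t.2.1 j) *
      G t.2.2 l) * cmp ev F G (A.Gam h H) t‖ ^ 2
      ≤ (∑ t : ι × ι × ι, (‖G t.1 p‖ * ‖G t.2.1 j‖ * ‖G t.2.2 l‖) *
        ‖cmp ev F G (A.Gam h H) t‖) ^ 2 := pow_le_pow_left₀ (norm_nonneg _) h6 2
    _ ≤ (∑ t : ι × ι × ι, (‖G t.1 p‖ * ‖G t.2.1 j‖ * ‖G t.2.2 l‖) ^ 2) *
        ∑ t : ι × ι × ι, ‖cmp ev F G (A.Gam h H) t‖ ^ 2 :=
          Finset.sum_mul_sq_le_sq_mul_sq _ _ _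
    _ = _ := by rw [h7, mul_comm]; rfl

end Pt

end Pool.Agent.LV31
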