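import Pool.Agent.LV31.Wirt
import Pool.Agent.LV31.Point

/-!
# LV31/Loc : hyperkähler metrics on open subsets of `ℂ^m` and their germs
-/

set_option autoImplicit false
set_option linter.unusedSectionVars false

open Matrix Finset Filter Topology

noncomputable section

namespace Pool.Agent.LV31

variable {m : ℕ}

/-- `∂f/∂z_r` at `w`. -/
def wd (r : Fin m) (f : (Fin m → ℂ) → ℂ) (w : Fin m → ℂ) : ℂ :=
  1 / 2 * (fderiv ℝ f w (bv r) - Complex.I * fderiv ℝ f w (Complex.I • bv r))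

/-- `∂f/∂zbar_r` at `w`. -/
def wdb (r : Fin m) (f : (Fin m → ℂ) → ℂ) (w : Fin m → ℂ) : ℂ :=
  1 / 2 * (fderiv ℝ f w (bv r) + Complex.I * fderiv ℝ f w (Complex.I • bv r))

theorem Sm.wd {f : (Fin m → ℂ) → ℂ} {p : Fin m → ℂ} (hf : Sm f p) (r : Fin m) :
    Sm (wd r f) p :=
  (contDiffAt_const (c := (1 / 2 : ℂ))).mul ((hf.fderiv (bv r)).sub
    ((contDiffAt_const (c := Complex.I)).mul (hf.fderiv (Complex.I • bv r))))

theorem Sm.wdb {f : (Fin m → ℂ) → ℂ} {p : Fin m → ℂ} (hf : Sm f p) (r : Fin m) :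
    Sm (wdb r f) p :=
  (contDiffAt_const (c := (1 / 2 : ℂ))).mul ((hf.fderiv (bv r)).add
    ((contDiffAt_const (c := Complex.I)).mul (hf.fderiv (Complex.I • bv r))))

namespace SG

variable {p : Fin m → ℂ}

theorem dz_mk (r : Fin m) {f : (Fin m → ℂ) → ℂ} (hf : Sm f p) :
    (wirt p).d r (mk f hf) = mk (wd r f) (hf.wd r) := rfl

theorem mk_sum {α : Type} (s : Finset α) {f : α → (Fin m → ℂ) → ℂ} (hf : ∀ i, Sm (f i) p)
    (hs : Sm (fun w => ∑ i ∈ s, f i w) p) :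
    ∑ i ∈ s, mk (f i) (hf i) = mk (fun w => ∑ i ∈ s, f i w) hs := by
  classical
  induction s using Finset.induction_on with
  | empty =>
    rw [Finset.sum_empty]
    have h2 : (0 : SG p) = mk (fun _ => 0) contDiffAt_const := rfl
    rw [h2, mk_eq]
    exact Eventually.of_forall fun w => by simp
  | insert a s ha ih =>
    have h1 : Sm (fun w => ∑ i ∈ s, f i w) p := ContDiffAt.sum fun i _ => hf i
    rw [Finset.sum_insert ha, ih h1, mk_add, mk_eq]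
    exact Eventually.of_forall fun w => by simp [Finset.sum_insert ha]

/-- The matrix of germs of a matrix valued function. -/
def MK (X : (Fin m → ℂ) → Matrix (Fin m) (Fin m) ℂ) (hX : ∀ i j, Sm (fun w => X w i j) p) :
    Matrix (Fin m) (Fin m) (SG p) := fun i j => mk (fun w => X w i j) (hX i j)

theorem Sm_mul {X Y : (Fin m → ℂ) → Matrix (Fin m) (Fin m) ℂ}
    (hX : ∀ i j, Sm (fun w => X w i j) p) (hY : ∀ i j, Sm (fun w => Y w i j) p) :
    ∀ i j, Sm (fun w => (X w * Y w) i j) p := by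
  intro i j
  simp only [Matrix.mul_apply]
  exact ContDiffAt.sum fun k _ => (hX i k).mul (hY k j)

theorem MK_mul {X Y : (Fin m → ℂ) → Matrix (Fin m) (Fin m) ℂ}
    (hX : ∀ i j, Sm (fun w => X w i j) p) (hY : ∀ i j, Sm (fun w => Y w i j) p) :
    MK X hX * MK Y hY = MK (fun w => X w * Y w) (Sm_mul hX hY) := by
  refine Matrix.ext fun i j => ?_
  rw [Matrix.mul_apply]
  simp only [MK, mk_mul]
  rw [mk_sum _ (fun k => (hX i k).mul (hY k j)) (by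
    have := Sm_mul hX hY i j
    simpa only [Matrix.mul_apply] using this)]
  exact (mk_eq _ _).2 (Eventually.of_forall fun w => by simp [Matrix.mul_apply])

theorem Sm_ct {X : (Fin m → ℂ) → Matrix (Fin m) (Fin m) ℂ}
    (hX : ∀ i j, Sm (fun w => X w i j) p) : ∀ i j, Sm (fun w => (X w)ᴴ i j) p :=
  fun i j => Sm.conj (hX j i)

theorem MK_ct {X : (Fin m → ℂ) → Matrix (Fin m) (Fin m) ℂ}
    (hX : ∀ i j, Sm (fun w => X w i j) p) :
    (wirt p).ct (MK X hX) = MK (fun w => (X w)ᴴ) (Sm_ct hX) := rfl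

theorem MK_transpose {X : (Fin m → ℂ) → Matrix (Fin m) (Fin m) ℂ}
    (hX : ∀ i j, Sm (fun w => X w i j) p) :
    (MK X hX)ᵀ = MK (fun w => (X w)ᵀ) (fun i j => hX j i) := rfl

theorem MK_map_d (r : Fin m) {X : (Fin m → ℂ) → Matrix (Fin m) (Fin m) ℂ}
    (hX : ∀ i j, Sm (fun w => X w i j) p) :
    (MK X hX).map ((wirt p).d r) =
      MK (fun w => Matrix.of fun i j => wd r (fun z => X z i j) w) (fun i j => (hX i j).wd r) :=
  rfl

theorem MK_eq {X Y : (Fin m → ℂ) → Matrix (Fin m) (Fin m) ℂ}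
    (hX : ∀ i j, Sm (fun w => X w i j) p) (hY : ∀ i j, Sm (fun w => Y w i j) p)
    (h : ∀ᶠ w in 𝓝 p, X w = Y w) : MK X hX = MK Y hY := by
  refine Matrix.ext fun i j => ?_
  exact (mk_eq _ _).2 (h.mono fun w hw => by simp only [hw])

theorem Sm_trace {X : (Fin m → ℂ) → Matrix (Fin m) (Fin m) ℂ}
    (hX : ∀ i j, Sm (fun w => X w i j) p) : Sm (fun w => Matrix.trace (X w)) p := by
  simp only [Matrix.trace, Matrix.diag_apply]
  exact ContDiffAt.sum fun k _ => hX k k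

theorem MK_trace {X : (Fin m → ℂ) → Matrix (Fin m) (Fin m) ℂ}
    (hX : ∀ i j, Sm (fun w => X w i j) p) :
    Matrix.trace (MK X hX) = mk (fun w => Matrix.trace (X w)) (Sm_trace hX) := by
  simp only [Matrix.trace, Matrix.diag_apply, MK]
  rw [mk_sum _ (fun k => hX k k) (ContDiffAt.sum fun k _ => hX k k)]

theorem MK_ev {X : (Fin m → ℂ) → Matrix (Fin m) (Fin m) ℂ}
    (hX : ∀ i j, Sm (fun w => X w i j) p) : (MK X hX).map (ev p) = X p := rfl

theorem MK_one : MK (p := p) (fun _ => (1 : Matrix (Fin m) (Fin m) ℂ))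
    (fun _ _ => contDiffAt_const) = 1 := by
  refine Matrix.ext fun i j => ?_
  by_cases h : i = j
  · subst h
    have : MK (p := p) (fun _ => (1 : Matrix (Fin m) (Fin m) ℂ))
      (fun _ _ => contDiffAt_const) i i = con p ((1 : Matrix (Fin m) (Fin m) ℂ) i i) := rfl
    rw [this]; simp
  · have : MK (p := p) (fun _ => (1 : Matrix (Fin m) (Fin m) ℂ))
      (fun _ _ => contDiffAt_const) i j = con p ((1 : Matrix (Fin m) (Fin m) ℂ) i j) := rfl
    rw [this]; simp [Matrix.one_apply_ne h]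

end SG

/-- Smoothness of determinants. -/
theorem Sm.det {p : Fin m → ℂ} {X : (Fin m → ℂ) → Matrix (Fin m) (Fin m) ℂ}
    (hX : ∀ i j, Sm (fun w => X w i j) p) : Sm (fun w => (X w).det) p := by
  simp only [Matrix.det_apply]
  refine ContDiffAt.sum fun σ _ => ?_
  refine ContDiffAt.const_smul _ ?_
  exact contDiffAt_prod fun i _ => hX _ _

/-- Smoothness of the inverse. -/
theorem Sm.inv {p : Fin m → ℂ} {X : (Fin m → ℂ) → Matrix (Fin m) (Fin m) ℂ}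
    (hX : ∀ i j, Sm (fun w => X w i j) p) (hdet : (X p).det ≠ 0) :
    ∀ i j, Sm (fun w => (X w)⁻¹ i j) p := by
  intro i j
  have h1 : ∀ w, (X w)⁻¹ i j = (X w).det⁻¹ * (X w).adjugate i j := by
    intro w
    rw [Matrix.inv_def, Matrix.smul_apply, Ring.inverse_eq_inv', smul_eq_mul]
  simp only [h1]
  refine ContDiffAt.mul (ContDiffAt.inv (Sm.det hX) hdet) ?_
  simp only [Matrix.adjugate_apply]
  apply Sm.det (X := fun w => (X w).updateRow j (Pi.single i 1))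
  intro a b
  by_cases h : a = j
  · subst h
    simp only [Matrix.updateRow_self]
    exact contDiffAt_const
  · simp only [Matrix.updateRow_ne h]
    exact hX a b

/-- `h` is the matrix of a hyperkähler metric on `U`, `s` the matrix of the holomorphic symplectic
form. -/
structure Loc (U : Set (Fin m → ℂ)) (h s : (Fin m → ℂ) → Matrix (Fin m) (Fin m) ℂ) : Prop where
  isOpen : IsOpen U
  smooth_h : ∀ i j, ContDiffOn ℝ (⊤ : ℕ∞) (fun w => h w i j) U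
  smooth_s : ∀ i j, ContDiffOn ℝ (⊤ : ℕ∞) (fun w => s w i j) U
  herm : ∀ w ∈ U, (h w)ᴴ = h w
  pos : ∀ w ∈ U, ∀ v : Fin m → ℂ, v ≠ 0 → 0 < (star v ⬝ᵥ h w *ᵥ v).re
  kahler : ∀ w ∈ U, ∀ p j l, wd p (fun z => h z j l) w = wd l (fun z => h z j p) w
  hol : ∀ w ∈ U, ∀ q j l, wdb q (fun z => s z j l) w = 0
  symp : ∀ w ∈ U, h w = (s w)ᴴ * ((h w)⁻¹)ᵀ * s w

namespace Loc

variable {U : Set (Fin m → ℂ)} {h s : (Fin m → ℂ) → Matrix (Fin m) (Fin m) ℂ}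
variable (hL : Loc U h s)

include hL

open scoped ComplexOrder in
theorem posDef {w : Fin m → ℂ} (hw : w ∈ U) : (h w).PosDef := by
  refine Matrix.PosDef.of_dotProduct_mulVec_pos (hL.herm w hw) fun v hv => ?_
  have h1 := hL.pos w hw v hv
  rw [Complex.lt_def]
  refine ⟨by simpa using h1, ?_⟩
  have h2 := Matrix.IsHermitian.im_star_dotProduct_mulVec_self (A := h w) (hL.herm w hw) v
  simpa using h2.symm

theorem sm_h {p : Fin m → ℂ} (hp : p ∈ U) : ∀ i j, Sm (fun w => h w i j) p :=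
  fun i j => (hL.smooth_h i j).contDiffAt (hL.isOpen.mem_nhds hp)

theorem sm_s {p : Fin m → ℂ} (hp : p ∈ U) : ∀ i j, Sm (fun w => s w i j) p :=
  fun i j => (hL.smooth_s i j).contDiffAt (hL.isOpen.mem_nhds hp)

open scoped ComplexOrder in
theorem det_ne {w : Fin m → ℂ} (hw : w ∈ U) : (h w).det ≠ 0 := by
  have h1 := (hL.posDef hw).isUnit
  rw [Matrix.isUnit_iff_isUnit_det] at h1
  exact h1.ne_zero

theorem mul_inv {w : Fin m → ℂ} (hw : w ∈ U) : h w * (h w)⁻¹ = 1 :=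
  Matrix.mul_nonsing_inv _ (isUnit_iff_ne_zero.2 (hL.det_ne hw))

theorem inv_mul {w : Fin m → ℂ} (hw : w ∈ U) : (h w)⁻¹ * h w = 1 :=
  Matrix.nonsing_inv_mul _ (isUnit_iff_ne_zero.2 (hL.det_ne hw))

theorem det_s {w : Fin m → ℂ} (hw : w ∈ U) : (s w).det ≠ 0 := by
  intro h0
  apply hL.det_ne hw
  rw [hL.symp w hw, Matrix.det_mul, h0, mul_zero]

theorem sm_inv {p : Fin m → ℂ} (hp : p ∈ U) : ∀ i j, Sm (fun w => (h w)⁻¹ i j) p :=
  Sm.inv (hL.sm_h hp) (hL.det_ne hp)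

theorem sm_sinv {p : Fin m → ℂ} (hp : p ∈ U) : ∀ i j, Sm (fun w => (s w)⁻¹ i j) p :=
  Sm.inv (hL.sm_s hp) (hL.det_s hp)

/-- The germ of `h`. -/
def gh {p : Fin m → ℂ} (hL : Loc U h s) (hp : p ∈ U) : Matrix (Fin m) (Fin m) (SG p) :=
  SG.MK h (hL.sm_h hp)

/-- The germ of `h⁻¹`. -/
def gH {p : Fin m → ℂ} (hL : Loc U h s) (hp : p ∈ U) : Matrix (Fin m) (Fin m) (SG p) :=
  SG.MK (fun w => (h w)⁻¹) (hL.sm_inv hp)

theorem ev_mem {p : Fin m → ℂ} (hp : p ∈ U) : ∀ᶠ w in 𝓝 p, w ∈ U := hL.isOpen.mem_nhds hp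

theorem met {p : Fin m → ℂ} (hp : p ∈ U) : (SG.wirt p).Met (hL.gh hp) (hL.gH hp) := by
  have hm := hL.ev_mem hp
  refine DR.met_of_symp (SG.wirt p) (SG.MK s (hL.sm_s hp))
    (SG.MK (fun w => (s w)⁻¹) (hL.sm_sinv hp)) ?_ ?_ ?_ ?_ ?_ ?_ ?_ ?_
  · rw [gh, SG.MK_ct]
    exact SG.MK_eq _ _ (hm.mono fun w hw => hL.herm w hw)
  · rw [gh, gH, SG.MK_mul, ← SG.MK_one]
    exact SG.MK_eq _ _ (hm.mono fun w hw => hL.mul_inv hw)
  · rw [gh, gH, SG.MK_mul, ← SG.MK_one]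
    exact SG.MK_eq _ _ (hm.mono fun w hw => hL.inv_mul hw)
  · intro r j l
    exact (SG.mk_eq ((hL.sm_h hp j l).wd r) ((hL.sm_h hp j r).wd l)).2
      (hm.mono fun w hw => hL.kahler w hw r j l)
  · intro q j l
    have h1 : (SG.wirt p).e q (SG.MK s (hL.sm_s hp) j l) =
        SG.con p (1 / 2) * (SG.D (bv q) (SG.MK s (hL.sm_s hp) j l) +
          SG.con p Complex.I * SG.D (Complex.I • bv q) (SG.MK s (hL.sm_s hp) j l)) :=
      SG.wirt_e _ _
    rw [h1]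
    exact (SG.mk_eq ((hL.sm_s hp j l).wdb q) contDiffAt_const).2
      (hm.mono fun w hw => hL.hol w hw q j l)
  · rw [SG.MK_mul, ← SG.MK_one]
    exact SG.MK_eq _ _ (hm.mono fun w hw =>
      Matrix.mul_nonsing_inv _ (isUnit_iff_ne_zero.2 (hL.det_s hw)))
  · rw [SG.MK_mul, ← SG.MK_one]
    exact SG.MK_eq _ _ (hm.mono fun w hw =>
      Matrix.nonsing_inv_mul _ (isUnit_iff_ne_zero.2 (hL.det_s hw)))
  · have ht : ∀ i j, Sm (fun w => ((h w)⁻¹)ᵀ i j) p := fun i j => hL.sm_inv hp j i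
    have e1 : (SG.wirt p).ct (SG.MK s (hL.sm_s hp)) * (hL.gH hp)ᵀ =
        SG.MK (fun w => (s w)ᴴ * ((h w)⁻¹)ᵀ) (SG.Sm_mul (SG.Sm_ct (hL.sm_s hp)) ht) :=
      SG.MK_mul (SG.Sm_ct (hL.sm_s hp)) ht
    rw [e1, SG.MK_mul]
    exact SG.MK_eq _ _ (hm.mono fun w hw => hL.symp w hw)

/-- The Wirtinger calculus at a point of `U`. -/
theorem pt {p : Fin m → ℂ} (hp : p ∈ U) :
    ∃ F G, Pt (SG.wirt p) (hL.gh hp) (hL.gH hp) (SG.ev p) F G := by
  obtain ⟨F, G, hFG⟩ := Frame.exists_of_posDef (hL.posDef hp) (hL.mul_inv hp)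
  exact ⟨F, G, hL.met hp, SG.ev_conj, hFG⟩

end Loc

/-- The Christoffel symbols. -/
def gamF (h : (Fin m → ℂ) → Matrix (Fin m) (Fin m) ℂ) (r : Fin m) (w : Fin m → ℂ) :
    Matrix (Fin m) (Fin m) ℂ :=
  (h w)⁻¹ * Matrix.of fun i j => wd r (fun z => h z i j) w

/-- The function `|Γ|²`. -/
def Sf (h : (Fin m → ℂ) → Matrix (Fin m) (Fin m) ℂ) (w : Fin m → ℂ) : ℂ :=
  ∑ r, ∑ q, (h w)⁻¹ r q * Matrix.trace (gamF h r w * (h w)⁻¹ * (gamF h q w)ᴴ * h w)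

namespace Loc

variable {U : Set (Fin m → ℂ)} {h s : (Fin m → ℂ) → Matrix (Fin m) (Fin m) ℂ}
variable (hL : Loc U h s)

include hL

theorem sm_gam {p : Fin m → ℂ} (hp : p ∈ U) (r : Fin m) :
    ∀ i j, Sm (fun w => gamF h r w i j) p :=
  SG.Sm_mul (hL.sm_inv hp) (fun i j => (hL.sm_h hp i j).wd r)

theorem gam_eq {p : Fin m → ℂ} (hp : p ∈ U) (r : Fin m) :
    (SG.wirt p).Gam (hL.gh hp) (hL.gH hp) r = SG.MK (gamF h r) (hL.sm_gam hp r) := by
  have hd : ∀ i j, Sm (fun w => (Matrix.of fun i j => wd r (fun z => h z i j) w) i j) p :=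
    fun i j => (hL.sm_h hp i j).wd r
  exact SG.MK_mul (hL.sm_inv hp) hd

theorem sm_S {p : Fin m → ℂ} (hp : p ∈ U) : Sm (Sf h) p := by
  unfold Sf
  refine ContDiffAt.sum fun r _ => ContDiffAt.sum fun q _ => ?_
  refine (hL.sm_inv hp r q).mul ?_
  exact SG.Sm_trace (SG.Sm_mul (SG.Sm_mul (SG.Sm_mul (hL.sm_gam hp r) (hL.sm_inv hp))
    (SG.Sm_ct (hL.sm_gam hp q))) (hL.sm_h hp))

theorem S_eq {p : Fin m → ℂ} (hp : p ∈ U) :
    (SG.wirt p).B (hL.gh hp) (hL.gH hp) ((SG.wirt p).Gam (hL.gh hp) (hL.gH hp))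
      ((SG.wirt p).Gam (hL.gh hp) (hL.gH hp)) = SG.mk (Sf h) (hL.sm_S hp) := by
  have h1 : ∀ r q, Sm (fun w => (h w)⁻¹ r q *
      Matrix.trace (gamF h r w * (h w)⁻¹ * (gamF h q w)ᴴ * h w)) p := fun r q =>
    (hL.sm_inv hp r q).mul (SG.Sm_trace (SG.Sm_mul (SG.Sm_mul (SG.Sm_mul (hL.sm_gam hp r)
      (hL.sm_inv hp)) (SG.Sm_ct (hL.sm_gam hp q))) (hL.sm_h hp)))
  have h2 : ∀ r q, hL.gH hp r q * Matrix.trace (SG.MK (gamF h r) (hL.sm_gam hp r) *
      hL.gH hp * (SG.wirt p).ct (SG.MK (gamF h q) (hL.sm_gam hp q)) * hL.gh hp) =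
      SG.mk (fun w => (h w)⁻¹ r q *
      Matrix.trace (gamF h r w * (h w)⁻¹ * (gamF h q w)ᴴ * h w)) (h1 r q) := by
    intro r q
    rw [gh, gH, SG.MK_ct, SG.MK_mul, SG.MK_mul, SG.MK_mul, SG.MK_trace]
    rfl
  simp only [DR.B, hL.gam_eq, h2]
  have h3 : ∀ r, Sm (fun w => ∑ q, (h w)⁻¹ r q *
      Matrix.trace (gamF h r w * (h w)⁻¹ * (gamF h q w)ᴴ * h w)) p := fun r =>
    ContDiffAt.sum fun q _ => h1 r q
  have h4 : ∀ r, ∑ q, SG.mk (fun w => (h w)⁻¹ r q *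
      Matrix.trace (gamF h r w * (h w)⁻¹ * (gamF h q w)ᴴ * h w)) (h1 r q) =
      SG.mk (fun w => ∑ q, (h w)⁻¹ r q *
      Matrix.trace (gamF h r w * (h w)⁻¹ * (gamF h q w)ᴴ * h w)) (h3 r) := fun r =>
    SG.mk_sum _ (h1 r) (h3 r)
  simp only [h4]
  exact SG.mk_sum _ h3 (ContDiffAt.sum fun r _ => h3 r)

end Loc

end Pool.Agent.LV31
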