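import Pool.Agent.LV31.Est

/-!
# LV31/MaxP : the gradient estimate on balls
-/

set_option autoImplicit false
set_option linter.unusedSectionVars false

open Matrix Finset Filter Topology

noncomputable section

namespace Pool.Agent.LV31

variable {m : ℕ}

/-- The closed euclidean ball. -/
def eb (m : ℕ) (ρ : ℝ) : Set (Fin m → ℂ) := {w | nsq w ≤ ρ ^ 2}

theorem isCompact_eb (ρ : ℝ) (hρ : 0 ≤ ρ) : IsCompact (eb m ρ) := by
  apply Metric.isCompact_of_isClosed_isBounded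
  · exact isClosed_le continuous_nsq continuous_const
  · apply Metric.isBounded_closedBall (x := (0 : Fin m → ℂ)) (r := ρ) |>.subset
    intro w hw
    rw [mem_closedBall_zero_iff]
    exact norm_le_of_nsq hρ hw

theorem zero_mem_eb (ρ : ℝ) : (0 : Fin m → ℂ) ∈ eb m ρ := by
  show nsq 0 ≤ ρ ^ 2
  have : nsq (0 : Fin m → ℂ) = 0 := by simp [nsq]
  rw [this]; positivity

namespace Loc

variable {r : ℝ} {h s : (Fin m → ℂ) → Matrix (Fin m) (Fin m) ℂ}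
variable (hL : Loc (Metric.ball (0 : Fin m → ℂ) r) h s)

include hL

theorem eb_sub {ρ : ℝ} (hρ : 0 ≤ ρ) (hr : ρ < r) : eb m ρ ⊆ Metric.ball (0 : Fin m → ℂ) r := by
  intro w hw
  rw [mem_ball_zero_iff]
  exact lt_of_le_of_lt (norm_le_of_nsq hρ hw) hr

/-- The maximum principle. -/
theorem test_le [NeZero m] {ρ Λ T ε : ℝ} (hρ : 0 < ρ) (hr : ρ < r) (hε : 0 < ε)
    (hΛ : ∀ w ∈ Metric.ball (0 : Fin m → ℂ) r, (Matrix.trace (h w)⁻¹).re ≤ Λ)
    (hT : ∀ w ∈ Metric.ball (0 : Fin m → ℂ) r, (Matrix.trace (h w)).re ≤ T) :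
    ∀ w ∈ eb m ρ, (hL.test (1 / ρ ^ 2) (8 * Λ ^ 2 / ρ ^ 2) ε w).re ≤
      8 * Λ ^ 2 / ρ ^ 2 * T + ε * ρ ^ 2 := by
  have hsub := hL.eb_sub hρ.le hr
  have hcont : ContinuousOn (fun w => (hL.test (1 / ρ ^ 2) (8 * Λ ^ 2 / ρ ^ 2) ε w).re)
      (eb m ρ) := by
    intro w hw
    exact (Complex.continuous_re.continuousAt.comp
      (hL.sm_test (hsub hw) _ _ _).continuousAt).continuousWithinAt
  obtain ⟨w0, hw0, hmax⟩ := (isCompact_eb ρ hρ.le).exists_isMaxOn ⟨0, zero_mem_eb ρ⟩ hcont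
  have hw0U := hsub hw0
  have hρ2 : 0 < ρ ^ 2 := by positivity
  have key : (hL.test (1 / ρ ^ 2) (8 * Λ ^ 2 / ρ ^ 2) ε w0).re ≤
      8 * Λ ^ 2 / ρ ^ 2 * T + ε * ρ ^ 2 := by
    rcases lt_or_ge (nsq w0) (ρ ^ 2) with hlt | hge
    · exfalso
      have hnhds : eb m ρ ∈ 𝓝 w0 := by
        have : {w : Fin m → ℂ | nsq w < ρ ^ 2} ∈ 𝓝 w0 :=
          (isOpen_lt continuous_nsq continuous_const).mem_nhds hlt
        exact Filter.mem_of_superset this fun w hw => show nsq w ≤ ρ ^ 2 from le_of_lt hw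
      have hloc : IsLocalMax (fun w => (hL.test (1 / ρ ^ 2) (8 * Λ ^ 2 / ρ ^ 2) ε w).re) w0 :=
        hmax.isLocalMax hnhds
      obtain ⟨F, G, P⟩ := hL.pt hw0U
      have h1 := lap_nonpos (hL.sm_test hw0U _ _ _) hloc ((h w0)⁻¹) F P.frame.H_eq
      have h2 := hL.lap_test_pos hw0U hρ hε (hΛ w0 hw0U) hw0
      have h3 : SG.ev w0 ((SG.wirt w0).lap (hL.gH hw0U)
          (SG.mk (hL.test (1 / ρ ^ 2) (8 * Λ ^ 2 / ρ ^ 2) ε) (hL.sm_test hw0U _ _ _))) =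
          ∑ r, ∑ s, (h w0)⁻¹ r s * SG.ev w0 ((SG.wirt w0).e s ((SG.wirt w0).d r
            (SG.mk (hL.test (1 / ρ ^ 2) (8 * Λ ^ 2 / ρ ^ 2) ε) (hL.sm_test hw0U _ _ _)))) := by
        simp only [DR.lap, map_sum, map_mul]
        rfl
      rw [h3] at h2
      linarith
    · have heq : nsq w0 = ρ ^ 2 := le_antisymm hw0 hge
      rw [hL.test_re hw0U, heq]
      have h1 : 1 - 1 / ρ ^ 2 * ρ ^ 2 = 0 := by field_simp; ring
      rw [h1]
      have h2 : 8 * Λ ^ 2 / ρ ^ 2 * (Matrix.trace (h w0)).re ≤ 8 * Λ ^ 2 / ρ ^ 2 * T :=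
        mul_le_mul_of_nonneg_left (hT w0 hw0U) (by positivity)
      linarith
  intro w hw
  exact (hmax hw).trans key

theorem S_le [NeZero m] {ρ Λ T : ℝ} (hρ : 0 < ρ) (hr : ρ < r)
    (hΛ : ∀ w ∈ Metric.ball (0 : Fin m → ℂ) r, (Matrix.trace (h w)⁻¹).re ≤ Λ)
    (hT : ∀ w ∈ Metric.ball (0 : Fin m → ℂ) r, (Matrix.trace (h w)).re ≤ T)
    {w : Fin m → ℂ} (hw : nsq w ≤ ρ ^ 2 / 4) : (Sf h w).re ≤ 16 * Λ ^ 2 * T / ρ ^ 2 := by
  have hρ2 : 0 < ρ ^ 2 := by positivity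
  have hwe : w ∈ eb m ρ := by
    show nsq w ≤ ρ ^ 2
    linarith
  have hwU := hL.eb_sub hρ.le hr hwe
  have h1 : (1 - 1 / ρ ^ 2 * nsq w) ^ 2 * (Sf h w).re ≤ 8 * Λ ^ 2 / ρ ^ 2 * T := by
    apply le_of_forall_pos_le_add
    intro δ hδ
    have h2 := hL.test_le hρ hr (ε := δ / ρ ^ 2) (by positivity) hΛ hT w hwe
    rw [hL.test_re hwU] at h2
    have h3 : 0 ≤ 8 * Λ ^ 2 / ρ ^ 2 * (Matrix.trace (h w)).re :=
      mul_nonneg (by positivity) (hL.trace_pos hwU)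
    have h4 : 0 ≤ δ / ρ ^ 2 * nsq w := mul_nonneg (by positivity) (nsq_nonneg w)
    have h5 : δ / ρ ^ 2 * ρ ^ 2 = δ := by field_simp
    linarith
  have h6 : 3 / 4 ≤ 1 - 1 / ρ ^ 2 * nsq w := by
    have : 1 / ρ ^ 2 * nsq w ≤ 1 / ρ ^ 2 * (ρ ^ 2 / 4) :=
      mul_le_mul_of_nonneg_left hw (by positivity)
    have h7 : 1 / ρ ^ 2 * (ρ ^ 2 / 4) = 1 / 4 := by field_simp
    linarith
  have h8 : 1 / 2 * (Sf h w).re ≤ (1 - 1 / ρ ^ 2 * nsq w) ^ 2 * (Sf h w).re := by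
    apply mul_le_mul_of_nonneg_right _ (hL.S_real hwU).2
    nlinarith
  have h9 : 16 * Λ ^ 2 * T / ρ ^ 2 = 2 * (8 * Λ ^ 2 / ρ ^ 2 * T) := by ring
  rw [h9]
  linarith

/-- The gradient estimate. -/
theorem wd_le {ρ Λ T : ℝ} (hρ : 0 < ρ) (hr : ρ < r)
    (hΛ : ∀ w ∈ Metric.ball (0 : Fin m → ℂ) r, (Matrix.trace (h w)⁻¹).re ≤ Λ)
    (hT : ∀ w ∈ Metric.ball (0 : Fin m → ℂ) r, (Matrix.trace (h w)).re ≤ T)
    {w : Fin m → ℂ} (hw : nsq w ≤ ρ ^ 2 / 4) (p j l : Fin m) :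
    ‖wd p (fun z => h z j l) w‖ ≤ 4 * Λ * T ^ 2 / ρ := by
  have : NeZero m := ⟨by rintro rfl; exact Fin.elim0 p⟩
  have hρ2 : 0 < ρ ^ 2 := by positivity
  have hwe : w ∈ eb m ρ := by
    show nsq w ≤ ρ ^ 2
    linarith
  have hwU := hL.eb_sub hρ.le hr hwe
  obtain ⟨F, G, P⟩ := hL.pt hwU
  have h1 := P.deriv_le p j l
  have h2 : ns (cmp (SG.ev w) F G ((SG.wirt w).Gam (hL.gh hwU) (hL.gH hwU))) =
      (Sf h w).re := by
    have h3 := P.ev_S
    rw [hL.S_eq hwU, SG.ev_mk] at h3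
    rw [h3]; simp
  rw [h2] at h1
  have h4 : SG.ev w ((SG.wirt w).d p (hL.gh hwU j l)) = wd p (fun z => h z j l) w := rfl
  rw [h4] at h1
  have hd : ∀ i, 0 ≤ (h w i i).re ∧ (h w i i).re ≤ T := by
    intro i
    refine ⟨hL.diag_nonneg hwU i, ?_⟩
    refine le_trans ?_ (hT w hwU)
    rw [Matrix.trace, Complex.re_sum]
    exact Finset.single_le_sum (f := fun i => (h w i i).re)
      (fun i _ => hL.diag_nonneg hwU i) (Finset.mem_univ i)
  have hT0 : 0 ≤ T := (hd p).1.trans (hd p).2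
  have hΛ0 : 0 ≤ Λ := (hL.trace_inv_nonneg hwU).trans (hΛ w hwU)
  have h5 : (SG.ev w (hL.gh hwU p p)).re * (SG.ev w (hL.gh hwU j j)).re *
      (SG.ev w (hL.gh hwU l l)).re ≤ T * T * T := by
    show (h w p p).re * (h w j j).re * (h w l l).re ≤ T * T * T
    apply mul_le_mul _ (hd l).2 (hd l).1 (by positivity)
    exact mul_le_mul (hd p).2 (hd j).2 (hd j).1 hT0
  have h6 := hL.S_le hρ hr hΛ hT hw
  have h7 : ‖wd p (fun z => h z j l) w‖ ^ 2 ≤ (4 * Λ * T ^ 2 / ρ) ^ 2 := by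
    calc ‖wd p (fun z => h z j l) w‖ ^ 2 ≤ (16 * Λ ^ 2 * T / ρ ^ 2) * (T * T * T) := by
          refine h1.trans (mul_le_mul h6 h5 ?_ (by positivity))
          exact mul_nonneg (mul_nonneg (hd p).1 (hd j).1) (hd l).1
      _ = (4 * Λ * T ^ 2 / ρ) ^ 2 := by
          field_simp
          ring
  exact le_of_sq_le_sq h7 (by positivity)

end Loc

/-- The real derivative in terms of the Wirtinger derivatives. -/
theorem fderiv_eq_wd {f : (Fin m → ℂ) → ℂ} (u v : Fin m → ℂ) :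
    fderiv ℝ f u v = ∑ r, (v r * wd r f u + starRingEnd ℂ (v r) * wdb r f u) := by
  conv_lhs => rw [sum_bv v]
  rw [map_sum]
  refine Finset.sum_congr rfl fun r _ => ?_
  rw [map_add, map_smul, map_smul, wd, wdb, Complex.real_smul, Complex.real_smul]
  have h1 : v r = (v r).re + (v r).im * Complex.I := (Complex.re_add_im _).symm
  have h2 : starRingEnd ℂ (v r) = (v r).re - (v r).im * Complex.I := by
    apply Complex.ext <;> simp
  rw [h2]
  nth_rewrite 3 [h1]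
  linear_combination ((v r).im * (fderiv ℝ f u (Complex.I • bv r))) * Complex.I_mul_I

namespace Loc

variable {r : ℝ} {h s : (Fin m → ℂ) → Matrix (Fin m) (Fin m) ℂ}
variable (hL : Loc (Metric.ball (0 : Fin m → ℂ) r) h s)

include hL

theorem wdb_eq {w : Fin m → ℂ} (hw : w ∈ Metric.ball (0 : Fin m → ℂ) r) (p j l : Fin m) :
    wdb p (fun z => h z j l) w = starRingEnd ℂ (wd p (fun z => h z l j) w) := by
  have h1 : wdb p (fun z => h z j l) w = SG.ev w ((SG.wirt w).e p (hL.gh hw j l)) := by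
    have h2 : (SG.wirt w).e p (hL.gh hw j l) = SG.mk (wdb p (fun z => h z j l))
      ((hL.sm_h hw j l).wdb p) := SG.wirt_e_mk p (hL.sm_h hw j l)
    rw [h2]; rfl
  rw [h1, DR.e, (hL.met hw).h_apply, SG.wirt_c, SG.ev_conj]
  rfl

/-- The metric is almost constant on small balls. -/
theorem h_sub_le {ρ Λ T : ℝ} (hρ : 0 < ρ) (hr : ρ < r)
    (hΛ : ∀ w ∈ Metric.ball (0 : Fin m → ℂ) r, (Matrix.trace (h w)⁻¹).re ≤ Λ)
    (hT : ∀ w ∈ Metric.ball (0 : Fin m → ℂ) r, (Matrix.trace (h w)).re ≤ T)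
    {w : Fin m → ℂ} (hw : nsq w ≤ ρ ^ 2 / 4) (j l : Fin m) :
    ‖h w j l - h 0 j l‖ ≤ 2 * m * (4 * Λ * T ^ 2 / ρ) * ‖w‖ := by
  have hρ2 : 0 < ρ ^ 2 := by positivity
  have hseg : ∀ t ∈ Set.Icc (0 : ℝ) 1, nsq (t • w) ≤ ρ ^ 2 / 4 := by
    intro t ht
    have h1 : nsq (t • w) = t ^ 2 * nsq w := by
      simp only [nsq, Pi.smul_apply, norm_smul, mul_pow, Finset.mul_sum, Real.norm_eq_abs, sq_abs]
    rw [h1]
    have h2 : t ^ 2 ≤ 1 := pow_le_one₀ ht.1 ht.2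
    calc t ^ 2 * nsq w ≤ 1 * nsq w := mul_le_mul_of_nonneg_right h2 (nsq_nonneg w)
      _ ≤ ρ ^ 2 / 4 := by rw [one_mul]; exact hw
  have hU : ∀ t ∈ Set.Icc (0 : ℝ) 1, t • w ∈ Metric.ball (0 : Fin m → ℂ) r := by
    intro t ht
    apply hL.eb_sub hρ.le hr
    have := hseg t ht
    show nsq (t • w) ≤ ρ ^ 2
    linarith
  have hder : ∀ t ∈ Set.Icc (0 : ℝ) 1, HasDerivWithinAt (fun t : ℝ => h (t • w) j l)
      (fderiv ℝ (fun z => h z j l) (t • w) w) (Set.Icc 0 1) t := by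
    intro t ht
    have h1 : HasDerivAt (fun t : ℝ => t • w) w t := by
      have := (hasDerivAt_id t).smul_const w
      simpa using this
    have h2 : DifferentiableAt ℝ (fun z => h z j l) (t • w) :=
      ((hL.sm_h (hU t ht) j l).eventually_diff).self_of_nhds
    exact (HasFDerivAt.comp_hasDerivAt (l := fun z => h z j l) t h2.hasFDerivAt
      h1).hasDerivWithinAt
  have hbound : ∀ t ∈ Set.Ico (0 : ℝ) 1, ‖fderiv ℝ (fun z => h z j l) (t • w) w‖ ≤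
      2 * m * (4 * Λ * T ^ 2 / ρ) * ‖w‖ := by
    intro t ht
    have ht' : t ∈ Set.Icc (0 : ℝ) 1 := ⟨ht.1, ht.2.le⟩
    rw [fderiv_eq_wd]
    calc ‖∑ r, (w r * wd r (fun z => h z j l) (t • w) +
          starRingEnd ℂ (w r) * wdb r (fun z => h z j l) (t • w))‖
        ≤ ∑ r : Fin m, (2 * (4 * Λ * T ^ 2 / ρ) * ‖w‖) := by
          refine (norm_sum_le _ _).trans (Finset.sum_le_sum fun r _ => ?_)
          refine (norm_add_le _ _).trans ?_
          rw [norm_mul, norm_mul, Complex.norm_conj, hL.wdb_eq (hU t ht'), Complex.norm_conj]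
          have h1 := hL.wd_le hρ hr hΛ hT (hseg t ht') r j l
          have h2 := hL.wd_le hρ hr hΛ hT (hseg t ht') r l j
          have h3 := norm_le_pi_norm w r
          have h4 : ‖w r‖ * ‖wd r (fun z => h z j l) (t • w)‖ ≤ ‖w‖ * (4 * Λ * T ^ 2 / ρ) :=
            mul_le_mul h3 h1 (norm_nonneg _) (norm_nonneg _)
          have h5 : ‖w r‖ * ‖wd r (fun z => h z l j) (t • w)‖ ≤ ‖w‖ * (4 * Λ * T ^ 2 / ρ) :=
            mul_le_mul h3 h2 (norm_nonneg _) (norm_nonneg _)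
          linarith
      _ = 2 * m * (4 * Λ * T ^ 2 / ρ) * ‖w‖ := by
          rw [Finset.sum_const, Finset.card_univ, Fintype.card_fin, nsmul_eq_mul]
          ring
  have h1 := norm_image_sub_le_of_norm_deriv_le_segment_01' hder hbound
  simpa using h1

end Loc

end Pool.Agent.LV31
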