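import Pool.Agent.LV31.HKM4
import Pool.Agent.LV31.MaxP

/-!
# LV31/TriLoc : hyperkähler triples on open sets in matrix form
-/

set_option autoImplicit false
set_option linter.unusedSectionVars false

open Matrix Finset Filter Topology Pool.Agent.SYM

noncomputable section

namespace Pool.Agent.LV31

variable {n : ℕ}

namespace HKM

variable {h κ : Matrix (Fin (2 * n)) (Fin (2 * n)) ℂ} (hk : HKM h κ)

theorem o1_eq (u v : CV n) : oOf h κ 1 u v = (hf h u v).im := by
  rw [oOf, Qof_one, hf_smul_left]; simp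

theorem o2_eq (u v : CV n) : oOf h κ 2 u v = (hf h (κ *ᵥ star u) v).re := rfl

theorem o0_eq (u v : CV n) : oOf h κ 0 u v = (hf h (κ *ᵥ star u) v).im := by
  rw [oOf, Qof_zero, hf_smul_left]; simp

theorem K_I (u : CV n) : κ *ᵥ star (Complex.I • u) = -Complex.I • (κ *ᵥ star u) := by
  rw [star_smul, mulVec_smul]
  simp

include hk

theorem σ_anti (u v : CV n) : hf h (κ *ᵥ star u) v = -hf h (κ *ᵥ star v) u := by
  have h1 := hk.hf_K v (κ *ᵥ star u)
  rw [hk.K_sq] at h1
  rw [← h1]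
  have h2 : (-u : CV n) = (-1 : ℂ) • u := by simp
  rw [h2, hf_smul_right]
  ring

theorem o_anti (a : Fin 3) (u v : CV n) : oOf h κ a u v = -oOf h κ a v u := by
  fin_cases a
  · show oOf h κ 0 u v = -oOf h κ 0 v u
    rw [o0_eq, o0_eq, hk.σ_anti u v, Complex.neg_im]
  · show oOf h κ 1 u v = -oOf h κ 1 v u
    rw [o1_eq, o1_eq, ← hf_conj hk.herm v u, Complex.conj_im]
  · show oOf h κ 2 u v = -oOf h κ 2 v u
    rw [o2_eq, o2_eq, hk.σ_anti u v, Complex.neg_re]

omit hk

theorem o1_I (u v : CV n) : oOf h κ 1 (Complex.I • u) v = -oOf h κ 1 u (Complex.I • v) := by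
  rw [o1_eq, o1_eq, hf_smul_left, hf_smul_right]
  simp

theorem o1_II (u v : CV n) : oOf h κ 1 (Complex.I • u) (Complex.I • v) = oOf h κ 1 u v := by
  rw [o1_eq, o1_eq, hf_smul_left, hf_smul_right]
  simp

theorem o2_I1 (u v : CV n) : oOf h κ 2 (Complex.I • u) v = -oOf h κ 0 u v := by
  rw [o2_eq, o0_eq, K_I, hf_smul_left]
  simp

theorem o0_I1 (u v : CV n) : oOf h κ 0 (Complex.I • u) v = oOf h κ 2 u v := by
  rw [o0_eq, o2_eq, K_I, hf_smul_left]
  simp

theorem o2_I2 (u v : CV n) : oOf h κ 2 u (Complex.I • v) = -oOf h κ 0 u v := by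
  rw [o2_eq, o0_eq, hf_smul_right]
  simp

theorem o0_I2 (u v : CV n) : oOf h κ 0 u (Complex.I • v) = oOf h κ 2 u v := by
  rw [o0_eq, o2_eq, hf_smul_right]
  simp

end HKM

theorem fderiv_re_im {V : Type} [NormedAddCommGroup V] [NormedSpace ℝ V] {f g : V → ℝ} {w : V}
    (hf : DifferentiableAt ℝ f w) (hg : DifferentiableAt ℝ g w) (x : V) :
    fderiv ℝ (fun z => (f z : ℂ) + (g z : ℂ) * Complex.I) w x =
      (fderiv ℝ f w x : ℂ) + (fderiv ℝ g w x : ℂ) * Complex.I := by
  have h1 : HasFDerivAt (fun z => (f z : ℂ)) (Complex.ofRealCLM.comp (fderiv ℝ f w)) w :=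
    Complex.ofRealCLM.hasFDerivAt.comp w hf.hasFDerivAt
  have h2 : HasFDerivAt (fun z => (g z : ℂ)) (Complex.ofRealCLM.comp (fderiv ℝ g w)) w :=
    Complex.ofRealCLM.hasFDerivAt.comp w hg.hasFDerivAt
  have h3 := h1.add (h2.mul_const Complex.I)
  rw [HasFDerivAt.fderiv (f := fun z => (f z : ℂ) + (g z : ℂ) * Complex.I) h3]
  simp [mul_comm]

section

variable {U : Set (CV n)} {τ : Fin 3 → CV n → CV n → CV n → ℝ}

/-- The matrix of the metric. -/
def hT (τ : Fin 3 → CV n → CV n → CV n → ℝ) (w : CV n) :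
    Matrix (Fin (2 * n)) (Fin (2 * n)) ℂ := hM fun a => τ a w

/-- The matrix of the symplectic form. -/
def sT (τ : Fin 3 → CV n → CV n → CV n → ℝ) (w : CV n) :
    Matrix (Fin (2 * n)) (Fin (2 * n)) ℂ := sM fun a => τ a w

theorem triple_rel (hτ : IsHKTripleOn U τ) {w : CV n} (hw : w ∈ U) :
    ∃ κ, HKM (hT τ w) κ ∧ (∀ a u v, τ a w u v = oOf (hT τ w) κ a u v) ∧
      sT τ w = κᴴ * hT τ w := by
  obtain ⟨κ, hk, ho⟩ := exists_HKM (hτ.triple w hw)
  refine ⟨κ, hk, fun a u v => congrFun (congrFun (congrFun ho a) u) v, ?_⟩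
  rw [sT, ho, sM_oOf]
  rfl

theorem diff_at (hU : IsOpen U) (hτ : IsHKTripleOn U τ) {w : CV n} (hw : w ∈ U) (a : Fin 3)
    (u v : CV n) : DifferentiableAt ℝ (fun z => τ a z u v) w :=
  ((hτ.smooth a u v).contDiffAt (hU.mem_nhds hw)).differentiableAt (by simp)

/-- A relation between the values of the forms gives one between their derivatives. -/
theorem rel_deriv (hU : IsOpen U) {w : CV n} (hw : w ∈ U) {f g : CV n → ℝ}
    (h : ∀ z ∈ U, f z = g z) (x : CV n) : fderiv ℝ f w x = fderiv ℝ g w x := by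
  have h1 : f =ᶠ[𝓝 w] g := by
    filter_upwards [hU.mem_nhds hw] with z hz
    exact h z hz
  rw [h1.fderiv_eq]

theorem fderiv_neg' (f : CV n → ℝ) (w x : CV n) :
    fderiv ℝ (fun z => -f z) w x = -fderiv ℝ f w x := by
  rw [fderiv_fun_neg]; rfl

theorem loc_of_triple (hU : IsOpen U) (hτ : IsHKTripleOn U τ) : Loc U (hT τ) (sT τ) := by
  have hsm : ∀ a u v, ContDiffOn ℝ (⊤ : ℕ∞) (fun w => ((τ a w u v : ℝ) : ℂ)) U := fun a u v =>
    Complex.ofRealCLM.contDiff.comp_contDiffOn (hτ.smooth a u v)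
  refine ⟨hU, ?_, ?_, ?_, ?_, ?_, ?_, ?_⟩
  · intro i j
    exact (hsm 1 _ _).add ((hsm 1 _ _).mul contDiffOn_const)
  · intro i j
    exact (hsm 2 _ _).add ((hsm 0 _ _).mul contDiffOn_const)
  · intro w hw
    obtain ⟨κ, hk, -, -⟩ := triple_rel hτ hw
    exact hk.herm
  · intro w hw v hv
    obtain ⟨κ, hk, -, -⟩ := triple_rel hτ hw
    exact hk.pos v hv
  · intro w hw p j l
    have dd := diff_at hU hτ hw
    have e1 : ∀ x j l, fderiv ℝ (fun z => hT τ z j l) w x =
        (fderiv ℝ (fun z => τ 1 z (basisVec n j) (Complex.I • basisVec n l)) w x : ℂ) +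
        (fderiv ℝ (fun z => τ 1 z (basisVec n j) (basisVec n l)) w x : ℂ) * Complex.I :=
      fun x j l => fderiv_re_im (dd 1 _ _) (dd 1 _ _) x
    have hA : ∀ u v x, fderiv ℝ (fun z => τ 1 z u v) w x =
        -fderiv ℝ (fun z => τ 1 z v u) w x := by
      intro u v x
      rw [← fderiv_neg']
      refine rel_deriv hU hw (fun z hz => ?_) x
      obtain ⟨κ, hk, ho, -⟩ := triple_rel hτ hz
      rw [ho, ho, hk.o_anti]
    have hB : ∀ u v x, fderiv ℝ (fun z => τ 1 z (Complex.I • u) v) w x =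
        -fderiv ℝ (fun z => τ 1 z u (Complex.I • v)) w x := by
      intro u v x
      rw [← fderiv_neg']
      refine rel_deriv hU hw (fun z hz => ?_) x
      obtain ⟨κ, hk, ho, -⟩ := triple_rel hτ hz
      rw [ho, ho, HKM.o1_I]
    have hB' : ∀ u v x, fderiv ℝ (fun z => τ 1 z (Complex.I • u) (Complex.I • v)) w x =
        fderiv ℝ (fun z => τ 1 z u v) w x := by
      intro u v x
      refine rel_deriv hU hw (fun z hz => ?_) x
      obtain ⟨κ, hk, ho, -⟩ := triple_rel hτ hz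
      rw [ho, ho, HKM.o1_II]
    have hC := hτ.closed 1 w hw
    set P := basisVec n p
    set J := basisVec n j
    set L := basisVec n l
    have c1 := hC J (Complex.I • L) P
    have c2 := hC J L (Complex.I • P)
    have c3 := hC J L P
    have c4 := hC J (Complex.I • L) (Complex.I • P)
    have a1 := hA P J (Complex.I • L)
    have a2 := hA (Complex.I • P) J L
    have a3 := hA P J L
    have a4 := hA (Complex.I • P) J (Complex.I • L)
    have b1 := hB L P J
    have b2 := hB' L P J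
    simp only [wd]
    rw [e1, e1, e1, e1]
    show 1 / 2 * (((fderiv ℝ (fun z => τ 1 z J (Complex.I • L)) w P : ℝ) : ℂ) +
        ((fderiv ℝ (fun z => τ 1 z J L) w P : ℝ) : ℂ) * Complex.I -
        Complex.I * (((fderiv ℝ (fun z => τ 1 z J (Complex.I • L)) w (Complex.I • P) : ℝ) : ℂ) +
        ((fderiv ℝ (fun z => τ 1 z J L) w (Complex.I • P) : ℝ) : ℂ) * Complex.I)) =
      1 / 2 * (((fderiv ℝ (fun z => τ 1 z J (Complex.I • P)) w L : ℝ) : ℂ) +
        ((fderiv ℝ (fun z => τ 1 z J P) w L : ℝ) : ℂ) * Complex.I -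
        Complex.I * (((fderiv ℝ (fun z => τ 1 z J (Complex.I • P)) w (Complex.I • L) : ℝ) : ℂ) +
        ((fderiv ℝ (fun z => τ 1 z J P) w (Complex.I • L) : ℝ) : ℂ) * Complex.I))
    congr 1
    apply Complex.ext
    · simp
      linarith
    · simp
      linarith
  · intro w hw q j l
    have dd := diff_at hU hτ hw
    have e1 : ∀ x j l, fderiv ℝ (fun z => sT τ z j l) w x =
        (fderiv ℝ (fun z => τ 2 z (basisVec n j) (basisVec n l)) w x : ℂ) +
        (fderiv ℝ (fun z => τ 0 z (basisVec n j) (basisVec n l)) w x : ℂ) * Complex.I :=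
      fun x j l => fderiv_re_im (dd 2 _ _) (dd 0 _ _) x
    have h21 : ∀ u v x, fderiv ℝ (fun z => τ 2 z (Complex.I • u) v) w x =
        -fderiv ℝ (fun z => τ 0 z u v) w x := by
      intro u v x
      rw [← fderiv_neg']
      refine rel_deriv hU hw (fun z hz => ?_) x
      obtain ⟨κ, hk, ho, -⟩ := triple_rel hτ hz
      rw [ho, ho, HKM.o2_I1]
    have h01 : ∀ u v x, fderiv ℝ (fun z => τ 0 z (Complex.I • u) v) w x =
        fderiv ℝ (fun z => τ 2 z u v) w x := by
      intro u v x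
      refine rel_deriv hU hw (fun z hz => ?_) x
      obtain ⟨κ, hk, ho, -⟩ := triple_rel hτ hz
      rw [ho, ho, HKM.o0_I1]
    have h22 : ∀ u v x, fderiv ℝ (fun z => τ 2 z u (Complex.I • v)) w x =
        -fderiv ℝ (fun z => τ 0 z u v) w x := by
      intro u v x
      rw [← fderiv_neg']
      refine rel_deriv hU hw (fun z hz => ?_) x
      obtain ⟨κ, hk, ho, -⟩ := triple_rel hτ hz
      rw [ho, ho, HKM.o2_I2]
    have h02 : ∀ u v x, fderiv ℝ (fun z => τ 0 z u (Complex.I • v)) w x =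
        fderiv ℝ (fun z => τ 2 z u v) w x := by
      intro u v x
      refine rel_deriv hU hw (fun z hz => ?_) x
      obtain ⟨κ, hk, ho, -⟩ := triple_rel hτ hz
      rw [ho, ho, HKM.o0_I2]
    have hC2 := hτ.closed 2 w hw
    have hC0 := hτ.closed 0 w hw
    set P := basisVec n q
    set J := basisVec n j
    set L := basisVec n l
    have c1 := hC0 J L (Complex.I • P)
    have c2 := hC2 J L P
    have c3 := hC2 J L (Complex.I • P)
    have c4 := hC0 J L P
    have a1 := h02 L P J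
    have a2 := h01 P J L
    have a3 := h22 L P J
    have a4 := h21 P J L
    simp only [wdb]
    rw [e1, e1]
    show 1 / 2 * (((fderiv ℝ (fun z => τ 2 z J L) w P : ℝ) : ℂ) +
        ((fderiv ℝ (fun z => τ 0 z J L) w P : ℝ) : ℂ) * Complex.I +
        Complex.I * (((fderiv ℝ (fun z => τ 2 z J L) w (Complex.I • P) : ℝ) : ℂ) +
        ((fderiv ℝ (fun z => τ 0 z J L) w (Complex.I • P) : ℝ) : ℂ) * Complex.I)) = 0
    rw [mul_eq_zero]
    right
    apply Complex.ext
    · simp
      linarith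
    · simp
      linarith
  · intro w hw
    obtain ⟨κ, hk, -, hs⟩ := triple_rel hτ hw
    rw [hs]
    exact hk.symp

end

end Pool.Agent.LV31
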