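import Pool.Agent.LV31.Hol
import Pool.Agent.LV31.TriLoc

/-!
# LV31/Main : the Liouville theorem for hyperkähler triples

Hyperkähler triples on balls with radii `r_j → ∞` with `g ≤ K` and volume density `≥ a > 0`
converge, after passing to a subsequence, uniformly on bounded sets to a constant triple.
-/

set_option autoImplicit false
set_option linter.unusedSectionVars false

open Matrix Finset Filter Topology Pool.Agent.SYM

noncomputable section

namespace Pool.Agent.LV31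

variable {n : ℕ}

/-- The bounds of one triple. -/
structure Bd (r K a : ℝ) (τ : Fin 3 → CV n → CV n → CV n → ℝ) : Prop where
  ha : 0 < a
  triple : IsHKTripleOn (Metric.ball 0 r) τ
  upper : ∀ w ∈ Metric.ball (0 : CV n) r, ∀ v, τ 1 w v (Complex.I • v) ≤ K * ‖v‖ ^ 2
  lower : ∀ w ∈ Metric.ball (0 : CV n) r, a ≤ volDensity (fun a => τ a w)

namespace Bd

variable {r K a : ℝ} {τ : Fin 3 → CV n → CV n → CV n → ℝ} (hb : Bd r K a τ)

include hb

theorem loc : Loc (Metric.ball 0 r) (hT τ) (sT τ) := loc_of_triple Metric.isOpen_ball hb.triple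

theorem hf_le {w : CV n} (hw : w ∈ Metric.ball (0 : CV n) r) (v : CV n) :
    (hf (hT τ w) v v).re ≤ K * ‖v‖ ^ 2 := by
  obtain ⟨κ, hk, ho, -⟩ := triple_rel hb.triple hw
  have h1 := hb.upper w hw v
  rw [ho, HKM.o1_eq, hf_smul_right] at h1
  simpa using h1

theorem h_le {w : CV n} (hw : w ∈ Metric.ball (0 : CV n) r) (i j : Fin (2 * n)) :
    ‖hT τ w i j‖ ≤ K := by
  obtain ⟨κ, hk, ho, -⟩ := triple_rel hb.triple hw
  exact hk.norm_entry_le (hb.hf_le hw) i j

theorem s_le {w : CV n} (hw : w ∈ Metric.ball (0 : CV n) r) (i j : Fin (2 * n)) :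
    ‖sT τ w i j‖ ≤ K := by
  obtain ⟨κ, hk, ho, hs⟩ := triple_rel hb.triple hw
  rw [hs]
  exact hk.norm_s_le (hb.hf_le hw) i j

theorem trace_inv {w : CV n} (hw : w ∈ Metric.ball (0 : CV n) r) :
    (Matrix.trace (hT τ w)⁻¹).re ≤ Lam n K a :=
  trace_inv_le hb.ha (hb.h_le hw) (hb.lower w hw)

theorem trace_le {w : CV n} (hw : w ∈ Metric.ball (0 : CV n) r) :
    (Matrix.trace (hT τ w)).re ≤ (2 * n : ℕ) * K := by
  calc (Matrix.trace (hT τ w)).re ≤ ‖Matrix.trace (hT τ w)‖ := Complex.re_le_norm _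
    _ ≤ ∑ i, ‖hT τ w i i‖ := norm_sum_le _ _
    _ ≤ ∑ _i : Fin (2 * n), K := Finset.sum_le_sum fun i _ => hb.h_le hw i i
    _ = (2 * n : ℕ) * K := by
        rw [Finset.sum_const, Finset.card_univ, Fintype.card_fin, nsmul_eq_mul]

/-- The constant of the gradient estimate. -/
def C1 (n : ℕ) (K a : ℝ) : ℝ := 2 * (2 * n : ℕ) * (4 * Lam n K a * ((2 * n : ℕ) * K) ^ 2)

theorem h_sub {w : CV n} {R : ℝ} (hr : 0 < r) (hR : ((2 * n : ℕ) : ℝ) * R ^ 2 ≤ (r / 2) ^ 2 / 4)
    (hw : ‖w‖ ≤ R) (i j : Fin (2 * n)) :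
    ‖hT τ w i j - hT τ 0 i j‖ ≤ |C1 n K a| * R * (2 / r) := by
  have hR0 : 0 ≤ R := (norm_nonneg _).trans hw
  have h1 : nsq w ≤ (r / 2) ^ 2 / 4 := by
    refine (nsq_le w).trans (le_trans ?_ hR)
    exact mul_le_mul_of_nonneg_left (pow_le_pow_left₀ (norm_nonneg _) hw 2) (by positivity)
  have h2 := hb.loc.h_sub_le (ρ := r / 2) (by positivity) (by linarith)
    (fun w hw => hb.trace_inv hw) (fun w hw => hb.trace_le hw) h1 i j
  refine h2.trans ?_
  have h3 : 2 * ((2 * n : ℕ) : ℝ) * (4 * Lam n K a * ((2 * n : ℕ) * K) ^ 2 / (r / 2)) * ‖w‖ =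
      C1 n K a * ‖w‖ * (2 / r) := by
    rw [C1]
    field_simp
  rw [h3]
  have h4 : C1 n K a * ‖w‖ ≤ |C1 n K a| * R :=
    (mul_le_mul_of_nonneg_right (le_abs_self _) (norm_nonneg _)).trans
      (mul_le_mul_of_nonneg_left hw (abs_nonneg _))
  exact mul_le_mul_of_nonneg_right h4 (by positivity)

theorem s_sub {w : CV n} {R : ℝ} (hw : ‖w‖ ≤ R) (hRr : R < r) (i j : Fin (2 * n)) :
    ‖sT τ w i j - sT τ 0 i j‖ ≤ (2 * |K| + 1) * R * (1 / r) := by
  have hR0 : 0 ≤ R := (norm_nonneg _).trans hw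
  have hr : 0 < r := lt_of_le_of_lt hR0 hRr
  have hwb : w ∈ Metric.ball (0 : CV n) r := mem_ball_zero_iff.2 (lt_of_le_of_lt hw hRr)
  have h1 := hol_sub_le (f := fun z => sT τ z i j) (r := r) (M := |K|) (abs_nonneg _)
    (fun z hz => differentiableAt_complex
      ((hb.loc.sm_s hz i j).eventually_diff).self_of_nhds
      (fun q => hb.loc.hol z hz q i j))
    (fun z hz => (hb.s_le hz i j).trans (le_abs_self K)) hwb
  refine h1.trans ?_
  have h2 : (2 * |K| + 1) / r * ‖w‖ = (2 * |K| + 1) * ‖w‖ * (1 / r) := by ring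
  rw [h2]
  apply mul_le_mul_of_nonneg_right _ (by positivity)
  exact mul_le_mul_of_nonneg_left hw (by positivity)

end Bd

theorem liouville (n : ℕ) : LiouvilleTheorem n := by
  intro K a ha r hr τ hτ hK hdet
  have hb : ∀ j, Bd (r j) K a (τ j) := fun j => ⟨ha, hτ j, hK j, hdet j⟩
  have hex : ∀ j, ∃ κ : Matrix (Fin (2 * n)) (Fin (2 * n)) ℂ, 0 < r j →
      HKM (hT (τ j) 0) κ ∧ sT (τ j) 0 = κᴴ * hT (τ j) 0 := by
    intro j
    by_cases hj : 0 < r j
    · obtain ⟨κ, hk, -, hs⟩ := triple_rel (hτ j) (Metric.mem_ball_self hj)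
      exact ⟨κ, fun _ => ⟨hk, hs⟩⟩
    · exact ⟨0, fun h => absurd h hj⟩
  choose κ hκ using hex
  classical
  let X : ℕ → Matrix (Fin (2 * n)) (Fin (2 * n)) ℂ := fun j => if 0 < r j then hT (τ j) 0 else 0
  let Y : ℕ → Matrix (Fin (2 * n)) (Fin (2 * n)) ℂ := fun j => if 0 < r j then κ j else 0
  set C : ℝ := max (max K (Real.sqrt (Lam n K a * K))) 0 with hC
  have hX : ∀ k i j, ‖X k i j‖ ≤ C := by
    intro k i j
    by_cases hk : 0 < r k
    · have : X k = hT (τ k) 0 := by simp only [X, if_pos hk]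
      rw [this]
      exact ((hb k).h_le (Metric.mem_ball_self hk) i j).trans
        ((le_max_left _ _).trans (le_max_left _ _))
    · have : X k = 0 := by simp only [X, if_neg hk]
      rw [this]
      simp [hC]
  have hY : ∀ k i j, ‖Y k i j‖ ≤ C := by
    intro k i j
    by_cases hk : 0 < r k
    · have h0 : Y k = κ k := by simp only [Y, if_pos hk]
      rw [h0]
      have h1 := (hκ k hk).1.norm_κ_le ((hb k).hf_le (Metric.mem_ball_self hk))
        ((hb k).trace_inv (Metric.mem_ball_self hk)) i j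
      have h2 : ‖κ k i j‖ ≤ Real.sqrt (Lam n K a * K) := Real.le_sqrt_of_sq_le h1
      exact h2.trans ((le_max_right _ _).trans (le_max_left _ _))
    · have : Y k = 0 := by simp only [Y, if_neg hk]
      rw [this]
      simp [hC]
  obtain ⟨X', Y', s, hs, hX', hY'⟩ := exists_subseq X Y C hX hY
  have hrs : Tendsto (fun k => r (s k)) atTop atTop := hr.comp hs.tendsto_atTop
  have hpos : ∀ᶠ k in atTop, 0 < r (s k) := hrs.eventually_gt_atTop 0
  have hk' : HKM X' Y' := by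
    refine HKM.limit (Λ := Lam n K a) hX' hY' ?_ ?_
    · filter_upwards [hpos] with k hk
      have e1 : X (s k) = hT (τ (s k)) 0 := by simp only [X, if_pos hk]
      have e2 : Y (s k) = κ (s k) := by simp only [Y, if_pos hk]
      rw [e1, e2]
      exact (hκ _ hk).1
    · filter_upwards [hpos] with k hk
      intro v
      have e1 : X (s k) = hT (τ (s k)) 0 := by simp only [X, if_pos hk]
      rw [e1]
      have h1 := (hκ _ hk).1.nsq_le_hf v
      exact h1.trans (mul_le_mul_of_nonneg_right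
        ((hb (s k)).trace_inv (Metric.mem_ball_self hk)) ((hκ _ hk).1.hf_nonneg v))
  refine ⟨oOf X' Y', hk'.flatTriple, s, hs, ?_⟩
  intro R ε hε
  set N : ℝ := ((2 * n : ℕ) : ℝ) with hN
  have hN0 : 0 ≤ N := by positivity
  set δ : ℝ := ε / (N * N + 1) with hδ
  have hδ0 : 0 < δ := by positivity
  have hδN : N * N * δ ≤ ε := by
    have h1 : N * N * δ = ε * (N * N / (N * N + 1)) := by rw [hδ]; ring
    rw [h1]
    have h2 : N * N / (N * N + 1) ≤ 1 := by
      rw [div_le_one (by positivity)]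
      linarith
    calc ε * (N * N / (N * N + 1)) ≤ ε * 1 := mul_le_mul_of_nonneg_left h2 hε.le
      _ = ε := mul_one ε
  have hlarge : ∀ c : ℝ, ∀ᶠ k in atTop, c < r (s k) := fun c => hrs.eventually_gt_atTop c
  have e1 := hlarge R
  have e2 := hlarge (4 * (N * R ^ 2 + 1))
  have e3 := hlarge (4 * (|Bd.C1 n K a| * |R| + 1) / δ)
  have e4 := hlarge (2 * ((2 * |K| + 1) * |R| + 1) / δ)
  have e5 : ∀ᶠ k in atTop, ∀ i j, ‖X (s k) i j - X' i j‖ ≤ δ / 2 := by
    rw [eventually_all]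
    intro i
    rw [eventually_all]
    intro j
    have h1 := tendsto_iff_norm_sub_tendsto_zero.1 (hX' i j)
    exact (h1.eventually_lt_const (half_pos hδ0)).mono fun k hk => le_of_lt hk
  have e6 : ∀ᶠ k in atTop, ∀ i j,
      ‖((Y (s k))ᴴ * X (s k)) i j - (Y'ᴴ * X') i j‖ ≤ δ / 2 := by
    rw [eventually_all]
    intro i
    rw [eventually_all]
    intro j
    have h0 : Tendsto (fun k => ((Y (s k))ᴴ * X (s k)) i j) atTop (𝓝 ((Y'ᴴ * X') i j)) :=
      tendsto_mul_entry (tendsto_ct_entry hY') hX' i j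
    have h1 := tendsto_iff_norm_sub_tendsto_zero.1 h0
    exact (h1.eventually_lt_const (half_pos hδ0)).mono fun k hk => le_of_lt hk
  filter_upwards [hpos, e1, e2, e3, e4, e5, e6] with k hk h1 h2 h3 h4 h5 h6
  intro w hw b u v
  have hwR : ‖w‖ < R := mem_ball_zero_iff.1 hw
  have hR0 : 0 < R := lt_of_le_of_lt (norm_nonneg _) hwR
  rw [abs_of_pos hR0] at h3 h4
  have hwr : w ∈ Metric.ball (0 : CV n) (r (s k)) := mem_ball_zero_iff.2 (hwR.trans h1)
  obtain ⟨κw, hkw, how, hsw⟩ := triple_rel (hτ (s k)) hwr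
  have E1 : X (s k) = hT (τ (s k)) 0 := by simp only [X, if_pos hk]
  have E2 : Y (s k) = κ (s k) := by simp only [Y, if_pos hk]
  rw [E1] at h5 h6
  rw [E2, ← (hκ _ hk).2] at h6
  rw [how]
  have hquad : N * R ^ 2 ≤ (r (s k) / 2) ^ 2 / 4 := by
    have g1 : 0 ≤ N * R ^ 2 := by positivity
    nlinarith
  have g3 : |Bd.C1 n K a| * R * (2 / r (s k)) ≤ δ / 2 := by
    rw [div_lt_iff₀ hδ0] at h3
    rw [mul_div_assoc', div_le_iff₀ hk]
    linarith
  have g4 : (2 * |K| + 1) * R * (1 / r (s k)) ≤ δ / 2 := by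
    rw [div_lt_iff₀ hδ0] at h4
    rw [mul_div_assoc', div_le_iff₀ hk]
    linarith
  have key := oOf_sub_le (h := hT (τ (s k)) w) (κ := κw) (h' := X') (κ' := Y') hδ0.le ?_ ?_ b u v
  · refine key.trans ?_
    have h7 : N * N * δ * ‖u‖ * ‖v‖ ≤ ε * ‖u‖ * ‖v‖ :=
      mul_le_mul_of_nonneg_right (mul_le_mul_of_nonneg_right hδN (norm_nonneg _))
        (norm_nonneg _)
    exact h7
  · intro i j
    have q1 := (hb (s k)).h_sub hk hquad hwR.le i j
    have q2 := h5 i j
    calc ‖hT (τ (s k)) w i j - X' i j‖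
        = ‖(hT (τ (s k)) w i j - hT (τ (s k)) 0 i j) + (hT (τ (s k)) 0 i j - X' i j)‖ := by
          congr 1; ring
      _ ≤ δ := (norm_add_le _ _).trans (by linarith)
  · intro i j
    rw [← hsw]
    have q1 := (hb (s k)).s_sub hwR.le h1 i j
    have q2 := h6 i j
    calc ‖sT (τ (s k)) w i j - (Y'ᴴ * X') i j‖
        = ‖(sT (τ (s k)) w i j - sT (τ (s k)) 0 i j) +
          (sT (τ (s k)) 0 i j - (Y'ᴴ * X') i j)‖ := by
          congr 1; ring
      _ ≤ δ := (norm_add_le _ _).trans (by linarith)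

end Pool.Agent.LV31
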