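import Pool.Agent.LV31.Germ

/-!
# LV31/Wirt : Wirtinger derivatives of germs on `ℂ^m` and the maximum principle
-/

set_option autoImplicit false

open Filter Topology

noncomputable section

namespace Pool.Agent.LV31

variable {m : ℕ}

/-- The standard basis vectors of `ℂ^m`. -/
def bv (j : Fin m) : Fin m → ℂ := Pi.single j 1

theorem sum_bv (b : Fin m → ℂ) : b = ∑ j, (((b j).re : ℝ) • bv j + ((b j).im : ℝ) •
    (Complex.I • bv j)) := by
  funext i
  rw [Finset.sum_apply]
  have h1 : ∀ j, (((b j).re : ℝ) • bv j + ((b j).im : ℝ) • (Complex.I • bv j)) i =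
      if j = i then b j else 0 := by
    intro j
    by_cases h : j = i
    · subst h
      simp only [bv, Pi.add_apply, Pi.smul_apply, Pi.single_eq_same, if_true, smul_eq_mul,
        mul_one, Complex.real_smul]
      exact Complex.re_add_im (b j)
    · simp [bv, h]
  simp only [h1, Finset.sum_ite_eq', Finset.mem_univ, if_true]

namespace SG

variable {p : Fin m → ℂ}

theorem D_con_mul (v : Fin m → ℂ) (c : ℂ) (x : SG p) : D v (con p c * x) = con p c * D v x := by
  rw [D_mul, D_con, zero_mul, zero_add]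

theorem D_vec_zero (x : SG p) : D (0 : Fin m → ℂ) x = 0 := by
  have h := D_vec_smul (p := p) 0 (0 : Fin m → ℂ) x
  simpa using h

theorem D_vec_sum {α : Type} (s : Finset α) (v : α → Fin m → ℂ) (x : SG p) :
    D (∑ i ∈ s, v i) x = ∑ i ∈ s, D (v i) x := by
  classical
  induction s using Finset.induction_on with
  | empty => simp [D_vec_zero]
  | insert a s ha ih => rw [Finset.sum_insert ha, Finset.sum_insert ha, D_vec_add, ih]

/-- The derivative `∂/∂z_j`. -/
def dz (j : Fin m) (x : SG p) : SG p :=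
  con p (1 / 2) * (D (bv j) x - con p Complex.I * D (Complex.I • bv j) x)

theorem D_zero (v : Fin m → ℂ) : D v (0 : SG p) = 0 := by
  have := D_add (p := p) v 0 0
  simpa using this

theorem D_neg (v : Fin m → ℂ) (x : SG p) : D v (-x) = -D v x := by
  have := D_add v x (-x)
  rw [add_neg_cancel, D_zero] at this
  exact (neg_eq_of_add_eq_zero_right this.symm).symm

theorem D_sub (v : Fin m → ℂ) (x y : SG p) : D v (x - y) = D v x - D v y := by
  rw [sub_eq_add_neg, D_add, D_neg, ← sub_eq_add_neg]

theorem I_sq : con p Complex.I * con p Complex.I = -1 := by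
  rw [← map_mul, Complex.I_mul_I, map_neg, map_one]

theorem conj_I : conj p (con p Complex.I) = -con p Complex.I := by
  rw [conj_con, Complex.conj_I, map_neg]

theorem conj_half : conj p (con p (1 / 2)) = con p (1 / 2) := by
  rw [conj_con]
  congr 1
  apply Complex.ext <;> simp

theorem ez_eq (j : Fin m) (x : SG p) : conj p (dz j (conj p x)) =
    con p (1 / 2) * (D (bv j) x + con p Complex.I * D (Complex.I • bv j) x) := by
  rw [dz, map_mul, map_sub, map_mul, conj_half, conj_I, D_conj, D_conj, conj_conj, conj_conj]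
  ring

/-- The Wirtinger derivatives on germs. -/
def wirt (p : Fin m → ℂ) : DR (Fin m) (SG p) where
  d := dz
  c := conj p
  d_add j x y := by simp only [dz, D_add]; ring
  d_mul j x y := by simp only [dz, D_mul]; ring
  c_c := conj_conj
  d_comm i j x := by
    simp only [dz, D_con_mul, D_sub]
    rw [D_comm (bv i) (bv j), D_comm (bv i) (Complex.I • bv j), D_comm (Complex.I • bv i) (bv j),
      D_comm (Complex.I • bv i) (Complex.I • bv j)]
    ring
  de_comm i j x := by
    rw [ez_eq, ez_eq]
    simp only [dz, D_con_mul, D_sub, D_add]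
    rw [D_comm (bv i) (bv j), D_comm (bv i) (Complex.I • bv j), D_comm (Complex.I • bv i) (bv j),
      D_comm (Complex.I • bv i) (Complex.I • bv j)]
    ring
  two := two

theorem wirt_d (j : Fin m) (x : SG p) : (wirt p).d j x = dz j x := rfl

theorem wirt_c (x : SG p) : (wirt p).c x = conj p x := rfl

theorem wirt_e (j : Fin m) (x : SG p) : (wirt p).e j x =
    con p (1 / 2) * (D (bv j) x + con p Complex.I * D (Complex.I • bv j) x) := ez_eq j x

theorem D_vec (b : Fin m → ℂ) (x : SG p) : D b x =
    ∑ j, (con p (b j).re * D (bv j) x + con p (b j).im * D (Complex.I • bv j) x) := by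
  conv_lhs => rw [sum_bv b]
  rw [D_vec_sum]
  exact Finset.sum_congr rfl fun j _ => by rw [D_vec_add, D_vec_smul, D_vec_smul]

theorem D_I_vec (b : Fin m → ℂ) (x : SG p) : D (Complex.I • b) x =
    ∑ j, (con p (b j).re * D (Complex.I • bv j) x - con p (b j).im * D (bv j) x) := by
  rw [D_vec]
  refine Finset.sum_congr rfl fun j _ => ?_
  simp only [Pi.smul_apply, smul_eq_mul, Complex.mul_re, Complex.I_re, Complex.I_im,
    Complex.mul_im, zero_mul, one_mul, zero_sub, zero_add, Complex.ofReal_neg, map_neg]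
  ring

theorem con_eq (c : ℂ) : con p c = con p c.re + con p Complex.I * con p c.im := by
  rw [← map_mul, ← map_add, mul_comm, Complex.re_add_im]

theorem con_conj_eq (c : ℂ) :
    con p (starRingEnd ℂ c) = con p c.re - con p Complex.I * con p c.im := by
  rw [con_eq (starRingEnd ℂ c)]
  simp [sub_eq_add_neg]

theorem sum_dz (b : Fin m → ℂ) (x : SG p) : ∑ j, con p (b j) * dz j x =
    con p (1 / 2) * (D b x - con p Complex.I * D (Complex.I • b) x) := by
  rw [D_vec b, D_I_vec b, Finset.mul_sum, ← Finset.sum_sub_distrib, Finset.mul_sum]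
  refine Finset.sum_congr rfl fun j _ => ?_
  rw [con_eq (b j), dz]
  linear_combination (-(con p (1 / 2) * con p (b j).im * D (Complex.I • bv j) x)) *
    (I_sq (p := p))

theorem sum_ez (b : Fin m → ℂ) (x : SG p) :
    ∑ j, con p (starRingEnd ℂ (b j)) * (wirt p).e j x =
    con p (1 / 2) * (D b x + con p Complex.I * D (Complex.I • b) x) := by
  rw [D_vec b, D_I_vec b, Finset.mul_sum, ← Finset.sum_add_distrib, Finset.mul_sum]
  refine Finset.sum_congr rfl fun j _ => ?_
  rw [con_conj_eq (b j), wirt_e]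
  linear_combination (-(con p (1 / 2) * con p (b j).im * D (Complex.I • bv j) x)) *
    (I_sq (p := p))

theorem sum_ez_dz (b : Fin m → ℂ) (x : SG p) :
    ∑ r, ∑ s, con p (b r) * con p (starRingEnd ℂ (b s)) * (wirt p).e s ((wirt p).d r x) =
    con p (1 / 4) * (D b (D b x) + D (Complex.I • b) (D (Complex.I • b) x)) := by
  have h1 : ∀ s, ∑ r, con p (b r) * con p (starRingEnd ℂ (b s)) *
      (wirt p).e s ((wirt p).d r x) =
      con p (starRingEnd ℂ (b s)) * (wirt p).e s (∑ r, con p (b r) * dz r x) := by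
    intro s
    rw [((wirt p).e_der s).sum, Finset.mul_sum]
    refine Finset.sum_congr rfl fun r _ => ?_
    have h2 : (wirt p).e s (con p (b r) * dz r x) = con p (b r) * (wirt p).e s (dz r x) := by
      rw [wirt_e, wirt_e, D_con_mul, D_con_mul]
      ring
    rw [h2, wirt_d]
    ring
  rw [Finset.sum_comm]
  simp only [h1]
  rw [sum_ez, sum_dz]
  simp only [D_con_mul, D_sub]
  rw [D_comm (Complex.I • b) b]
  have h3 : con p (1 / 4) = con p (1 / 2) * con p (1 / 2) := by
    rw [← map_mul]; norm_num
  rw [h3]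
  linear_combination (-(con p (1 / 2) * con p (1 / 2) * D (Complex.I • b)
    (D (Complex.I • b) x))) * (I_sq (p := p))

end SG

/-- At a local maximum the second derivative is not positive. -/
theorem deriv_deriv_nonpos {g : ℝ → ℝ} (hg : IsLocalMax g 0) (hc : ContinuousAt g 0) :
    deriv (deriv g) 0 ≤ 0 := by
  by_contra hlt
  rw [not_le] at hlt
  have h1 : IsLocalMin g 0 := isLocalMin_of_deriv_deriv_pos hlt hg.deriv_eq_zero hc
  have h2 : g =ᶠ[𝓝 0] fun _ => g 0 := by
    filter_upwards [hg, h1] with t h3 h4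
    exact le_antisymm h3 h4
  have h3 : deriv g =ᶠ[𝓝 0] fun _ => 0 := by
    have := h2.deriv
    filter_upwards [this] with t ht
    rw [ht]; simp
  rw [h3.deriv_eq] at hlt
  simp at hlt

theorem second_nonpos {V : Type} [NormedAddCommGroup V] [NormedSpace ℝ V] {p : V} {F : V → ℂ}
    (hF : Sm F p) (hmax : IsLocalMax (fun w => (F w).re) p) (b : V) :
    (SG.ev p (SG.D b (SG.D b (SG.mk F hF)))).re ≤ 0 := by
  have h0 : SG.ev p (SG.D b (SG.D b (SG.mk F hF))) =
      fderiv ℝ (fun w => fderiv ℝ F w b) p b := rfl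
  rw [h0]
  set g : ℝ → ℝ := fun t => (F (p + t • b)).re with hg
  have hline : ∀ t : ℝ, HasDerivAt (fun t : ℝ => p + t • b) b t := by
    intro t
    have := ((hasDerivAt_id t).smul_const b).const_add p
    simpa using this
  have hcont : ContinuousAt (fun t : ℝ => p + t • b) 0 := (hline 0).continuousAt
  have htend : Tendsto (fun t : ℝ => p + t • b) (𝓝 0) (𝓝 p) := by
    have := hcont.tendsto
    simpa using this
  have hd1 : ∀ᶠ t in 𝓝 (0 : ℝ), deriv g t = (fderiv ℝ F (p + t • b) b).re := by
    filter_upwards [htend.eventually hF.eventually_diff] with t ht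
    have h1 : HasDerivAt (fun t : ℝ => F (p + t • b)) (fderiv ℝ F (p + t • b) b) t :=
      ht.hasFDerivAt.comp_hasDerivAt t (hline t)
    have h2 : HasDerivAt g (fderiv ℝ F (p + t • b) b).re t := by
      have := (Complex.reCLM.hasFDerivAt (x := F (p + t • b))).comp_hasDerivAt t h1
      exact this
    exact h2.deriv
  have hd2 : deriv (deriv g) 0 = (fderiv ℝ (fun w => fderiv ℝ F w b) p b).re := by
    rw [Filter.EventuallyEq.deriv_eq hd1]
    have h3 : DifferentiableAt ℝ (fun w => fderiv ℝ F w b) (p + (0 : ℝ) • b) := by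
      rw [zero_smul, add_zero]
      exact ((hF.fderiv b).eventually_diff).self_of_nhds
    have h1 : HasDerivAt (fun t : ℝ => fderiv ℝ F (p + t • b) b)
        (fderiv ℝ (fun w => fderiv ℝ F w b) (p + (0 : ℝ) • b) b) 0 :=
      HasFDerivAt.comp_hasDerivAt (l := fun w => fderiv ℝ F w b) (0 : ℝ) h3.hasFDerivAt (hline 0)
    have h4 : HasDerivAt (fun t : ℝ => (fderiv ℝ F (p + t • b) b).re)
        (fderiv ℝ (fun w => fderiv ℝ F w b) (p + (0 : ℝ) • b) b).re 0 := by
      have := (Complex.reCLM.hasFDerivAt (x := fderiv ℝ F (p + (0 : ℝ) • b) b)).comp_hasDerivAt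
        (0 : ℝ) h1
      exact this
    rw [zero_smul, add_zero] at h4
    exact h4.deriv
  rw [← hd2]
  apply deriv_deriv_nonpos
  · have h5 : ∀ᶠ w in 𝓝 p, (F w).re ≤ (F p).re := hmax
    have h6 := htend.eventually h5
    filter_upwards [h6] with t ht
    simpa [hg] using ht
  · have h7 : ContinuousAt F (p + (0 : ℝ) • b) := by
      rw [zero_smul, add_zero]
      exact hF.continuousAt
    exact Complex.continuous_re.continuousAt.comp (ContinuousAt.comp h7 hcont)

/-- The maximum principle for the Laplacian `Σ H_{rs} ∂_r ∂bar_s`. -/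
theorem lap_nonpos {p : Fin m → ℂ} {F : (Fin m → ℂ) → ℂ} (hF : Sm F p)
    (hmax : IsLocalMax (fun w => (F w).re) p) (H C : Matrix (Fin m) (Fin m) ℂ)
    (hH : H = C * C.conjTranspose) :
    (∑ r, ∑ s, H r s * SG.ev p ((SG.wirt p).e s ((SG.wirt p).d r (SG.mk F hF)))).re ≤ 0 := by
  have h1 : ∑ r, ∑ s, H r s * SG.ev p ((SG.wirt p).e s ((SG.wirt p).d r (SG.mk F hF))) =
      ∑ c, (1 / 4 : ℂ) * (SG.ev p (SG.D (fun r => C r c) (SG.D (fun r => C r c) (SG.mk F hF))) +
        SG.ev p (SG.D (Complex.I • fun r => C r c)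
          (SG.D (Complex.I • fun r => C r c) (SG.mk F hF)))) := by
    have h2 : ∀ c, (1 / 4 : ℂ) * (SG.ev p (SG.D (fun r => C r c)
        (SG.D (fun r => C r c) (SG.mk F hF))) +
        SG.ev p (SG.D (Complex.I • fun r => C r c)
          (SG.D (Complex.I • fun r => C r c) (SG.mk F hF)))) =
        ∑ r, ∑ s, C r c * starRingEnd ℂ (C s c) *
          SG.ev p ((SG.wirt p).e s ((SG.wirt p).d r (SG.mk F hF))) := by
      intro c
      have h3 := congrArg (SG.ev p) (SG.sum_ez_dz (fun r => C r c) (SG.mk F hF))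
      simp only [map_sum, map_mul, map_add, SG.ev_con] at h3
      exact h3.symm
    simp only [h2]
    symm
    rw [Finset.sum_comm]
    refine Finset.sum_congr rfl fun r _ => ?_
    rw [Finset.sum_comm]
    refine Finset.sum_congr rfl fun s _ => ?_
    symm
    rw [hH, Matrix.mul_apply, Finset.sum_mul]
    exact Finset.sum_congr rfl fun c _ => by rw [Matrix.conjTranspose_apply]; rfl
  rw [h1, Complex.re_sum]
  apply Finset.sum_nonpos
  intro c _
  have h4 := second_nonpos hF hmax (fun r => C r c)
  have h5 := second_nonpos hF hmax (Complex.I • fun r => C r c)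
  have h6 : ((1 / 4 : ℂ) * (SG.ev p (SG.D (fun r => C r c)
      (SG.D (fun r => C r c) (SG.mk F hF))) + SG.ev p (SG.D (Complex.I • fun r => C r c)
          (SG.D (Complex.I • fun r => C r c) (SG.mk F hF))))).re =
      (1 / 4) * ((SG.ev p (SG.D (fun r => C r c) (SG.D (fun r => C r c) (SG.mk F hF)))).re +
        (SG.ev p (SG.D (Complex.I • fun r => C r c)
          (SG.D (Complex.I • fun r => C r c) (SG.mk F hF)))).re) := by
    rw [show (1 / 4 : ℂ) = ((1 / 4 : ℝ) : ℂ) by norm_num, Complex.re_ofReal_mul, Complex.add_re]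
  rw [h6]
  linarith

end Pool.Agent.LV31
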